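import Mathlib

/-!
# Walsh analysis on the discrete cube
-/

open Finset

namespace Pool.Agent.R158.Walsh

variable {ι : Type*} [Fintype ι] [DecidableEq ι]

/-- the sign of a bit -/
def sg (b : Bool) : ℝ := if b then -1 else 1

lemma sg_xor (a b : Bool) : sg (xor a b) = sg a * sg b := by
  cases a <;> cases b <;> norm_num [sg]

lemma sg_sq (a : Bool) : sg a * sg a = 1 := by
  cases a <;> norm_num [sg]

/-- coordinatewise addition -/
def add (x y : ι → Bool) : ι → Bool := fun i => xor (x i) (y i)

@[simp] lemma add_apply (x y : ι → Bool) (i : ι) : add x y i = xor (x i) (y i) := rfl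

lemma add_add_cancel (x y : ι → Bool) : add (add x y) y = x := by
  ext i; simp [Bool.xor_assoc]

lemma add_comm' (x y : ι → Bool) : add x y = add y x := by
  ext i; simp [Bool.xor_comm]

/-- Walsh characters -/
def chi (S : Finset ι) (x : ι → Bool) : ℝ := ∏ i ∈ S, sg (x i)

omit [Fintype ι] [DecidableEq ι] in
lemma chi_add (S : Finset ι) (x y : ι → Bool) : chi S (add x y) = chi S x * chi S y := by
  unfold chi
  rw [← prod_mul_distrib]
  exact prod_congr rfl fun i _ => sg_xor _ _

omit [Fintype ι] [DecidableEq ι] in
lemma chi_empty (x : ι → Bool) : chi ∅ x = 1 := by simp [chi]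

lemma sum_chi (z : ι → Bool) :
    ∑ S : Finset ι, chi S z = if z = (fun _ => false) then (2 : ℝ) ^ Fintype.card ι else 0 := by
  have h1 : ∑ S : Finset ι, chi S z = ∏ i : ι, (1 + sg (z i)) := by
    rw [Finset.prod_one_add]
    rfl
  rw [h1]
  split_ifs with h
  · rw [h]
    simp only [sg, Bool.false_eq_true, if_false]
    norm_num
    
  · obtain ⟨i, hi⟩ : ∃ i, z i ≠ false := by
      by_contra hcon
      push Not at hcon
      exact h (funext hcon)
    refine prod_eq_zero (mem_univ i) ?_
    have : z i = true := by simpa using hi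
    simp [sg, this]

/-- the Walsh transform -/
noncomputable def hat (f : (ι → Bool) → ℝ) (S : Finset ι) : ℝ := ∑ x, f x * chi S x

lemma corr (f g : (ι → Bool) → ℝ) (b : ι → Bool) :
    ∑ S, hat f S * hat g S * chi S b = (2 : ℝ) ^ Fintype.card ι * ∑ x, f x * g (add x b) := by
  have h1 : ∀ S : Finset ι, hat f S * hat g S * chi S b
      = ∑ x, ∑ y, f x * g y * chi S (add (add x y) b) := by
    intro S
    unfold hat
    rw [sum_mul_sum, sum_mul]
    refine sum_congr rfl fun x _ => ?_
    rw [sum_mul]
    refine sum_congr rfl fun y _ => ?_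
    rw [chi_add, chi_add]
    ring
  simp only [h1]
  rw [sum_comm, mul_sum]
  refine sum_congr rfl fun x _ => ?_
  rw [sum_comm]
  rw [Finset.sum_eq_single (add x b)]
  · rw [← mul_sum, sum_chi, if_pos]
    · ring
    · ext i; simp
  · intro y _ hy
    rw [← mul_sum, sum_chi, if_neg, mul_zero]
    intro h
    apply hy
    ext i
    have := congrFun h i
    simp only [add_apply] at this ⊢
    revert this
    cases x i <;> cases y i <;> cases b i <;> simp
  · intro h; exact absurd (mem_univ _) h

lemma hat_sq_sum (f : (ι → Bool) → ℝ) :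
    ∑ S, hat f S ^ 2 = (2 : ℝ) ^ Fintype.card ι * ∑ x, f x ^ 2 := by
  have := corr f f (fun _ => false)
  have h1 : ∀ S : Finset ι, chi S (fun _ => false) = 1 := by
    intro S; simp [chi, sg]
  have h2 : ∀ x : ι → Bool, add x (fun _ => false) = x := by
    intro x; ext i; simp
  simp only [h1, h2, mul_one] at this
  simp only [sq]
  exact this

/-- indicator vector of a set -/
def ind (B : Finset ι) : ι → Bool := fun i => decide (i ∈ B)

end Pool.Agent.R158.Walsh
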