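import Mathlib
import Pool.Agent.R158.Walsh

/-!
# Polynomial hashing, slabs, and the trap for cubes of small scale
-/

open Finset Polynomial

namespace Pool.Agent.R158.HashSlab

open Walsh

/-- Polynomial hash family: `p` partitions of `N ≤ p ^ d` coordinates into `p` cells, two
coordinates sharing a cell in at most `d - 1` of them. -/
lemma exists_hash (p : ℕ) [hp : Fact p.Prime] (d N : ℕ) (hN : N ≤ p ^ d) :
    ∃ h : ZMod p → Fin N → ZMod p, ∀ c c', c ≠ c' →
      (univ.filter fun a => h a c = h a c').card ≤ d - 1 := by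
  classical
  have hcard : Fintype.card (Fin N) ≤ Fintype.card (Fin d → ZMod p) := by
    rw [Fintype.card_fin, Fintype.card_fun, ZMod.card, Fintype.card_fin]
    exact hN
  obtain ⟨v⟩ := Function.Embedding.nonempty_of_card_le hcard
  let P : Fin N → (ZMod p)[X] := fun c => ∑ j : Fin d, C (v c j) * X ^ (j : ℕ)
  have hPc : ∀ c (j : Fin d), (P c).coeff j = v c j := by
    intro c j
    simp only [P, finsetSum_coeff, coeff_C_mul_X_pow]
    rw [Finset.sum_eq_single j]
    · simp
    · intro i _ hij
      rw [if_neg]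
      intro h
      exact hij (Fin.ext h.symm)
    · intro h; exact absurd (mem_univ _) h
  have hPdeg : ∀ c, (P c).degree < d := by
    intro c
    rw [← Polynomial.mem_degreeLT]
    refine Submodule.sum_mem _ fun i _ => ?_
    rw [Polynomial.mem_degreeLT]
    exact lt_of_le_of_lt (degree_C_mul_X_pow_le _ _) (by exact_mod_cast i.2)
  refine ⟨fun a c => (P c).eval a, fun c c' hcc => ?_⟩
  have hne : P c - P c' ≠ 0 := by
    intro h0
    apply hcc
    apply v.injective
    ext j
    rw [← hPc c j, ← hPc c' j, sub_eq_zero.1 h0]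
  have h1 : (univ.filter fun a => (P c).eval a = (P c').eval a) ⊆ (P c - P c').roots.toFinset := by
    intro a ha
    rw [mem_filter] at ha
    rw [Multiset.mem_toFinset, mem_roots hne, IsRoot.def, eval_sub, ha.2, sub_self]
  refine (card_le_card h1).trans ((Multiset.toFinset_card_le _).trans ((card_roots' _).trans ?_))
  have h2 : (P c - P c').degree < d := lt_of_le_of_lt (degree_sub_le _ _)
    (max_lt (hPdeg c) (hPdeg c'))
  rw [degree_eq_natDegree hne] at h2
  have h3 : (P c - P c').natDegree < d := by exact_mod_cast h2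
  omega

/-- The energy of a vector seen by the hash cells. -/
lemma hash_energy {p d N : ℕ} [Fact p.Prime] (h : ZMod p → Fin N → ZMod p)
    (hh : ∀ c c', c ≠ c' → (univ.filter fun a => h a c = h a c').card ≤ d - 1)
    (w : Fin N → ℝ) :
    (p : ℝ) * ∑ c, w c ^ 2 - ((d - 1 : ℕ) : ℝ) * (∑ c, |w c|) ^ 2
      ≤ ∑ a, ∑ b, (∑ c with h a c = b, w c) ^ 2 := by
  classical
  have h1 : ∀ a, ∑ b, (∑ c with h a c = b, w c) ^ 2
      = ∑ c, ∑ c', if h a c = h a c' then w c * w c' else 0 := by
    intro a
    have : ∀ b, (∑ c with h a c = b, w c) ^ 2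
        = ∑ c, ∑ c', if h a c = b ∧ h a c' = b then w c * w c' else 0 := by
      intro b
      rw [sq, sum_filter, sum_mul_sum]
      refine sum_congr rfl fun c _ => sum_congr rfl fun c' _ => ?_
      by_cases h1 : h a c = b <;> by_cases h2 : h a c' = b <;> simp [h1, h2]
    simp only [this]
    rw [sum_comm]
    refine sum_congr rfl fun c _ => ?_
    rw [sum_comm]
    refine sum_congr rfl fun c' _ => ?_
    by_cases hcc : h a c = h a c'
    · rw [if_pos hcc, Finset.sum_eq_single (h a c)]
      · rw [if_pos ⟨rfl, hcc.symm⟩]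
      · intro b _ hb
        rw [if_neg]
        rintro ⟨h1, _⟩
        exact hb h1.symm
      · intro h; exact absurd (mem_univ _) h
    · rw [if_neg hcc]
      refine sum_eq_zero fun b _ => ?_
      rw [if_neg]
      rintro ⟨h1, h2⟩
      exact hcc (h1.trans h2.symm)
  simp only [h1]
  have h2 : ∑ a, ∑ c, ∑ c', (if h a c = h a c' then w c * w c' else 0)
      = ∑ c, ∑ c', ((univ.filter fun a => h a c = h a c').card : ℝ) * (w c * w c') := by
    rw [sum_comm]
    refine sum_congr rfl fun c _ => ?_
    rw [sum_comm]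
    refine sum_congr rfl fun c' _ => ?_
    rw [← sum_filter, sum_const, nsmul_eq_mul]
  rw [h2, sq (∑ c, |w c|), sum_mul_sum, mul_sum, mul_sum, ← sum_sub_distrib]
  refine sum_le_sum fun c _ => ?_
  have hpc : ((univ.filter fun a => h a c = h a c).card : ℝ) = p := by
    rw [filter_true_of_mem (fun _ _ => rfl), card_univ, ZMod.card]
  rw [← Finset.add_sum_erase univ (fun c' => ((univ.filter fun a => h a c = h a c').card : ℝ)
    * (w c * w c')) (mem_univ c), hpc]
  have h3 : -(((d - 1 : ℕ) : ℝ) * ∑ c', |w c| * |w c'|)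
      ≤ ∑ c' ∈ univ.erase c, ((univ.filter fun a => h a c = h a c').card : ℝ) * (w c * w c') := by
    have h4 : -(((d - 1 : ℕ) : ℝ) * ∑ c', |w c| * |w c'|)
        ≤ -∑ c' ∈ univ.erase c, ((d - 1 : ℕ) : ℝ) * (|w c| * |w c'|) := by
      rw [neg_le_neg_iff, mul_sum]
      refine sum_le_sum_of_subset_of_nonneg (erase_subset _ _) fun _ _ _ => by positivity
    refine h4.trans ?_
    rw [← sum_neg_distrib]
    refine sum_le_sum fun c' hc' => ?_
    have hne : c ≠ c' := fun h => (mem_erase.1 hc').1 h.symm
    have h5 : ((univ.filter fun a => h a c = h a c').card : ℝ) ≤ ((d - 1 : ℕ) : ℝ) := by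
      exact_mod_cast hh c c' hne
    have h6 : -(|w c| * |w c'|) ≤ w c * w c' := by
      rw [← abs_mul]; exact neg_abs_le _
    have h7 : (0 : ℝ) ≤ ((univ.filter fun a => h a c = h a c').card : ℝ) := by positivity
    have h8 : (0 : ℝ) ≤ |w c| * |w c'| := by positivity
    nlinarith
  have h9 : (p : ℝ) * w c ^ 2 = p * (w c * w c) := by ring
  linarith

/-- number of ones of `x` in `V` -/
def cnt {N : ℕ} (V : Finset (Fin N)) (x : Fin N → Bool) : ℤ :=
  ((V.filter fun c => x c = true).card : ℤ)

lemma cnt_eq {N : ℕ} (V : Finset (Fin N)) (x : Fin N → Bool) :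
    cnt V x = ∑ c ∈ V, if x c = true then (1 : ℤ) else 0 := by
  unfold cnt
  rw [Finset.card_filter]
  push_cast
  rfl

lemma cnt_diff {N : ℕ} (V : Finset (Fin N)) (x y : Fin N → Bool) :
    cnt V y - cnt V x ≤ hammingDist x y := by
  rw [cnt_eq, cnt_eq, ← sum_sub_distrib]
  have h1 : ∑ c ∈ V, ((if y c = true then (1 : ℤ) else 0) - (if x c = true then (1 : ℤ) else 0))
      ≤ ∑ c ∈ V, if x c ≠ y c then (1 : ℤ) else 0 := by
    refine sum_le_sum fun c _ => ?_
    cases x c <;> cases y c <;> simp
  refine h1.trans ?_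
  have h2 : ∑ c ∈ V, (if x c ≠ y c then (1 : ℤ) else 0) ≤ ∑ c, if x c ≠ y c then (1 : ℤ) else 0 :=
    sum_le_sum_of_subset_of_nonneg (subset_univ _) fun _ _ _ => by split_ifs <;> norm_num
  refine h2.trans (le_of_eq ?_)
  unfold hammingDist
  rw [Finset.card_filter]
  push_cast
  rfl

/-- choice of the slab offset -/
lemma exists_offset {N L g : ℕ} (hL : 0 < L) (V : Finset (Fin N)) :
    ∃ t : ℤ, (L : ℝ) * ((univ.filter fun x : Fin N → Bool => (cnt V x - t) % L < g).card : ℝ)
      ≤ g * 2 ^ N := by
  classical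
  by_contra hcon
  push Not at hcon
  have h1 : ∑ t ∈ range L, (g * 2 ^ N : ℝ)
      < ∑ t ∈ range L, (L : ℝ) *
        ((univ.filter fun x : Fin N → Bool => (cnt V x - (t : ℤ)) % L < g).card : ℝ) := by
    refine sum_lt_sum_of_nonempty ⟨0, mem_range.2 hL⟩ fun t _ => hcon t
  rw [sum_const, card_range, nsmul_eq_mul, ← mul_sum] at h1
  have hLr : (0 : ℝ) < L := by exact_mod_cast hL
  have h2 := lt_of_mul_lt_mul_left h1 hLr.le
  have h3 : (∑ t ∈ range L,
        (univ.filter fun x : Fin N → Bool => (cnt V x - (t : ℤ)) % L < g).card)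
      = ∑ x : Fin N → Bool, ((range L).filter fun t : ℕ => (cnt V x - (t : ℤ)) % L < g).card := by
    simp only [Finset.card_filter]
    rw [sum_comm]
  have h4 : ∀ x : Fin N → Bool, ((range L).filter fun t : ℕ => (cnt V x - (t : ℤ)) % L < g).card ≤ g := by
    intro x
    have hL' : (0 : ℤ) < L := by exact_mod_cast hL
    have : ((range L).filter fun t : ℕ => (cnt V x - (t : ℤ)) % L < g).card ≤ (range g).card := by
      refine Finset.card_le_card_of_injOn (fun t => ((cnt V x - (t : ℤ)) % L).toNat) ?_ ?_
      · intro t ht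
        rw [mem_coe, mem_filter] at ht
        rw [mem_coe, mem_range]
        have h5 := Int.emod_nonneg (cnt V x - (t : ℤ)) hL'.ne'
        have := ht.2
        beta_reduce
        omega
      · intro t ht t' ht' heq
        rw [mem_coe, mem_filter, mem_range] at ht ht'
        have h5 := Int.emod_nonneg (cnt V x - (t : ℤ)) hL'.ne'
        have h6 := Int.emod_nonneg (cnt V x - (t' : ℤ)) hL'.ne'
        have h7 : (cnt V x - (t : ℤ)) % L = (cnt V x - (t' : ℤ)) % L := by
          have : ((cnt V x - (t : ℤ)) % L).toNat = ((cnt V x - (t' : ℤ)) % L).toNat := heq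
          omega
        have h8 : (L : ℤ) ∣ (cnt V x - (t : ℤ)) - (cnt V x - (t' : ℤ)) :=
          Int.ModEq.dvd (Int.ModEq.symm h7)
        obtain ⟨m, hm⟩ := h8
        have h9 : (t' : ℤ) - t = L * m := by linarith
        have hm0 : m = 0 := by
          by_contra hne
          rcases lt_or_gt_of_ne hne with hlt | hgt
          · have : (L : ℤ) * m ≤ L * (-1) := by
              apply mul_le_mul_of_nonneg_left _ hL'.le
              omega
            omega
          · have : (L : ℤ) * 1 ≤ L * m := by
              apply mul_le_mul_of_nonneg_left _ hL'.le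
              omega
            omega
        rw [hm0, mul_zero] at h9
        omega
    rwa [card_range] at this
  have h5 : (∑ t ∈ range L,
        (univ.filter fun x : Fin N → Bool => (cnt V x - (t : ℤ)) % L < g).card)
      ≤ 2 ^ N * g := by
    rw [h3]
    refine (sum_le_sum fun x _ => h4 x).trans ?_
    rw [sum_const, card_univ, Fintype.card_fun, Fintype.card_bool, Fintype.card_fin, smul_eq_mul]
  have h6 : (∑ t ∈ range L,
        ((univ.filter fun x : Fin N → Bool => (cnt V x - (t : ℤ)) % L < g).card : ℝ))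
      ≤ 2 ^ N * g := by exact_mod_cast h5
  linarith

/-- the trap: a jump of at most `g` cannot change the slab -/
lemma same_slab {L g : ℤ} (hL : 0 < L) {u v : ℤ} (hu : ¬ u % L < g) (hv : ¬ v % L < g)
    (h1 : v - u ≤ g) (h2 : u - v ≤ g) (_hg : 0 < g) : u / L = v / L := by
  have hu1 := Int.emod_add_mul_ediv u L
  have hv1 := Int.emod_add_mul_ediv v L
  have hu2 := Int.emod_lt_of_pos u hL
  have hv2 := Int.emod_lt_of_pos v hL
  push Not at hu hv
  by_contra hne
  rcases lt_or_gt_of_ne hne with h | h
  · have : L * (u / L + 1) ≤ L * (v / L) := by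
      apply mul_le_mul_of_nonneg_left _ hL.le
      omega
    nlinarith
  · have : L * (v / L + 1) ≤ L * (u / L) := by
      apply mul_le_mul_of_nonneg_left _ hL.le
      omega
    nlinarith

/-- a function on the cube invariant under flipping one bit is constant -/
lemma const_of_flip {k : ℕ} {α : Type*} (Φ : (Fin k → Bool) → α)
    (h : ∀ x i, Φ (add x (ind {i})) = Φ x) (x y : Fin k → Bool) : Φ x = Φ y := by
  classical
  have key : ∀ S : Finset (Fin k), ∀ x, Φ (add x (ind S)) = Φ x := by
    intro S
    induction S using Finset.induction_on with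
    | empty =>
      intro x
      congr 1
      ext i
      simp [ind]
    | insert a S ha ih =>
      intro x
      have : add x (ind (insert a S)) = add (add x (ind S)) (ind {a}) := by
        ext i
        simp only [Walsh.add_apply, ind, mem_insert, mem_singleton]
        by_cases hia : i = a
        · subst hia
          simp [ha]
        · simp [hia]
      rw [this, h, ih]
  have h1 := key (univ.filter fun i => x i ≠ y i) x
  rw [← h1]
  congr 1
  ext i
  simp only [Walsh.add_apply, ind, mem_filter, mem_univ, true_and]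
  cases x i <;> cases y i <;> simp

end Pool.Agent.R158.HashSlab
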