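import Mathlib
import Pool.Agent.R158.HashSlab

/-!
# Bi-Lipschitz cubes of small scale cannot avoid the slabs
-/

open Finset

namespace Pool.Agent.R158.BiLip

open Walsh HashSlab

variable {k : ℕ}

/-- all ones -/
def ones : Fin k → Bool := fun _ => true

lemma chi_single (S : Finset (Fin k)) (i : Fin k) :
    chi S (ind {i}) = if i ∈ S then -1 else 1 := by
  unfold chi ind sg
  by_cases h : i ∈ S
  · rw [if_pos h, ← Finset.mul_prod_erase S _ h]
    have : ∏ x ∈ S.erase i, (if decide (x ∈ ({i} : Finset (Fin k))) = true then (-1 : ℝ) else 1) = 1 := by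
      refine prod_eq_one fun x hx => ?_
      simp [(mem_erase.1 hx).1]
    rw [this]
    simp
  · rw [if_neg h]
    refine prod_eq_one fun x hx => ?_
    have : x ≠ i := fun h' => h (h' ▸ hx)
    simp [this]

lemma chi_ones (S : Finset (Fin k)) : chi S (ones : Fin k → Bool) = (-1) ^ S.card := by
  unfold chi ones sg
  simp

/-- energy identity -/
lemma energy (f : (Fin k → Bool) → ℝ) (b : Fin k → Bool) :
    (2 : ℝ) ^ k * ∑ x, (f x - f (add x b)) ^ 2 = 2 * ∑ S, hat f S ^ 2 * (1 - chi S b) := by
  have h1 := corr f f b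
  have h2 := hat_sq_sum f
  rw [Fintype.card_fin] at h1 h2
  have h3 : ∑ x, f (add x b) ^ 2 = ∑ x, f x ^ 2 := by
    refine Finset.sum_bij' (fun x _ => add x b) (fun x _ => add x b) (fun _ _ => mem_univ _)
      (fun _ _ => mem_univ _) (fun x _ => add_add_cancel x b) (fun x _ => add_add_cancel x b)
      (fun x _ => rfl)
  have h4 : ∑ x, (f x - f (add x b)) ^ 2
      = 2 * ∑ x, f x ^ 2 - 2 * ∑ x, f x * f (add x b) := by
    have : ∀ x, (f x - f (add x b)) ^ 2 = f x ^ 2 + f (add x b) ^ 2 - 2 * (f x * f (add x b)) := by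
      intro x; ring
    simp only [this]
    rw [sum_sub_distrib, sum_add_distrib, h3, ← mul_sum]
    ring
  have h5 : ∑ S, hat f S ^ 2 * (1 - chi S b) = ∑ S, hat f S ^ 2 - ∑ S, hat f S * hat f S * chi S b := by
    rw [← sum_sub_distrib]
    refine sum_congr rfl fun S _ => by ring
  rw [h4, h5, h1, h2]
  ring

/-- The level one weight is large when antipodal energy nearly matches the edge energy. -/
lemma level_one (f : (Fin k → Bool) → ℝ) :
    (2 : ℝ) ^ k * (3 * ∑ x, (f x - f (add x ones)) ^ 2 - ∑ i, ∑ x, (f x - f (add x (ind {i}))) ^ 2)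
      ≤ 8 * ∑ i, hat f {i} ^ 2 := by
  have h1 := energy f ones
  have h2 : (2 : ℝ) ^ k * ∑ i, ∑ x, (f x - f (add x (ind {i}))) ^ 2
      = ∑ S, 4 * (S.card : ℝ) * hat f S ^ 2 := by
    rw [mul_sum]
    have : ∀ i ∈ (univ : Finset (Fin k)), (2 : ℝ) ^ k * ∑ x, (f x - f (add x (ind {i}))) ^ 2
        = ∑ S, hat f S ^ 2 * (if i ∈ S then 4 else 0) := by
      intro i _
      rw [energy, mul_sum]
      refine sum_congr rfl fun S _ => ?_
      rw [chi_single]
      split_ifs <;> ring
    rw [sum_congr rfl this, sum_comm]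
    refine sum_congr rfl fun S _ => ?_
    rw [← mul_sum, ← sum_filter]
    simp only [sum_const, nsmul_eq_mul]
    have : (univ.filter fun i => i ∈ S) = S := by ext; simp
    rw [this]
    ring
  have h3 : ∑ i, hat f {i} ^ 2 = ∑ S : Finset (Fin k), if S.card = 1 then hat f S ^ 2 else 0 := by
    rw [← sum_filter]
    have : (univ.filter fun S : Finset (Fin k) => S.card = 1) = univ.image fun i => {i} := by
      ext S
      simp only [mem_filter, mem_univ, true_and, mem_image, card_eq_one, eq_comm]
    rw [this, sum_image]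
    intro i _ j _ hij
    exact Finset.singleton_injective hij
  rw [mul_sub, h2, mul_left_comm, h1, h3, mul_sum, mul_sum, mul_sum, ← sum_sub_distrib]
  refine sum_le_sum fun S _ => ?_
  rw [chi_ones]
  have hsq := sq_nonneg (hat f S)
  rcases Nat.even_or_odd S.card with he | ho
  · rw [he.neg_one_pow]
    have : S.card ≠ 1 := by
      intro h; rw [h] at he; exact absurd he (by decide)
    rw [if_neg this]
    have : (0 : ℝ) ≤ S.card := by positivity
    nlinarith
  · rw [ho.neg_one_pow]
    by_cases h1 : S.card = 1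
    · rw [if_pos h1, h1]
      push_cast
      nlinarith
    · rw [if_neg h1]
      have h3' : 3 ≤ S.card := by
        obtain ⟨m, hm⟩ := ho
        omega
      have : (3 : ℝ) ≤ S.card := by exact_mod_cast h3'
      nlinarith

/-- Bessel for level one, bounded oscillation. -/
lemma bessel (G : (Fin k → Bool) → ℝ) (m A : ℝ) (hG : ∀ x, |G x - m| ≤ A) :
    ∑ i, hat G {i} ^ 2 ≤ (2 : ℝ) ^ k * ((2 : ℝ) ^ k * A ^ 2) := by
  have h1 : ∀ i : Fin k, hat G {i} = hat (fun x => G x - m) {i} := by
    intro i
    unfold hat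
    have h2 : ∑ x : Fin k → Bool, chi {i} x = 0 := by
      have h3 : ∑ x : Fin k → Bool, chi {i} x = ∑ x : Fin k → Bool, chi {i} (add x (ind {i})) := by
        refine Finset.sum_bij' (fun x _ => add x (ind {i})) (fun x _ => add x (ind {i}))
          (fun _ _ => mem_univ _) (fun _ _ => mem_univ _) (fun x _ => add_add_cancel x _)
          (fun x _ => add_add_cancel x _) (fun x _ => ?_)
        rw [add_add_cancel]
      have h4 : ∀ x : Fin k → Bool, chi {i} (add x (ind {i})) = -chi {i} x := by
        intro x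
        rw [chi_add, chi_single, if_pos (mem_singleton_self i)]
        ring
      simp only [h4, sum_neg_distrib] at h3
      linarith
    simp only [sub_mul]
    rw [sum_sub_distrib, ← mul_sum, h2, mul_zero, sub_zero]
  simp only [h1]
  have h2 : ∑ i, hat (fun x => G x - m) {i} ^ 2 ≤ ∑ S, hat (fun x => G x - m) S ^ 2 := by
    have : ∑ i : Fin k, hat (fun x => G x - m) {i} ^ 2
        = ∑ S ∈ univ.image (fun i : Fin k => ({i} : Finset (Fin k))), hat (fun x => G x - m) S ^ 2 := by
      rw [sum_image]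
      intro i _ j _ hij
      exact Finset.singleton_injective hij
    rw [this]
    exact sum_le_sum_of_subset_of_nonneg (subset_univ _) fun _ _ _ => sq_nonneg _
  refine h2.trans ?_
  rw [hat_sq_sum, Fintype.card_fin]
  have h3 : ∑ x, (G x - m) ^ 2 ≤ ∑ _x : Fin k → Bool, A ^ 2 := by
    refine sum_le_sum fun x _ => ?_
    rw [← sq_abs (G x - m)]
    have := hG x
    have h0 := abs_nonneg (G x - m)
    gcongr
  rw [sum_const, card_univ, Fintype.card_fun, Fintype.card_bool, Fintype.card_fin, nsmul_eq_mul] at h3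
  push_cast at h3
  gcongr

/-- coordinate functions -/
def co {N : ℕ} (f : (Fin k → Bool) → (Fin N → Bool)) (c : Fin N) (x : Fin k → Bool) : ℝ :=
  if f x c = true then 1 else 0

lemma sum_co {N : ℕ} (f : (Fin k → Bool) → (Fin N → Bool)) (x y : Fin k → Bool) :
    ∑ c, (co f c x - co f c y) ^ 2 = hammingDist (f x) (f y) := by
  unfold hammingDist
  rw [Finset.card_filter]
  push_cast
  refine sum_congr rfl fun c _ => ?_
  unfold co
  cases f x c <;> cases f y c <;> simp

lemma sum_co_abs {N : ℕ} (f : (Fin k → Bool) → (Fin N → Bool)) (x y : Fin k → Bool) :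
    ∑ c, |co f c x - co f c y| = hammingDist (f x) (f y) := by
  unfold hammingDist
  rw [Finset.card_filter]
  push_cast
  refine sum_congr rfl fun c _ => ?_
  unfold co
  cases f x c <;> cases f y c <;> simp

lemma dist_flip (x : Fin k → Bool) (i : Fin k) : hammingDist x (add x (ind {i})) = 1 := by
  unfold hammingDist
  have : (univ.filter fun j => x j ≠ add x (ind {i}) j) = {i} := by
    ext j
    simp only [mem_filter, mem_univ, true_and, Walsh.add_apply, ind, mem_singleton]
    by_cases h : j = i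
    · simp [h]
    · simp [h]
  rw [this, card_singleton]

lemma dist_ones (x : Fin k → Bool) : hammingDist x (add x ones) = k := by
  unfold hammingDist
  have : (univ.filter fun j => x j ≠ add x ones j) = univ := by
    ext j
    simp [ones]
  rw [this, card_univ, Fintype.card_fin]

/-- The quantitative obstruction: if all cell counts stay in windows of length `L` along the
image of a bi-Lipschitz map of scale `r`, then the parameters satisfy the stated inequality. -/
lemma obstruction {N p d : ℕ} [Fact p.Prime] (h : ZMod p → Fin N → ZMod p)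
    (hh : ∀ c c', c ≠ c' → (univ.filter fun a => h a c = h a c').card ≤ d - 1)
    {f : (Fin k → Bool) → (Fin N → Bool)} {r ε : ℝ}
    (hf : ∀ x y, r * (hammingDist x y : ℝ) ≤ hammingDist (f x) (f y) ∧
      (hammingDist (f x) (f y) : ℝ) ≤ (1 + ε) * r * hammingDist x y)
    {L : ℝ} (hwin : ∀ a b, ∃ m : ℝ, ∀ x,
      |(cnt (univ.filter fun c => h a c = b) (f x) : ℝ) - m| ≤ L / 2) :
    (k : ℝ) * r * (p * (1 - ε / 2) - ((d - 1 : ℕ) : ℝ) * ((1 + ε) ^ 2 * r)) ≤ p ^ 2 * L ^ 2 := by
  set V : ℝ := (2 : ℝ) ^ k with hV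
  have hVpos : 0 < V := by positivity
  set w : Fin k → Fin N → ℝ := fun i c => 2 * hat (co f c) {i} / V with hw
  -- lower bound of the energies
  have hedge : ∀ i x, (hammingDist (f x) (f (add x (ind {i}))) : ℝ) ≤ (1 + ε) * r := by
    intro i x
    have := (hf x (add x (ind {i}))).2
    rw [dist_flip] at this
    simpa using this
  have hanti : ∀ x, r * k ≤ (hammingDist (f x) (f (add x ones)) : ℝ) := by
    intro x
    have := (hf x (add x ones)).1
    rwa [dist_ones] at this
  have hcardV : ((univ : Finset (Fin k → Bool)).card : ℝ) = V := by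
    rw [card_univ, Fintype.card_fun, Fintype.card_bool, Fintype.card_fin, hV]
    push_cast
    rfl
  have h1 : ∑ c, ∑ x, (co f c x - co f c (add x ones)) ^ 2 ≥ V * (r * k) := by
    rw [sum_comm]
    simp only [sum_co]
    have : ∑ _x : Fin k → Bool, (r * k : ℝ) ≤ ∑ x, (hammingDist (f x) (f (add x ones)) : ℝ) :=
      sum_le_sum fun x _ => hanti x
    rw [sum_const, nsmul_eq_mul, hcardV] at this
    exact this
  have h2 : ∑ c, ∑ i, ∑ x, (co f c x - co f c (add x (ind {i}))) ^ 2 ≤ V * (k * ((1 + ε) * r)) := by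
    have e1 : ∑ c, ∑ i, ∑ x, (co f c x - co f c (add x (ind {i}))) ^ 2
        = ∑ i, ∑ x, ∑ c, (co f c x - co f c (add x (ind {i}))) ^ 2 := by
      rw [sum_comm]
      refine sum_congr rfl fun i _ => ?_
      rw [sum_comm]
    rw [e1]
    simp only [sum_co]
    have e2 : ∑ i : Fin k, ∑ x, (hammingDist (f x) (f (add x (ind {i}))) : ℝ)
        ≤ ∑ _i : Fin k, ∑ _x : Fin k → Bool, (1 + ε) * r :=
      sum_le_sum fun i _ => sum_le_sum fun x _ => hedge i x
    simp only [sum_const, nsmul_eq_mul, card_univ, Fintype.card_fin] at e2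
    refine e2.trans (le_of_eq ?_)
    have : ((Fintype.card (Fin k → Bool) : ℕ) : ℝ) = V := by
      rw [Fintype.card_fun, Fintype.card_bool, Fintype.card_fin, hV]
      push_cast
      rfl
    rw [this]
    ring
  -- level one weights
  have h3 : V * (V * (3 * (r * k) - k * ((1 + ε) * r))) ≤ 8 * ∑ c, ∑ i, hat (co f c) {i} ^ 2 := by
    have e1 : V * (3 * ∑ c, ∑ x, (co f c x - co f c (add x ones)) ^ 2
        - ∑ c, ∑ i, ∑ x, (co f c x - co f c (add x (ind {i}))) ^ 2)
        ≤ 8 * ∑ c, ∑ i, hat (co f c) {i} ^ 2 := by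
      rw [mul_sum, mul_sum, ← sum_sub_distrib, mul_sum]
      exact sum_le_sum fun c _ => level_one (co f c)
    refine le_trans ?_ e1
    apply mul_le_mul_of_nonneg_left _ hVpos.le
    nlinarith
  have hw2 : (k : ℝ) * r * (1 - ε / 2) ≤ ∑ i, ∑ c, w i c ^ 2 := by
    have e1 : ∑ i, ∑ c, w i c ^ 2 = 4 / V ^ 2 * ∑ c, ∑ i, hat (co f c) {i} ^ 2 := by
      rw [sum_comm, mul_sum]
      refine sum_congr rfl fun c _ => ?_
      rw [mul_sum]
      refine sum_congr rfl fun i _ => ?_
      rw [hw]
      ring
    rw [e1, div_mul_eq_mul_div, le_div_iff₀ (by positivity)]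
    nlinarith
  -- l1 bound
  have hw1 : ∀ i, ∑ c, |w i c| ≤ (1 + ε) * r := by
    intro i
    have e1 : ∀ c, |w i c| ≤ (∑ x, |co f c x - co f c (add x (ind {i}))|) / V := by
      intro c
      have e2 : 2 * hat (co f c) {i} = ∑ x, (co f c x - co f c (add x (ind {i}))) * chi {i} x := by
        have e3 : ∑ x, co f c (add x (ind {i})) * chi {i} x = -hat (co f c) {i} := by
          unfold hat
          rw [← sum_neg_distrib]
          refine Finset.sum_bij' (fun x _ => add x (ind {i})) (fun x _ => add x (ind {i}))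
            (fun _ _ => mem_univ _) (fun _ _ => mem_univ _) (fun x _ => add_add_cancel x _)
            (fun x _ => add_add_cancel x _) (fun x _ => ?_)
          rw [chi_add, chi_single, if_pos (mem_singleton_self i)]
          ring
        simp only [sub_mul]
        rw [sum_sub_distrib, e3]
        unfold hat
        ring
      rw [hw]
      simp only
      rw [abs_div, abs_of_pos hVpos, e2]
      apply div_le_div_of_nonneg_right _ hVpos.le
      refine (abs_sum_le_sum_abs _ _).trans (sum_le_sum fun x _ => ?_)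
      rw [abs_mul]
      have : |chi {i} x| = 1 := by
        unfold chi sg
        rw [prod_singleton]
        split_ifs <;> simp
      rw [this, mul_one]
    refine (sum_le_sum fun c _ => e1 c).trans ?_
    rw [← sum_div, sum_comm]
    simp only [sum_co_abs]
    rw [div_le_iff₀ hVpos]
    have e2 : ∑ x, (hammingDist (f x) (f (add x (ind {i}))) : ℝ) ≤ ∑ _x : Fin k → Bool, (1 + ε) * r :=
      sum_le_sum fun x _ => hedge i x
    rw [sum_const, nsmul_eq_mul, hcardV] at e2
    linarith
  -- hash energy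
  have hlow : ∀ i, (p : ℝ) * ∑ c, w i c ^ 2 - ((d - 1 : ℕ) : ℝ) * ((1 + ε) * r) ^ 2
      ≤ ∑ a, ∑ b, (∑ c with h a c = b, w i c) ^ 2 := by
    intro i
    refine le_trans ?_ (hash_energy h hh (w i))
    have e1 : 0 ≤ ∑ c, |w i c| := sum_nonneg fun _ _ => abs_nonneg _
    have e2 : (∑ c, |w i c|) ^ 2 ≤ ((1 + ε) * r) ^ 2 := by
      have := hw1 i
      gcongr
    have e3 : (0 : ℝ) ≤ ((d - 1 : ℕ) : ℝ) := by positivity
    nlinarith
  -- window bound
  have hup : ∀ a b, ∑ i, (∑ c with h a c = b, w i c) ^ 2 ≤ L ^ 2 := by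
    intro a b
    obtain ⟨m, hm⟩ := hwin a b
    set G : (Fin k → Bool) → ℝ := fun x => (cnt (univ.filter fun c => h a c = b) (f x) : ℝ) with hG
    have e1 : ∀ i, ∑ c with h a c = b, w i c = 2 * hat G {i} / V := by
      intro i
      have e2 : hat G {i} = ∑ c with h a c = b, hat (co f c) {i} := by
        unfold hat
        rw [sum_comm]
        refine sum_congr rfl fun x _ => ?_
        rw [← sum_mul]
        congr 1
        rw [hG]
        simp only [cnt_eq]
        push_cast
        rfl
      rw [e2, hw, mul_sum, sum_div]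
    simp only [e1]
    have e3 := bessel G m (L / 2) hm
    have e4 : ∑ i, (2 * hat G {i} / V) ^ 2 = 4 / V ^ 2 * ∑ i, hat G {i} ^ 2 := by
      rw [mul_sum]
      refine sum_congr rfl fun i _ => by ring
    rw [e4, div_mul_eq_mul_div, div_le_iff₀ (by positivity)]
    nlinarith
  have htot : ∑ i, ∑ a, ∑ b, (∑ c with h a c = b, w i c) ^ 2 ≤ (p : ℝ) ^ 2 * L ^ 2 := by
    have e1 : ∑ i, ∑ a, ∑ b, (∑ c with h a c = b, w i c) ^ 2
        = ∑ a, ∑ b, ∑ i, (∑ c with h a c = b, w i c) ^ 2 := by
      rw [sum_comm]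
      refine sum_congr rfl fun a _ => ?_
      rw [sum_comm]
    rw [e1]
    have e2 : ∑ a : ZMod p, ∑ b : ZMod p, ∑ i, (∑ c with h a c = b, w i c) ^ 2
        ≤ ∑ _a : ZMod p, ∑ _b : ZMod p, L ^ 2 :=
      sum_le_sum fun a _ => sum_le_sum fun b _ => hup a b
    simp only [sum_const, nsmul_eq_mul, card_univ, ZMod.card] at e2
    refine e2.trans (le_of_eq (by ring))
  have hsum : ∑ i : Fin k, ((p : ℝ) * ∑ c, w i c ^ 2 - ((d - 1 : ℕ) : ℝ) * ((1 + ε) * r) ^ 2)
      ≤ (p : ℝ) ^ 2 * L ^ 2 := (sum_le_sum fun i _ => hlow i).trans htot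
  rw [sum_sub_distrib, ← mul_sum, sum_const, nsmul_eq_mul, card_univ, Fintype.card_fin] at hsum
  have hp0 : (0 : ℝ) ≤ p := by positivity
  have e5 := mul_le_mul_of_nonneg_left hw2 hp0
  calc (k : ℝ) * r * (p * (1 - ε / 2) - ((d - 1 : ℕ) : ℝ) * ((1 + ε) ^ 2 * r))
      = p * (k * r * (1 - ε / 2)) - k * (((d - 1 : ℕ) : ℝ) * ((1 + ε) * r) ^ 2) := by ring
    _ ≤ p * ∑ i, ∑ c, w i c ^ 2 - k * (((d - 1 : ℕ) : ℝ) * ((1 + ε) * r) ^ 2) := by linarith
    _ ≤ _ := hsum

/-- the dense set of small-scale obstructions -/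
lemma exists_dense {N p d L g : ℕ} [Fact p.Prime] (hN : N ≤ p ^ d) (hL : 0 < L) (hg : 0 < g)
    {δ : ℝ} (hδ : (p : ℝ) ^ 2 * g ≤ (1 - δ) * L) :
    ∃ D : Finset (Fin N → Bool), δ * 2 ^ N ≤ (D.card : ℝ) ∧
      ∀ (f : (Fin k → Bool) → (Fin N → Bool)) (r ε : ℝ),
        (∀ x y, r * (hammingDist x y : ℝ) ≤ hammingDist (f x) (f y) ∧
          (hammingDist (f x) (f y) : ℝ) ≤ (1 + ε) * r * hammingDist x y) →
        (∀ x, f x ∈ D) → (1 + ε) * r ≤ g →
        (k : ℝ) * r * (p * (1 - ε / 2) - ((d - 1 : ℕ) : ℝ) * ((1 + ε) ^ 2 * r))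
          ≤ p ^ 2 * L ^ 2 := by
  classical
  obtain ⟨h, hh⟩ := exists_hash p d N hN
  have hoff : ∀ a b, ∃ t : ℤ, (L : ℝ) * ((univ.filter fun x : Fin N → Bool =>
      (cnt (univ.filter fun c => h a c = b) x - t) % L < g).card : ℝ) ≤ g * 2 ^ N :=
    fun a b => exists_offset hL _
  choose t ht using hoff
  set bad : ZMod p → ZMod p → Finset (Fin N → Bool) := fun a b =>
    univ.filter fun x => (cnt (univ.filter fun c => h a c = b) x - t a b) % L < g with hbad
  set D : Finset (Fin N → Bool) := univ.filter fun x => ∀ a b, x ∉ bad a b with hD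
  have hLr : (0 : ℝ) < L := by exact_mod_cast hL
  refine ⟨D, ?_, ?_⟩
  · have h1 : (univ : Finset (Fin N → Bool)) ⊆ D ∪ (univ ×ˢ univ).biUnion fun ab => bad ab.1 ab.2 := by
      intro x _
      rw [mem_union]
      by_cases hx : x ∈ D
      · exact Or.inl hx
      · right
        rw [hD, mem_filter] at hx
        push Not at hx
        obtain ⟨a, b, hab⟩ := hx (mem_univ x)
        rw [mem_biUnion]
        exact ⟨(a, b), by simp, hab⟩
    have h2 := (card_le_card h1).trans (card_union_le _ _)
    have h3 : (((univ ×ˢ univ : Finset (ZMod p × ZMod p)).biUnion fun ab => bad ab.1 ab.2).card : ℝ)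
        ≤ (p : ℝ) ^ 2 * (g * 2 ^ N / L) := by
      have e1 : (((univ ×ˢ univ : Finset (ZMod p × ZMod p)).biUnion
          fun ab => bad ab.1 ab.2).card : ℝ)
          ≤ ∑ ab ∈ (univ ×ˢ univ : Finset (ZMod p × ZMod p)), ((bad ab.1 ab.2).card : ℝ) := by
        exact_mod_cast card_biUnion_le
      refine e1.trans ?_
      have e2 : ∀ ab ∈ (univ ×ˢ univ : Finset (ZMod p × ZMod p)),
          ((bad ab.1 ab.2).card : ℝ) ≤ g * 2 ^ N / L := by
        intro ab _
        rw [le_div_iff₀ hLr, mul_comm]
        exact ht ab.1 ab.2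
      refine (sum_le_sum e2).trans (le_of_eq ?_)
      rw [sum_const, card_product, card_univ, ZMod.card, nsmul_eq_mul]
      push_cast
      ring
    rw [card_univ, Fintype.card_fun, Fintype.card_bool, Fintype.card_fin] at h2
    have h4 : ((2 : ℝ) ^ N) ≤ D.card
        + (((univ ×ˢ univ : Finset (ZMod p × ZMod p)).biUnion fun ab => bad ab.1 ab.2).card : ℝ) := by
      exact_mod_cast h2
    have h5 : (p : ℝ) ^ 2 * (g * 2 ^ N / L) ≤ (1 - δ) * 2 ^ N := by
      rw [← mul_div_assoc, div_le_iff₀ hLr]
      have : (0 : ℝ) < 2 ^ N := by positivity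
      nlinarith
    linarith
  · intro f r ε hf hfD hrg
    refine obstruction h hh hf (L := L) fun a b => ?_
    set u : (Fin k → Bool) → ℤ := fun x =>
      cnt (univ.filter fun c => h a c = b) (f x) - t a b with hu
    have hL' : (0 : ℤ) < L := by exact_mod_cast hL
    have hout : ∀ x, ¬ u x % L < g := by
      intro x
      have := hfD x
      rw [hD, mem_filter] at this
      have h2 := this.2 a b
      rw [hbad] at h2
      simp only [mem_filter, mem_univ, true_and] at h2
      exact h2
    have hjump : ∀ x i, (hammingDist (f x) (f (add x (ind {i}))) : ℤ) ≤ g := by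
      intro x i
      have h1 := (hf x (add x (ind {i}))).2
      rw [dist_flip] at h1
      have h2 : (hammingDist (f x) (f (add x (ind {i}))) : ℝ) ≤ g := by
        refine h1.trans ?_
        simpa using hrg
      exact_mod_cast h2
    have hconst : ∀ x y, u x / L = u y / L := by
      refine const_of_flip (fun x => u x / L) fun x i => ?_
      refine same_slab hL' (hout _) (hout _) ?_ ?_ (by exact_mod_cast hg)
      · have h1 := cnt_diff (univ.filter fun c => h a c = b) (f (add x (ind {i}))) (f x)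
        have h2 := hjump x i
        rw [hammingDist_comm] at h2
        simp only [hu]
        linarith
      · have h1 := cnt_diff (univ.filter fun c => h a c = b) (f x) (f (add x (ind {i})))
        have h2 := hjump x i
        simp only [hu]
        linarith
    set q : ℤ := u (fun _ => false) / L with hq
    refine ⟨(t a b : ℝ) + L * q + L / 2, fun x => ?_⟩
    have hxq : u x / L = q := hconst x _
    have h1 := Int.emod_add_mul_ediv (u x) L
    have h2 := Int.emod_nonneg (u x) hL'.ne'
    have h3 := Int.emod_lt_of_pos (u x) hL'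
    rw [hxq] at h1
    have h4 : (L : ℝ) * q ≤ (u x : ℝ) := by
      have : (L : ℤ) * q ≤ u x := by linarith
      exact_mod_cast this
    have h5 : (u x : ℝ) ≤ L * q + L := by
      have : u x ≤ (L : ℤ) * q + L := by linarith
      exact_mod_cast this
    have h6 : (u x : ℝ) = (cnt (univ.filter fun c => h a c = b) (f x) : ℝ) - t a b := by
      rw [hu]; push_cast; rfl
    rw [abs_le]
    constructor <;> linarith

end Pool.Agent.R158.BiLip
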