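import Mathlib
import Pool.Agent.R158.Walsh

/-!
# Lower bounds for even Krawtchouk values
-/

open Finset Polynomial

namespace Pool.Agent.R158.Kraw

variable {ι : Type*} [DecidableEq ι]

/-- the generating polynomial of the elementary symmetric sums of signs -/
noncomputable def Q (F : Finset ι) (σ : ι → ℝ) : ℝ[X] := ∏ i ∈ F, (1 + C (σ i) * X)

/-- elementary symmetric sum -/
noncomputable def es (F : Finset ι) (σ : ι → ℝ) (s : ℕ) : ℝ :=
  ∑ B ∈ F.powersetCard s, ∏ i ∈ B, σ i

lemma coeff_Q (F : Finset ι) (σ : ι → ℝ) (s : ℕ) : (Q F σ).coeff s = es F σ s := by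
  unfold Q es
  rw [Finset.prod_one_add, finsetSum_coeff]
  have h1 : ∀ B : Finset ι, (∏ i ∈ B, (C (σ i) * X) : ℝ[X]) = C (∏ i ∈ B, σ i) * X ^ B.card := by
    intro B
    rw [prod_mul_distrib, prod_const, ← map_prod]
  simp only [h1, coeff_C_mul_X_pow]
  rw [← Finset.sum_filter]
  refine Finset.sum_congr ?_ fun _ _ => rfl
  ext B
  simp only [mem_filter, mem_powerset, mem_powersetCard, eq_comm]

lemma deriv_Q (F : Finset ι) (σ : ι → ℝ) (hσ : ∀ i ∈ F, σ i * σ i = 1) :
    (1 - X ^ 2) * derivative (Q F σ) = (C (∑ i ∈ F, σ i) - C (F.card : ℝ) * X) * Q F σ := by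
  induction F using Finset.induction_on with
  | empty => simp [Q]
  | insert a F ha ih =>
    have ih' := ih (fun i hi => hσ i (mem_insert_of_mem hi))
    have h1 : Q (insert a F) σ = (1 + C (σ a) * X) * Q F σ := by
      unfold Q; rw [prod_insert ha]
    rw [h1, sum_insert ha, card_insert_of_notMem ha]
    have h2 : derivative (1 + C (σ a) * X : ℝ[X]) = C (σ a) := by
      simp
    rw [derivative_mul, h2]
    have h3 : (C (σ a) * C (σ a) : ℝ[X]) = 1 := by
      rw [← C_mul, hσ a (mem_insert_self a F), C_1]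
    push_cast
    rw [C_add, C_add, C_1]
    linear_combination (1 + C (σ a) * X) * ih' + (-(X : ℝ[X]) * Q F σ) * h3

lemma rec_es (F : Finset ι) (σ : ι → ℝ) (hσ : ∀ i ∈ F, σ i * σ i = 1) (s : ℕ) :
    ((s : ℝ) + 2) * es F σ (s + 2)
      = (∑ i ∈ F, σ i) * es F σ (s + 1) - ((F.card : ℝ) - s) * es F σ s := by
  have h := congrArg (fun q => coeff q (s + 1)) (deriv_Q F σ hσ)
  have e1 : ((1 - X ^ 2) * derivative (Q F σ)).coeff (s + 1)
      = (derivative (Q F σ)).coeff (s + 1) - (X ^ 2 * derivative (Q F σ)).coeff (s + 1) := by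
    rw [sub_mul, one_mul, coeff_sub]
  have e2 : (X ^ 2 * derivative (Q F σ)).coeff (s + 1) = (s : ℝ) * es F σ s := by
    cases s with
    | zero =>
      rw [coeff_X_pow_mul']
      simp
    | succ s =>
      rw [show s + 1 + 1 = s + 2 from rfl, coeff_X_pow_mul, coeff_derivative, coeff_Q]
      push_cast; ring
  have e3 : ((C (∑ i ∈ F, σ i) - C (F.card : ℝ) * X) * Q F σ).coeff (s + 1)
      = (∑ i ∈ F, σ i) * es F σ (s + 1) - (F.card : ℝ) * es F σ s := by
    rw [sub_mul, coeff_sub, coeff_C_mul, mul_assoc, coeff_C_mul, coeff_X_mul, coeff_Q, coeff_Q]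
  rw [e1, e2, e3, coeff_derivative, coeff_Q] at h
  push_cast at h
  rw [show s + 1 + 1 = s + 2 from rfl] at h
  linarith

lemma es_zero (F : Finset ι) (σ : ι → ℝ) : es F σ 0 = 1 := by
  simp [es]

lemma es_one (F : Finset ι) (σ : ι → ℝ) : es F σ 1 = ∑ i ∈ F, σ i := by
  unfold es
  rw [Finset.powersetCard_one, Finset.sum_map]
  simp

/-- the three term recurrence forces the lower bound -/
lemma seq_bound {n r : ℕ} (hr : Even r) (hr0 : 0 < r) (hn : 36 * r ≤ n) {p : ℝ}
    {l : ℕ → ℝ} (h0 : l 0 = 1) (h1 : (n : ℝ) * l 1 = p)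
    (hrec : ∀ s, s + 2 ≤ r → ((n : ℝ) - (s + 1)) * l (s + 2) = p * l (s + 1) - (s + 1) * l s) :
    -(1 / 2 : ℝ) ^ r ≤ l r := by
  -- reduce to nonnegative `p`
  wlog hp : 0 ≤ p generalizing p l with H
  · push Not at hp
    have h2 := H (p := -p) (l := fun s => (-1) ^ s * l s) (by simp [h0])
      (by simp; linarith) (fun s hs => by
        have := hrec s hs
        simp only [pow_succ]
        linear_combination ((-1 : ℝ) ^ s) * this) (by linarith)
    simpa [hr.neg_one_pow] using h2
  have hnr : 36 * (r : ℝ) ≤ n := by exact_mod_cast hn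
  have hr1 : (1 : ℝ) ≤ r := by exact_mod_cast hr0
  have hnpos : (0 : ℝ) < n := by linarith
  by_cases hcase : 4 * (n : ℝ) * r ≤ p ^ 2
  · -- large `p`: positivity
    have hppos : 0 < p := by
      rcases hp.eq_or_lt with h | h
      · rw [← h] at hcase; nlinarith
      · exact h
    have key : ∀ s, s + 1 ≤ r → 0 ≤ l s ∧ p * l s ≤ 2 * n * l (s + 1) := by
      intro s
      induction s with
      | zero =>
        intro _
        rw [h0]
        refine ⟨zero_le_one, ?_⟩
        rw [zero_add]
        nlinarith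
      | succ s ih =>
        intro hs
        obtain ⟨ih1, ih2⟩ := ih (by omega)
        have hls : 0 ≤ l (s + 1) := by
          have : 0 ≤ 2 * (n : ℝ) * l (s + 1) := le_trans (by positivity) ih2
          by_contra hcon
          push Not at hcon
          nlinarith
        refine ⟨hls, ?_⟩
        have hR := hrec s (by omega)
        have hsr : ((s : ℝ) + 1) ≤ r := by exact_mod_cast (by omega : s + 1 ≤ r)
        -- p * ((s+1) l s) ≤ 2 n (s+1) l (s+1) ≤ p^2/2 l(s+1)
        have e1 : p * ((s + 1) * l s) ≤ p ^ 2 / 2 * l (s + 1) := by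
          have : p * ((s + 1) * l s) ≤ (s + 1) * (2 * n * l (s + 1)) := by nlinarith
          have e2 : (s + 1) * (2 * n * l (s + 1)) ≤ p ^ 2 / 2 * l (s + 1) := by
            have : (s + 1) * (2 * n) ≤ p ^ 2 / 2 := by nlinarith
            nlinarith
          linarith
        have e3 : p / 2 * l (s + 1) ≤ ((n : ℝ) - (s + 1)) * l (s + 2) := by
          rw [hR]
          have : (s + 1) * l s ≤ p / 2 * l (s + 1) := by
            have h' : p * ((s + 1) * l s) ≤ p * (p / 2 * l (s + 1)) := by nlinarith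
            exact le_of_mul_le_mul_left h' hppos
          linarith
        have e4 : 0 ≤ l (s + 2) := by
          by_contra hcon
          push Not at hcon
          have : (0 : ℝ) < (n : ℝ) - (s + 1) := by linarith
          have h5 : 0 ≤ p / 2 * l (s + 1) := by positivity
          nlinarith
        have e5 : ((n : ℝ) - (s + 1)) * l (s + 2) ≤ n * l (s + 2) := by
          have : (0 : ℝ) ≤ (s : ℝ) + 1 := by positivity
          nlinarith
        have : s + 1 + 1 = s + 2 := rfl
        rw [this]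
        linarith
    have hlr : 0 ≤ l r := by
      obtain ⟨s, rfl⟩ : ∃ s, r = s + 1 := ⟨r - 1, by omega⟩
      obtain ⟨k1, k2⟩ := key s le_rfl
      have : 0 ≤ 2 * (n : ℝ) * l (s + 1) := le_trans (by positivity) k2
      by_contra hcon
      push Not at hcon
      nlinarith
    have : (0 : ℝ) ≤ (1 / 2 : ℝ) ^ r := by positivity
    linarith
  · -- small `p`: geometric decay
    push Not at hcase
    have hp3 : 3 * p ≤ n := by
      by_contra hcon
      push Not at hcon
      nlinarith
    have key : ∀ s, s + 1 ≤ r → |l s| ≤ (1 / 2 : ℝ) ^ s ∧ |l (s + 1)| ≤ (1 / 2 : ℝ) ^ (s + 1) := by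
      intro s
      induction s with
      | zero =>
        intro _
        rw [h0]
        refine ⟨by simp, ?_⟩
        have hl1 : 0 ≤ l 1 := by
          by_contra hcon
          push Not at hcon
          nlinarith
        rw [zero_add, abs_of_nonneg hl1]
        by_contra hcon
        push Not at hcon
        norm_num at hcon
        nlinarith
      | succ s ih =>
        intro hs
        obtain ⟨ih1, ih2⟩ := ih (by omega)
        refine ⟨ih2, ?_⟩
        have hR := hrec s (by omega)
        have hsr : ((s : ℝ) + 1) ≤ r := by exact_mod_cast (by omega : s + 1 ≤ r)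
        have hden : (0 : ℝ) < (n : ℝ) - (s + 1) := by linarith
        have e1 : ((n : ℝ) - (s + 1)) * |l (s + 2)| ≤ p * |l (s + 1)| + (s + 1) * |l s| := by
          have : |((n : ℝ) - (s + 1)) * l (s + 2)| = |p * l (s + 1) - (s + 1) * l s| := by rw [hR]
          rw [abs_mul, abs_of_pos hden] at this
          rw [this]
          refine (abs_sub _ _).trans ?_
          rw [abs_mul, abs_mul, abs_of_nonneg hp, abs_of_nonneg (by positivity : (0 : ℝ) ≤ (s : ℝ) + 1)]
        have e2 : p * |l (s + 1)| + (s + 1) * |l s|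
            ≤ p * (1 / 2 : ℝ) ^ (s + 1) + (s + 1) * (1 / 2 : ℝ) ^ s := by
          have : (0 : ℝ) ≤ (s : ℝ) + 1 := by positivity
          gcongr
        have hpos : (0 : ℝ) < (1 / 2 : ℝ) ^ s := by positivity
        have e3 : p * (1 / 2 : ℝ) ^ (s + 1) + (s + 1) * (1 / 2 : ℝ) ^ s
            ≤ ((n : ℝ) - (s + 1)) * (1 / 2 : ℝ) ^ (s + 2) := by
          have e4 : p / 2 + (s + 1) ≤ ((n : ℝ) - (s + 1)) / 4 := by linarith
          calc p * (1 / 2 : ℝ) ^ (s + 1) + (s + 1) * (1 / 2 : ℝ) ^ s
              = (p / 2 + (s + 1)) * (1 / 2 : ℝ) ^ s := by rw [pow_succ]; ring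
            _ ≤ (((n : ℝ) - (s + 1)) / 4) * (1 / 2 : ℝ) ^ s := by gcongr
            _ = _ := by rw [pow_succ, pow_succ]; ring
        exact le_of_mul_le_mul_left (e1.trans (e2.trans e3)) hden
    obtain ⟨s, rfl⟩ : ∃ s, r = s + 1 := ⟨r - 1, by omega⟩
    exact (abs_le.1 (key s le_rfl).2).1

lemma kraw_lower (F : Finset ι) (σ : ι → ℝ) (hσ : ∀ i ∈ F, σ i * σ i = 1) {r : ℕ} (hr : Even r)
    (hr0 : 0 < r) (hn : 36 * r ≤ F.card) :
    -(1 / 2 : ℝ) ^ r * (F.card.choose r) ≤ es F σ r := by
  set n := F.card with hn'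
  have hchoose : ∀ s, s ≤ r → (0 : ℝ) < (n.choose s : ℝ) := by
    intro s hs
    exact_mod_cast Nat.choose_pos (by omega)
  have hstep : ∀ s, s + 1 ≤ r → ((n.choose (s + 1) : ℕ) : ℝ) * ((s : ℝ) + 1)
      = (n.choose s : ℝ) * ((n : ℝ) - s) := by
    intro s hs
    have h := Nat.choose_succ_right_eq n s
    have h2 : ((n - s : ℕ) : ℝ) = (n : ℝ) - s := by
      rw [Nat.cast_sub (by omega)]
    rw [← h2]
    exact_mod_cast h
  have h := seq_bound (n := n) hr hr0 hn (p := ∑ i ∈ F, σ i)
    (l := fun s => es F σ s / (n.choose s : ℝ)) (by simp [es_zero]) (by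
      rw [es_one, Nat.choose_one_right]
      have : (n : ℝ) ≠ 0 := by
        have : 0 < n := by omega
        positivity
      field_simp) (by
      intro s hs
      have h1 := rec_es F σ hσ s
      have c0 := hchoose s (by omega)
      have c1 := hchoose (s + 1) (by omega)
      have c2 := hchoose (s + 2) (by omega)
      have s1 := hstep s (by omega)
      have s2 := hstep (s + 1) (by omega)
      push_cast at s2
      rw [show s + 1 + 1 = s + 2 from rfl] at s2
      have e1 : ((n : ℝ) - (s + 1)) * (es F σ (s + 2) / (n.choose (s + 2) : ℝ))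
          = ((s : ℝ) + 2) * es F σ (s + 2) / (n.choose (s + 1) : ℝ) := by
        rw [eq_div_iff c1.ne', mul_assoc, div_mul_eq_mul_div, mul_div_assoc', div_eq_iff c2.ne']
        linear_combination (-(es F σ (s + 2))) * s2
      have e2 : ((s : ℝ) + 1) * (es F σ s / (n.choose s : ℝ))
          = ((n : ℝ) - s) * es F σ s / (n.choose (s + 1) : ℝ) := by
        rw [eq_div_iff c1.ne', mul_assoc, div_mul_eq_mul_div, mul_div_assoc', div_eq_iff c0.ne']
        linear_combination (es F σ s) * s1
      rw [e1, e2, h1]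
      ring)
  rw [le_div_iff₀ (hchoose r le_rfl)] at h
  exact h

end Pool.Agent.R158.Kraw
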