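import Mathlib
import Pool.Agent.R158.Kraw

/-!
# Undistorted cubes in dense sets
-/

open Finset

namespace Pool.Agent.R158.CubeEmb

open Walsh Kraw

variable {ι : Type*} [Fintype ι] [DecidableEq ι]

lemma chi_ind (S B : Finset ι) :
    chi S (ind B) = ∏ i ∈ B, (if i ∈ S then (-1 : ℝ) else 1) := by
  unfold chi ind sg
  have h1 : ∏ i ∈ S, (if decide (i ∈ B) = true then (-1 : ℝ) else 1)
      = ∏ i ∈ S ∩ B, (-1 : ℝ) := by
    rw [← Finset.prod_filter_mul_prod_filter_not S (fun i => i ∈ B)]
    have e1 : ∏ i ∈ S with i ∈ B, (if decide (i ∈ B) = true then (-1 : ℝ) else 1)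
        = ∏ i ∈ S ∩ B, (-1 : ℝ) := by
      rw [← Finset.filter_mem_eq_inter]
      refine prod_congr rfl fun i hi => ?_
      rw [mem_filter] at hi
      simp [hi.2]
    have e2 : ∏ i ∈ S with ¬ i ∈ B, (if decide (i ∈ B) = true then (-1 : ℝ) else 1) = 1 := by
      refine prod_eq_one fun i hi => ?_
      rw [mem_filter] at hi
      simp [hi.2]
    rw [e1, e2, mul_one]
  have h2 : ∏ i ∈ B, (if i ∈ S then (-1 : ℝ) else 1) = ∏ i ∈ B ∩ S, (-1 : ℝ) := by
    rw [← Finset.prod_filter_mul_prod_filter_not B (fun i => i ∈ S)]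
    have e1 : ∏ i ∈ B with i ∈ S, (if i ∈ S then (-1 : ℝ) else 1) = ∏ i ∈ B ∩ S, (-1 : ℝ) := by
      rw [← Finset.filter_mem_eq_inter]
      refine prod_congr rfl fun i hi => ?_
      rw [mem_filter] at hi
      simp [hi.2]
    have e2 : ∏ i ∈ B with ¬ i ∈ S, (if i ∈ S then (-1 : ℝ) else 1) = 1 := by
      refine prod_eq_one fun i hi => ?_
      rw [mem_filter] at hi
      simp [hi.2]
    rw [e1, e2, mul_one]
  rw [h1, h2, inter_comm]

/-- One step: a dense set meets one of its translates by an `r`-subset of `F` in a dense set. -/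
lemma step {r : ℕ} (hr : Even r) (hr0 : 0 < r) (F : Finset ι) (hF : 36 * r ≤ F.card)
    (D : Finset (ι → Bool)) {δ : ℝ} (hδ : 2 * (1 / 2 : ℝ) ^ r ≤ δ)
    (hD : δ * 2 ^ Fintype.card ι ≤ D.card) :
    ∃ B ⊆ F, B.card = r ∧
      δ ^ 2 / 2 * 2 ^ Fintype.card ι ≤ ((D.filter fun x => add x (ind B) ∈ D).card : ℝ) := by
  classical
  set V : ℝ := (2 : ℝ) ^ Fintype.card ι with hV
  have hVpos : 0 < V := by positivity
  set f : (ι → Bool) → ℝ := fun x => if x ∈ D then 1 else 0 with hf
  have hcard : ∀ B : Finset ι, ∑ x, f x * f (add x (ind B))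
      = ((D.filter fun x => add x (ind B) ∈ D).card : ℝ) := by
    intro B
    rw [Finset.card_filter]
    push_cast
    rw [← Finset.sum_filter_add_sum_filter_not univ (fun x => x ∈ D)]
    have e1 : ∑ x with ¬ x ∈ D, f x * f (add x (ind B)) = 0 := by
      refine sum_eq_zero fun x hx => ?_
      rw [mem_filter] at hx
      simp [hf, hx.2]
    rw [e1, add_zero]
    have e2 : (univ.filter fun x => x ∈ D) = D := by ext; simp
    rw [e2]
    refine sum_congr rfl fun x hx => ?_
    simp [hf, hx]
  by_contra hcon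
  push Not at hcon
  have hC : (0 : ℝ) < (F.card.choose r : ℝ) := by
    exact_mod_cast Nat.choose_pos (by omega)
  have hd : (0 : ℝ) < δ := lt_of_lt_of_le (by positivity) hδ
  -- upper bound for the double sum
  have hup : ∑ B ∈ F.powersetCard r, ∑ x, f x * f (add x (ind B))
      < (F.card.choose r : ℝ) * (δ ^ 2 / 2 * V) := by
    have h1 : ∑ B ∈ F.powersetCard r, ∑ x, f x * f (add x (ind B))
        < ∑ B ∈ F.powersetCard r, δ ^ 2 / 2 * V := by
      refine sum_lt_sum_of_nonempty ?_ fun B hB => ?_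
      · rw [Finset.powersetCard_nonempty]; omega
      · rw [mem_powersetCard] at hB
        rw [hcard]
        exact hcon B hB.1 hB.2
    rw [sum_const, card_powersetCard, nsmul_eq_mul] at h1
    exact h1
  -- lower bound
  have hf0 : hat f ∅ = D.card := by
    unfold hat
    simp [chi_empty, hf]
  have hf2 : ∑ x, f x ^ 2 = D.card := by
    simp [hf]
  have hsum : V * ∑ B ∈ F.powersetCard r, ∑ x, f x * f (add x (ind B))
      = ∑ S, hat f S ^ 2 * ∑ B ∈ F.powersetCard r, chi S (ind B) := by
    rw [mul_sum]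
    have : ∀ B ∈ F.powersetCard r, V * ∑ x, f x * f (add x (ind B))
        = ∑ S, hat f S ^ 2 * chi S (ind B) := by
      intro B _
      rw [← corr]
      refine sum_congr rfl fun S _ => by ring
    rw [sum_congr rfl this, sum_comm]
    refine sum_congr rfl fun S _ => by rw [mul_sum]
  have hkraw : ∀ S : Finset ι, -(1 / 2 : ℝ) ^ r * (F.card.choose r)
      ≤ ∑ B ∈ F.powersetCard r, chi S (ind B) := by
    intro S
    have := kraw_lower F (fun i => if i ∈ S then (-1 : ℝ) else 1) (by
      intro i _; split_ifs <;> norm_num) hr hr0 hF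
    unfold es at this
    refine this.trans (le_of_eq ?_)
    exact sum_congr rfl fun B _ => (chi_ind S B).symm
  have hempty : ∑ B ∈ F.powersetCard r, chi (∅ : Finset ι) (ind B) = F.card.choose r := by
    simp [chi_empty]
  have hlow : (F.card.choose r : ℝ) * ((D.card : ℝ) ^ 2 - (1 / 2 : ℝ) ^ r * (V * D.card))
      ≤ V * ∑ B ∈ F.powersetCard r, ∑ x, f x * f (add x (ind B)) := by
    rw [hsum]
    rw [← Finset.add_sum_erase _ _ (mem_univ (∅ : Finset ι)), hempty, hf0]
    have h1 : ∑ S ∈ univ.erase (∅ : Finset ι), hat f S ^ 2 * (-(1 / 2 : ℝ) ^ r * (F.card.choose r))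
        ≤ ∑ S ∈ univ.erase (∅ : Finset ι), hat f S ^ 2 * ∑ B ∈ F.powersetCard r, chi S (ind B) := by
      refine sum_le_sum fun S _ => ?_
      exact mul_le_mul_of_nonneg_left (hkraw S) (sq_nonneg _)
    have h2 : ∑ S ∈ univ.erase (∅ : Finset ι), hat f S ^ 2 ≤ V * D.card := by
      rw [← hf2, ← hat_sq_sum]
      exact sum_le_sum_of_subset_of_nonneg (erase_subset _ _) fun _ _ _ => sq_nonneg _
    rw [← sum_mul] at h1
    have h3 : (0 : ℝ) ≤ (1 / 2 : ℝ) ^ r * (F.card.choose r) := by positivity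
    nlinarith
  have hDV : (D.card : ℝ) ≤ V := by
    have : D.card ≤ Fintype.card (ι → Bool) := Finset.card_le_univ D
    rw [Fintype.card_fun, Fintype.card_bool] at this
    rw [hV]; exact_mod_cast this
  -- contradiction
  have h1 : (D.card : ℝ) ^ 2 - (1 / 2 : ℝ) ^ r * (V * D.card) < V * (δ ^ 2 / 2 * V) := by
    have := lt_of_le_of_lt hlow (mul_lt_mul_of_pos_left hup hVpos)
    have h' : (F.card.choose r : ℝ) * ((D.card : ℝ) ^ 2 - (1 / 2 : ℝ) ^ r * (V * D.card))
        < (F.card.choose r : ℝ) * (V * (δ ^ 2 / 2 * V)) := by linarith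
    exact lt_of_mul_lt_mul_left h' hC.le
  have h2 : (1 / 2 : ℝ) ^ r ≤ δ / 2 := by linarith
  have h3 : (1 / 2 : ℝ) ^ r * (V * D.card) ≤ δ / 2 * (V * D.card) := by
    have : (0 : ℝ) ≤ V * D.card := by positivity
    gcongr
  have h4 : (D.card : ℝ) * (δ * V) ≤ (D.card : ℝ) * D.card := by gcongr
  have h5 : δ * V * (δ * V) ≤ D.card * (δ * V) := by
    have : 0 ≤ δ * V := by positivity
    gcongr
  nlinarith

/-- point of the cube with base point `a` and blocks `B` -/
def pt {k : ℕ} (a : ι → Bool) (B : Fin k → Finset ι) (x : Fin k → Bool) : ι → Bool :=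
  fun i => xor (a i) (decide (∃ j, x j = true ∧ i ∈ B j))

/-- Iteration -/
lemma iterate {r : ℕ} (hr : Even r) (hr0 : 0 < r) (k : ℕ) :
    ∀ (F : Finset ι) (_ : (36 + k) * r ≤ F.card) (D : Finset (ι → Bool)) (δ : ℝ)
      (_ : 0 < δ) (_ : δ ≤ 2) (_ : (1 / 2 : ℝ) ^ r ≤ (δ / 2) ^ (2 ^ k))
      (_ : δ * 2 ^ Fintype.card ι ≤ D.card),
      ∃ (a : ι → Bool) (B : Fin k → Finset ι), (∀ j, B j ⊆ F) ∧ (∀ j, (B j).card = r) ∧
        (∀ i j, i ≠ j → Disjoint (B i) (B j)) ∧ ∀ x, pt a B x ∈ D := by
  induction k with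
  | zero =>
    intro F _ D δ hδ0 _ _ hD
    have hpos : 0 < D.card := by
      have : (0 : ℝ) < D.card := lt_of_lt_of_le (by positivity) hD
      exact_mod_cast this
    obtain ⟨a, ha⟩ := Finset.card_pos.1 hpos
    refine ⟨a, Fin.elim0, fun j => j.elim0, fun j => j.elim0, fun i => i.elim0, fun x => ?_⟩
    have : pt a (Fin.elim0 : Fin 0 → Finset ι) x = a := by
      ext i
      simp [pt]
    rwa [this]
  | succ k ih =>
    intro F hF D δ hδ0 hδ2 hδr hD
    have hd1 : δ / 2 ≤ 1 := by linarith
    have hd0 : 0 ≤ δ / 2 := by positivity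
    have hstep : 2 * (1 / 2 : ℝ) ^ r ≤ δ := by
      have h1 : (δ / 2) ^ (2 ^ (k + 1)) ≤ (δ / 2) ^ 1 :=
        pow_le_pow_of_le_one hd0 hd1 (Nat.one_le_two_pow)
      rw [pow_one] at h1
      linarith
    have hFc : (36 + (k + 1)) * r = 36 * r + (k + 1) * r := by ring
    obtain ⟨B₀, hB₀F, hB₀r, hB₀D⟩ := step hr hr0 F (by nlinarith) D hstep hD
    set D' := D.filter fun x => add x (ind B₀) ∈ D with hD'
    obtain ⟨a, B, hBF, hBr, hBdisj, hpt⟩ := ih (F \ B₀) (by
        rw [Finset.card_sdiff_of_subset hB₀F, hB₀r]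
        have : (36 + (k + 1)) * r = (36 + k) * r + r := by ring
        omega) D' (δ ^ 2 / 2) (by positivity) (by nlinarith) (by
        have : (δ ^ 2 / 2 / 2) = (δ / 2) ^ 2 := by ring
        rw [this, ← pow_mul, ← pow_succ']
        exact hδr) hB₀D
    refine ⟨a, Fin.cons B₀ B, ?_, ?_, ?_, ?_⟩
    · intro j
      refine Fin.cases ?_ ?_ j
      · simpa using hB₀F
      · intro j
        simp only [Fin.cons_succ]
        exact (hBF j).trans sdiff_subset
    · intro j
      refine Fin.cases ?_ ?_ j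
      · simpa using hB₀r
      · intro j
        simpa using hBr j
    · have hdis : ∀ j, Disjoint B₀ (B j) := fun j =>
        (Finset.disjoint_sdiff).mono_right (hBF j)
      intro i j
      refine Fin.cases ?_ ?_ i
      · refine Fin.cases ?_ ?_ j
        · intro h; exact absurd rfl h
        · intro j _
          simpa using hdis j
      · intro i
        refine Fin.cases ?_ ?_ j
        · intro _
          simpa using (hdis i).symm
        · intro j hij
          simp only [Fin.cons_succ]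
          exact hBdisj i j (fun h => hij (by rw [h]))
    · intro x
      have hx := hpt (fun j => x j.succ)
      rw [hD', mem_filter] at hx
      have hnot : ∀ i ∈ B₀, ∀ j, i ∉ B j := by
        intro i hi j hij
        have := hBF j hij
        rw [mem_sdiff] at this
        exact this.2 hi
      by_cases h0 : x 0 = true
      · have : pt a (Fin.cons B₀ B) x = add (pt a B (fun j => x j.succ)) (ind B₀) := by
          ext i
          simp only [pt, Walsh.add_apply, ind]
          have e : (∃ j : Fin (k + 1), x j = true ∧ i ∈ (Fin.cons B₀ B : Fin (k + 1) → Finset ι) j)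
              ↔ (i ∈ B₀ ∨ ∃ j : Fin k, x j.succ = true ∧ i ∈ B j) := by
            rw [Fin.exists_fin_succ]
            simp [h0]
          by_cases hi : i ∈ B₀
          · have h2 : ¬ ∃ j : Fin k, x j.succ = true ∧ i ∈ B j := by
              rintro ⟨j, _, hj⟩
              exact hnot i hi j hj
            simp [e, hi, h2]
          · simp [e, hi]
        rw [this]
        exact hx.2
      · have : pt a (Fin.cons B₀ B) x = pt a B (fun j => x j.succ) := by
          ext i
          simp only [pt]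
          have e : (∃ j : Fin (k + 1), x j = true ∧ i ∈ (Fin.cons B₀ B : Fin (k + 1) → Finset ι) j)
              ↔ (∃ j : Fin k, x j.succ = true ∧ i ∈ B j) := by
            rw [Fin.exists_fin_succ]
            simp [h0]
          simp [e]
        rw [this]
        exact hx.1

end Pool.Agent.R158.CubeEmb
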