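import Mathlib

set_option autoImplicit false

/-!
Basic counting facts for finite projective planes.
-/

namespace Pool.Agent.R158.Plane

open Configuration Configuration.ProjectivePlane Finset
open scoped Classical LinearAlgebra.Projectivization

section
variable {P L : Type*} [Membership P L] [ProjectivePlane P L] [Fintype P] [Fintype L]

lemma card_line (l : L) : (univ.filter (fun x : P => x ∈ l)).card = order P L + 1 := by
  rw [← pointCount_eq P l, pointCount, Nat.card_eq_fintype_card, Fintype.card_subtype]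

lemma card_point (x : P) : (univ.filter (fun l : L => x ∈ l)).card = order P L + 1 := by
  rw [← lineCount_eq L x, lineCount, Nat.card_eq_fintype_card, Fintype.card_subtype]

omit [Fintype P] in
lemma card_two {x y : P} (h : x ≠ y) :
    (univ.filter (fun l : L => x ∈ l ∧ y ∈ l)).card = 1 := by
  rw [Finset.card_eq_one]
  obtain ⟨l, hl, hu⟩ := HasLines.existsUnique_line P L x y h
  refine ⟨l, ?_⟩
  ext m
  simp only [mem_filter, mem_univ, true_and, mem_singleton]
  constructor
  · intro hm; exact hu m hm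
  · rintro rfl; exact hl

/-- The sum of the squares of the line sums of a real function. -/
lemma sum_sq (f : P → ℝ) :
    ∑ l : L, (∑ x with x ∈ l, f x) ^ 2 = (order P L : ℝ) * ∑ x, f x ^ 2 + (∑ x, f x) ^ 2 := by
  have h1 : ∀ l : L, (∑ x with x ∈ l, f x) ^ 2 =
      ∑ x : P, ∑ y : P, if (x ∈ l ∧ y ∈ l) then f x * f y else 0 := by
    intro l
    rw [sq, Finset.sum_mul_sum, Finset.sum_filter]
    apply Finset.sum_congr rfl
    intro x _
    split_ifs with hx
    · rw [Finset.sum_filter]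
      apply Finset.sum_congr rfl
      intro y _
      by_cases hy : y ∈ l <;> simp [hx, hy]
    · simp [hx]
  simp_rw [h1]
  rw [Finset.sum_comm]
  have h2 : ∀ x : P, ∑ l : L, ∑ y : P, (if (x ∈ l ∧ y ∈ l) then f x * f y else 0) =
      (order P L : ℝ) * f x ^ 2 + f x * ∑ y, f y := by
    intro x
    rw [Finset.sum_comm]
    have h3 : ∀ y : P, ∑ l : L, (if (x ∈ l ∧ y ∈ l) then f x * f y else 0) =
        f x * f y + if y = x then (order P L : ℝ) * f x ^ 2 else 0 := by
      intro y
      rw [← Finset.sum_filter, Finset.sum_const, nsmul_eq_mul]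
      split_ifs with hxy
      · subst hxy
        simp only [and_self]
        rw [card_point y]
        push_cast; ring
      · rw [card_two (Ne.symm hxy)]
        push_cast; ring
    simp_rw [h3]
    rw [Finset.sum_add_distrib, Finset.sum_ite_eq' univ x, ← Finset.mul_sum]
    simp only [mem_univ, if_true]
    ring
  simp_rw [h2]
  rw [Finset.sum_add_distrib, ← Finset.mul_sum, ← Finset.sum_mul]
  ring

/-- The sum of the line sums. -/
lemma sum_lin (f : P → ℝ) :
    ∑ l : L, (∑ x with x ∈ l, f x) = ((order P L : ℝ) + 1) * ∑ x, f x := by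
  simp_rw [Finset.sum_filter]
  rw [Finset.sum_comm]
  have h3 : ∀ x : P, ∑ l : L, (if x ∈ l then f x else 0) = ((order P L : ℝ) + 1) * f x := by
    intro x
    rw [← Finset.sum_filter, Finset.sum_const, nsmul_eq_mul, card_point x]
    push_cast; ring
  simp_rw [h3]
  rw [← Finset.mul_sum]

end

/-- The order of `PG(2, K)`. -/
lemma order_pg (K : Type*) [Field K] [Finite K] [DecidableEq K] :
    order (ℙ K (Fin 3 → K)) (ℙ K (Fin 3 → K)) = Nat.card K := by
  have := Fintype.ofFinite (ℙ K (Fin 3 → K))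
  have h1 := card_points (ℙ K (Fin 3 → K)) (ℙ K (Fin 3 → K))
  have h2 := Projectivization.card_of_finrank K (Fin 3 → K) (n := 3) (by simp)
  rw [Nat.card_eq_fintype_card, h1] at h2
  simp only [Finset.sum_range_succ, Finset.sum_range_zero] at h2
  set a := order (ℙ K (Fin 3 → K)) (ℙ K (Fin 3 → K))
  set b := Nat.card K
  have h3 : a * a + a = b * b + b := by nlinarith
  rcases lt_trichotomy a b with h | h | h
  · nlinarith
  · exact h
  · nlinarith

lemma pair_sum {ι : Type*} [Fintype ι] (x : ι → ℝ) :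
    ∑ i, ∑ j, (x i - x j) ^ 2 = 2 * (Fintype.card ι : ℝ) * ∑ i, x i ^ 2 - 2 * (∑ i, x i) ^ 2 := by
  have h : ∀ i, ∑ j, (x i - x j) ^ 2 =
      (Fintype.card ι : ℝ) * x i ^ 2 - 2 * x i * ∑ j, x j + ∑ j, x j ^ 2 := by
    intro i
    have : ∀ j, (x i - x j) ^ 2 = x i ^ 2 - 2 * x i * x j + x j ^ 2 := fun j => by ring
    simp_rw [this]
    rw [Finset.sum_add_distrib, Finset.sum_sub_distrib, ← Finset.mul_sum, Finset.sum_const,
      nsmul_eq_mul, Finset.card_univ]
  simp_rw [h]
  rw [Finset.sum_add_distrib, Finset.sum_sub_distrib, ← Finset.mul_sum, ← Finset.sum_mul,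
    ← Finset.mul_sum, Finset.sum_const, nsmul_eq_mul, Finset.card_univ]
  ring

/-- For an injective integer valued function on a finite set with `N` elements, the sum of the
squares of the deviations from any real number is at least `(N ^ 3 - N) / 12`. -/
lemma variance_bound {α : Type*} [Fintype α] (S : α → ℤ) (hS : Function.Injective S) (c : ℝ) :
    ((Fintype.card α : ℝ) ^ 3 - Fintype.card α) / 12 ≤ ∑ a, ((S a : ℝ) - c) ^ 2 := by
  set T : Finset ℤ := univ.image S with hT
  set N := Fintype.card α with hN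
  have hcard : T.card = N := by
    rw [hT, Finset.card_image_of_injective _ hS, Finset.card_univ]
  set e := T.orderEmbOfFin hcard with he
  have hmono : StrictMono e := e.strictMono
  have hstep : ∀ i j : Fin N, i ≤ j → ((j : ℕ) : ℤ) - (i : ℕ) ≤ e j - e i := by
    intro i j hij
    obtain ⟨i, hi⟩ := i
    obtain ⟨j, hj⟩ := j
    rw [Fin.mk_le_mk] at hij
    obtain ⟨k, rfl⟩ := Nat.exists_eq_add_of_le hij
    clear hij
    induction k with
    | zero => simp
    | succ k ih =>
      have h1 := ih (by omega)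
      have h2 : e ⟨i + k, by omega⟩ < e ⟨i + (k + 1), hj⟩ := hmono (by
        rw [Fin.mk_lt_mk]; omega)
      push_cast at h1 ⊢
      omega
  have hsq : ∀ i j : Fin N, ((i : ℕ) - (j : ℕ) : ℝ) ^ 2 ≤ ((e i : ℝ) - (e j : ℝ)) ^ 2 := by
    intro i j
    rcases le_total i j with h | h
    · have h1 : (((j : ℕ) : ℤ) - (i : ℕ) : ℝ) ≤ (e j : ℝ) - e i := by exact_mod_cast hstep i j h
      have h2 : (0 : ℝ) ≤ ((j : ℕ) : ℤ) - (i : ℕ) := by
        have : (i : ℕ) ≤ (j : ℕ) := h
        have : ((i : ℕ) : ℝ) ≤ ((j : ℕ) : ℝ) := by exact_mod_cast this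
        push_cast
        linarith
      push_cast at h1 h2
      nlinarith
    · have h1 : (((i : ℕ) : ℤ) - (j : ℕ) : ℝ) ≤ (e i : ℝ) - e j := by exact_mod_cast hstep j i h
      have h2 : (0 : ℝ) ≤ ((i : ℕ) : ℤ) - (j : ℕ) := by
        have : (j : ℕ) ≤ (i : ℕ) := h
        have : ((j : ℕ) : ℝ) ≤ ((i : ℕ) : ℝ) := by exact_mod_cast this
        push_cast
        linarith
      push_cast at h1 h2
      nlinarith
  have hsum : ∑ a, ((S a : ℝ) - c) ^ 2 = ∑ i : Fin N, ((e i : ℝ) - c) ^ 2 := by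
    have h1 : ∑ a, ((S a : ℝ) - c) ^ 2 = ∑ t ∈ T, ((t : ℝ) - c) ^ 2 := by
      rw [hT, Finset.sum_image (fun a _ b _ h => hS h)]
    have h2 : T = univ.map e.toEmbedding := by
      rw [he, Finset.map_orderEmbOfFin_univ]
    rw [h1, h2, Finset.sum_map]
    rfl
  rw [hsum]
  have h1 := pair_sum (fun i : Fin N => (e i : ℝ))
  have h2 := pair_sum (fun i : Fin N => ((i : ℕ) : ℝ))
  have h3 : ∑ i : Fin N, ∑ j : Fin N, (((i : ℕ) : ℝ) - ((j : ℕ) : ℝ)) ^ 2 ≤
      ∑ i : Fin N, ∑ j : Fin N, ((e i : ℝ) - (e j : ℝ)) ^ 2 :=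
    Finset.sum_le_sum fun i _ => Finset.sum_le_sum fun j _ => hsq i j
  rw [h1, h2, Fintype.card_fin] at h3
  have h4 : ∑ i : Fin N, ((i : ℕ) : ℝ) = (N : ℝ) * (N - 1) / 2 := by
    rw [Fin.sum_univ_eq_sum_range (fun i => (i : ℝ)) N]
    clear * -
    induction N with
    | zero => simp
    | succ n ih => rw [Finset.sum_range_succ, ih]; push_cast; ring
  have h5 : ∑ i : Fin N, ((i : ℕ) : ℝ) ^ 2 = (N : ℝ) * (N - 1) * (2 * N - 1) / 6 := by
    rw [Fin.sum_univ_eq_sum_range (fun i => (i : ℝ) ^ 2) N]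
    clear * -
    induction N with
    | zero => simp
    | succ n ih => rw [Finset.sum_range_succ, ih]; push_cast; ring
  rw [h4, h5] at h3
  have h6 : ∑ i : Fin N, ((e i : ℝ) - c) ^ 2 =
      ∑ i : Fin N, (e i : ℝ) ^ 2 - 2 * c * ∑ i : Fin N, (e i : ℝ) + N * c ^ 2 := by
    have : ∀ i : Fin N, ((e i : ℝ) - c) ^ 2 = (e i : ℝ) ^ 2 - 2 * c * (e i : ℝ) + c ^ 2 :=
      fun i => by ring
    simp_rw [this]
    rw [Finset.sum_add_distrib, Finset.sum_sub_distrib, ← Finset.mul_sum, Finset.sum_const,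
      nsmul_eq_mul, Finset.card_univ, Fintype.card_fin]
  rw [h6]
  rcases Nat.eq_zero_or_pos N with h0 | hpos
  · have : (N : ℝ) = 0 := by exact_mod_cast h0
    have hE : IsEmpty (Fin N) := by rw [h0]; infer_instance
    simp [this]
  · have hpos' : (0 : ℝ) < N := by exact_mod_cast hpos
    set A := ∑ i : Fin N, (e i : ℝ) ^ 2
    set B := ∑ i : Fin N, (e i : ℝ)
    have h7 : ((N : ℝ) ^ 3 - N) / 12 * N ≤ (A - 2 * c * B + N * c ^ 2) * N := by
      nlinarith [sq_nonneg (B - N * c)]
    exact le_of_mul_le_mul_right h7 hpos'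

end Pool.Agent.R158.Plane
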