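import Mathlib
import Pool.Agent.R158.Plane

set_option autoImplicit false

/-!
Denniston arcs in `PG(2, q)`, `q` even: the points `(x : y : 1)` for which an anisotropic quadratic
form takes a value in an additive subgroup `A` of the field.
-/

namespace Pool.Agent.R158.Denniston

open scoped Classical LinearAlgebra.Projectivization
open Matrix Projectivization Configuration Finset

variable {F : Type} [Field F]

/-- the quadratic form -/
def Q (β x y : F) : F := x ^ 2 + x * y + β * y ^ 2

lemma Q_eq_zero {β : F} (hβ : ∀ z : F, z ^ 2 + z + β ≠ 0) {x y : F} (h : Q β x y = 0) :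
    x = 0 ∧ y = 0 := by
  have hy : y = 0 := by
    by_contra hy
    apply hβ (x / y)
    unfold Q at h
    field_simp
    linear_combination h
  subst hy
  unfold Q at h
  refine ⟨?_, rfl⟩
  have : x ^ 2 = 0 := by linear_combination h
  exact pow_eq_zero_iff (two_ne_zero) |>.1 this

/-- the affine point `(x : y : 1)` -/
def aff (p : F × F) : ℙ F (Fin 3 → F) :=
  Projectivization.mk F ![p.1, p.2, 1] (by
    intro h
    have := congrFun h 2
    simp at this)

lemma aff_inj : Function.Injective (aff : F × F → ℙ F (Fin 3 → F)) := by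
  rintro ⟨x, y⟩ ⟨x', y'⟩ h
  unfold aff at h
  rw [Projectivization.mk_eq_mk_iff'] at h
  obtain ⟨a, ha⟩ := h
  have e0 := congrFun ha 0
  have e1 := congrFun ha 1
  have e2 := congrFun ha 2
  simp at e0 e1 e2
  subst e2
  rw [one_mul] at e0 e1
  rw [e0, e1]

lemma aff_mem (p : F × F) (l : ℙ F (Fin 3 → F)) :
    aff p ∈ l ↔ l.rep 0 * p.1 + l.rep 1 * p.2 + l.rep 2 = 0 := by
  rw [ofField.mem_iff, aff, ← Projectivization.mk_rep l, Projectivization.orthogonal_mk]
  simp only [dotProduct, Fin.sum_univ_three, Projectivization.mk_rep]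
  simp
  constructor
  · intro h; linear_combination h
  · intro h; linear_combination h

variable [Fintype F] [CharP F 2]

/-- the affine points of the arc -/
noncomputable def T (β : F) (A : AddSubgroup F) : Finset (F × F) :=
  univ.filter (fun p => Q β p.1 p.2 ∈ A)

omit [Fintype F] in
lemma two_eq : (2 : F) = 0 := by
  have := CharP.cast_eq_zero F 2
  exact_mod_cast this

/-- the points of the arc on an affine line: none, or at least as many as `A` has elements -/
lemma line_count (β : F) (A : AddSubgroup F) (n : Fin 3 → F) (hn : n ≠ 0)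
    (hne : ((T β A).filter (fun p => n 0 * p.1 + n 1 * p.2 + n 2 = 0)).Nonempty) :
    Nat.card A ≤ ((T β A).filter (fun p => n 0 * p.1 + n 1 * p.2 + n 2 = 0)).card := by
  obtain ⟨⟨x0, y0⟩, h0⟩ := hne
  rw [mem_filter, T, mem_filter] at h0
  obtain ⟨⟨-, hA⟩, hl⟩ := h0
  simp only at hA hl
  have h2 := two_eq (F := F)
  have hn01 : n 0 ≠ 0 ∨ n 1 ≠ 0 := by
    by_contra hcon
    push Not at hcon
    apply hn
    ext i
    fin_cases i
    · exact hcon.1
    · exact hcon.2
    · simp only [hcon.1, hcon.2] at hl
      simpa using hl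
  -- the additive map
  let δ : F := Q β (n 1) (n 0)
  let ψ : F →+ F :=
    { toFun := fun s => n 2 * s + δ * s ^ 2
      map_zero' := by simp
      map_add' := fun s t => by linear_combination δ * s * t * h2 }
  have hS : (univ.filter (fun s : F => s ∈ A.comap ψ)).card ≤
      ((T β A).filter (fun p => n 0 * p.1 + n 1 * p.2 + n 2 = 0)).card := by
    apply Finset.card_le_card_of_injOn (fun s => (x0 + s * n 1, y0 + s * n 0))
    · intro s hs
      rw [mem_coe, mem_filter] at hs
      have hs' : n 2 * s + δ * s ^ 2 ∈ A := hs.2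
      rw [mem_coe, mem_filter, T, mem_filter]
      refine ⟨⟨mem_univ _, ?_⟩, ?_⟩
      · have e : Q β (x0 + s * n 1) (y0 + s * n 0) = Q β x0 y0 + (n 2 * s + δ * s ^ 2) := by
          have hd : δ = n 1 ^ 2 + n 1 * n 0 + β * n 0 ^ 2 := rfl
          rw [hd]
          unfold Q
          linear_combination (s * x0 * n 1 + β * s * y0 * n 0 - n 2 * s) * h2 + s * hl
        simp only [e]
        exact A.add_mem hA hs'
      · simp only
        linear_combination hl + s * n 0 * n 1 * h2
    · intro s _ t _ hst
      simp only [Prod.mk.injEq] at hst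
      rcases hn01 with h | h
      · have : (s - t) * n 0 = 0 := by linear_combination hst.2
        rcases mul_eq_zero.1 this with h' | h'
        · exact sub_eq_zero.1 h'
        · exact absurd h' h
      · have : (s - t) * n 1 = 0 := by linear_combination hst.1
        rcases mul_eq_zero.1 this with h' | h'
        · exact sub_eq_zero.1 h'
        · exact absurd h' h
  refine le_trans ?_ hS
  have h3 : Nat.card (A.comap ψ) = (univ.filter (fun s : F => s ∈ A.comap ψ)).card := by
    rw [Nat.card_eq_fintype_card]
    exact Fintype.card_subtype _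
  rw [← h3]
  have h4 : (A.comap ψ).index ≤ A.index := by
    rw [AddSubgroup.index_comap]
    have h5 : A.relIndex ψ.range ≤ A.relIndex ⊤ := by
      apply AddSubgroup.relIndex_le_of_le_right le_top
      rw [AddSubgroup.relIndex_top_right]
      exact AddSubgroup.index_ne_zero_of_finite
    rwa [AddSubgroup.relIndex_top_right] at h5
  have h5 := A.card_mul_index
  have h6 := (A.comap ψ).card_mul_index
  have h7 : 0 < A.index := Nat.pos_of_ne_zero AddSubgroup.index_ne_zero_of_finite
  have h8 : 0 < (A.comap ψ).index := Nat.pos_of_ne_zero AddSubgroup.index_ne_zero_of_finite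
  by_contra hcon
  push Not at hcon
  have : Nat.card (A.comap ψ) * (A.comap ψ).index < Nat.card A * A.index :=
    Nat.mul_lt_mul_of_lt_of_le hcon h4 h7
  omega

/-- the number of affine points of the arc -/
lemma card_T {β : F} (hβ : ∀ z : F, z ^ 2 + z + β ≠ 0) (A : AddSubgroup F) :
    (T β A).card + Fintype.card F ≤ (Fintype.card F + 1) * Nat.card A := by
  have h2 := two_eq (F := F)
  have hsq : ∀ a b : F, a ^ 2 = b ^ 2 → a = b := by
    intro a b h
    have : (a - b) ^ 2 = 0 := by linear_combination h + (b ^ 2 - a * b) * h2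
    exact sub_eq_zero.1 (pow_eq_zero_iff two_ne_zero |>.1 this)
  -- fibres
  have hfib0 : (univ.filter (fun p : F × F => Q β p.1 p.2 = 0)).card ≤ 1 := by
    rw [Finset.card_le_one]
    rintro ⟨x, y⟩ h ⟨x', y'⟩ h'
    rw [mem_filter] at h h'
    obtain ⟨e1, e2⟩ := Q_eq_zero hβ h.2
    obtain ⟨e3, e4⟩ := Q_eq_zero hβ h'.2
    simp only at e1 e2 e3 e4
    rw [e1, e2, e3, e4]
  have hfib : ∀ α : F, (univ.filter (fun p : F × F => Q β p.1 p.2 = α)).card ≤
      Fintype.card F + 1 := by
    intro α
    rw [← Fintype.card_option, ← Finset.card_univ]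
    apply Finset.card_le_card_of_injOn
      (fun p : F × F => if p.2 = 0 then (none : Option F) else some (p.1 / p.2))
    · intro _ _; exact mem_coe.2 (mem_univ _)
    · rintro ⟨x, y⟩ h ⟨x', y'⟩ h' e
      rw [mem_coe, mem_filter] at h h'
      replace h := h.2
      replace h' := h'.2
      simp only at h h' e
      by_cases hy : y = 0
      · by_cases hy' : y' = 0
        · subst hy; subst hy'
          have : x = x' := by
            apply hsq
            unfold Q at h h'
            linear_combination h - h'
          rw [this]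
        · simp [hy, hy'] at e
      · by_cases hy' : y' = 0
        · simp [hy, hy'] at e
        · simp only [hy, hy', if_false, Option.some.injEq] at e
          set z := x / y with hz
          have hx : x = z * y := by rw [hz]; field_simp
          have hx' : x' = z * y' := by rw [e]; field_simp
          have hyy : y = y' := by
            apply hsq
            have h3 : (z ^ 2 + z + β) * (y ^ 2 - y' ^ 2) = 0 := by
              unfold Q at h h'
              rw [hx] at h
              rw [hx'] at h'
              linear_combination h - h'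
            rcases mul_eq_zero.1 h3 with h4 | h4
            · exact absurd h4 (hβ z)
            · exact sub_eq_zero.1 h4
          rw [hx, hx', hyy]
  have hsum : (T β A).card = ∑ α ∈ univ.filter (fun α : F => α ∈ A),
      (univ.filter (fun p : F × F => Q β p.1 p.2 = α)).card := by
    have h1 : T β A = (univ.filter (fun α : F => α ∈ A)).biUnion
        (fun α => univ.filter (fun p : F × F => Q β p.1 p.2 = α)) := by
      ext p
      simp [T]
    rw [h1, Finset.card_biUnion]
    intro α _ α' _ hne
    rw [Function.onFun, Finset.disjoint_left]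
    intro p hp hp'
    rw [mem_filter] at hp hp'
    exact hne (hp.2.symm.trans hp'.2)
  have h0 : (0 : F) ∈ univ.filter (fun α : F => α ∈ A) := by
    rw [mem_filter]; exact ⟨mem_univ _, A.zero_mem⟩
  rw [hsum, ← Finset.add_sum_erase _ _ h0]
  have h3 : ∑ α ∈ (univ.filter (fun α : F => α ∈ A)).erase 0,
      (univ.filter (fun p : F × F => Q β p.1 p.2 = α)).card ≤
      ((univ.filter (fun α : F => α ∈ A)).erase 0).card * (Fintype.card F + 1) := by
    rw [← smul_eq_mul]
    apply Finset.sum_le_card_nsmul
    intro α _
    exact hfib α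
  have h4 : ((univ.filter (fun α : F => α ∈ A)).erase 0).card + 1 = Nat.card A := by
    rw [Finset.card_erase_add_one h0, Nat.card_eq_fintype_card]
    exact (Fintype.card_subtype _).symm
  rw [← h4]
  nlinarith

/-- the points of the arc -/
noncomputable def K (β : F) (A : AddSubgroup F) : Finset (ℙ F (Fin 3 → F)) :=
  (T β A).image aff

noncomputable instance : Fintype (ℙ F (Fin 3 → F)) := Fintype.ofFinite _

lemma line_count_K (β : F) (A : AddSubgroup F) (l : ℙ F (Fin 3 → F))
    (hne : ((K β A).filter (fun P => P ∈ l)).Nonempty) :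
    Nat.card A ≤ ((K β A).filter (fun P => P ∈ l)).card := by
  have h1 : (K β A).filter (fun P => P ∈ l) =
      ((T β A).filter (fun p => l.rep 0 * p.1 + l.rep 1 * p.2 + l.rep 2 = 0)).image aff := by
    ext P
    simp only [K, mem_filter, mem_image]
    constructor
    · rintro ⟨⟨p, hp, rfl⟩, h⟩
      exact ⟨p, ⟨hp, (aff_mem p l).1 h⟩, rfl⟩
    · rintro ⟨p, ⟨hp, h⟩, rfl⟩
      exact ⟨⟨p, hp, rfl⟩, (aff_mem p l).2 h⟩
  rw [h1] at hne ⊢
  rw [Finset.card_image_of_injective _ aff_inj]
  exact line_count β A l.rep l.rep_nonzero (Finset.image_nonempty.1 hne)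

lemma exterior_count {β : F} (hβ : ∀ z : F, z ^ 2 + z + β ≠ 0) (A : AddSubgroup F)
    (P : ℙ F (Fin 3 → F)) (hP : P ∉ K β A) :
    Fintype.card F ≤ (univ.filter (fun l : ℙ F (Fin 3 → F) => P ∈ l ∧ ∀ R ∈ K β A, R ∉ l)).card *
      Nat.card A := by
  set M := univ.filter (fun l : ℙ F (Fin 3 → F) => P ∈ l ∧ ∃ R ∈ K β A, R ∈ l) with hM
  set E := univ.filter (fun l : ℙ F (Fin 3 → F) => P ∈ l ∧ ∀ R ∈ K β A, R ∉ l) with hE
  have h1 : M.card + E.card = Fintype.card F + 1 := by
    have h2 := Pool.Agent.R158.Plane.card_point (L := ℙ F (Fin 3 → F)) P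
    rw [Pool.Agent.R158.Plane.order_pg, Nat.card_eq_fintype_card] at h2
    rw [← h2, ← Finset.card_union_of_disjoint]
    · congr 1
      ext l
      simp only [hM, hE, mem_union, mem_filter, mem_univ, true_and]
      constructor
      · rintro (h | h)
        · exact h.1
        · exact h.1
      · intro h
        by_cases h3 : ∃ R ∈ K β A, R ∈ l
        · exact Or.inl ⟨h, h3⟩
        · push Not at h3
          exact Or.inr ⟨h, h3⟩
    · rw [Finset.disjoint_left]
      intro l hl hl'
      rw [hM, mem_filter] at hl
      rw [hE, mem_filter] at hl'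
      obtain ⟨R, h3, h4⟩ := hl.2.2
      exact hl'.2.2 R h3 h4
  have h2 : M.card * Nat.card A ≤ (K β A).card := by
    have h3 : (M.biUnion (fun l => (K β A).filter (fun R => R ∈ l))).card =
        ∑ l ∈ M, ((K β A).filter (fun R => R ∈ l)).card := by
      apply Finset.card_biUnion
      intro l hl l' hl' hne
      rw [mem_coe, hM, mem_filter] at hl hl'
      rw [Function.onFun, Finset.disjoint_left]
      intro R hR hR'
      rw [mem_filter] at hR hR'
      rcases Nondegenerate.eq_or_eq hl.2.1 hR.2 hl'.2.1 hR'.2 with h | h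
      · exact hP (h ▸ hR.1)
      · exact hne h
    have h4 : M.card * Nat.card A ≤ ∑ l ∈ M, ((K β A).filter (fun R => R ∈ l)).card := by
      rw [← smul_eq_mul]
      apply Finset.card_nsmul_le_sum
      intro l hl
      rw [hM, mem_filter] at hl
      apply line_count_K
      obtain ⟨R, h5, h6⟩ := hl.2.2
      exact ⟨R, mem_filter.2 ⟨h5, h6⟩⟩
    rw [← h3] at h4
    refine h4.trans (Finset.card_le_card ?_)
    intro R hR
    rw [mem_biUnion] at hR
    obtain ⟨l, -, h5⟩ := hR
    exact (mem_filter.1 h5).1
  have h3 : (K β A).card = (T β A).card := Finset.card_image_of_injective _ aff_inj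
  have h4 := card_T hβ A
  rw [h3] at h2
  have h5 : (M.card + E.card) * Nat.card A = (Fintype.card F + 1) * Nat.card A := by rw [h1]
  nlinarith

/-- the arc determines the subgroup -/
lemma K_inj (β : F) : Function.Injective (K β : AddSubgroup F → Finset (ℙ F (Fin 3 → F))) := by
  intro A B h
  have h2 := two_eq (F := F)
  have key : ∀ (A : AddSubgroup F) (a : F), a ∈ A ↔ ∃ x : F, x ^ 2 = a ∧ aff (x, 0) ∈ K β A := by
    intro A a
    constructor
    · intro ha
      obtain ⟨x, hx⟩ : ∃ x : F, x ^ 2 = a := by
        have hinj : Function.Injective (fun x : F => x ^ 2) := by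
          intro a b h
          have h' : a ^ 2 = b ^ 2 := h
          have : (a - b) ^ 2 = 0 := by linear_combination h' + (b ^ 2 - a * b) * h2
          exact sub_eq_zero.1 (pow_eq_zero_iff two_ne_zero |>.1 this)
        exact (Finite.injective_iff_surjective.1 hinj) a
      refine ⟨x, hx, ?_⟩
      rw [K, mem_image]
      refine ⟨(x, 0), ?_, rfl⟩
      rw [T, mem_filter]
      refine ⟨mem_univ _, ?_⟩
      unfold Q
      simp only
      have : x ^ 2 + x * 0 + β * 0 ^ 2 = a := by rw [hx]; ring
      rw [this]; exact ha
    · rintro ⟨x, hx, hK⟩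
      rw [K, mem_image] at hK
      obtain ⟨p, hp, hpx⟩ := hK
      have := aff_inj hpx
      subst this
      rw [T, mem_filter] at hp
      have h3 := hp.2
      unfold Q at h3
      simp only at h3
      have : x ^ 2 + x * 0 + β * 0 ^ 2 = a := by rw [hx]; ring
      rw [this] at h3; exact h3
  ext a
  rw [key A a, key B a, h]

/-- there is a suitable coefficient -/
lemma exists_beta : ∃ β : F, ∀ z : F, z ^ 2 + z + β ≠ 0 := by
  by_contra hcon
  push Not at hcon
  have h2 := two_eq (F := F)
  have hsurj : Function.Surjective (fun z : F => z ^ 2 + z) := by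
    intro β
    obtain ⟨z, hz⟩ := hcon β
    exact ⟨z, by simp only; linear_combination hz - β * h2⟩
  have hinj := Finite.injective_iff_surjective.2 hsurj
  have h3 : (fun z : F => z ^ 2 + z) 0 = (fun z : F => z ^ 2 + z) 1 := by
    simp only
    linear_combination -h2
  exact zero_ne_one (hinj h3)

end Pool.Agent.R158.Denniston
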