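import Mathlib

set_option autoImplicit false

/-!
The affine plane of order three (Hesse configuration) in the projective plane over a field.
-/

namespace Pool.Agent.R158.Hesse

open scoped LinearAlgebra.Projectivization
open Matrix Projectivization Configuration

/-- the points of `AG(2,3)` -/
abbrev Pt := ZMod 3 × ZMod 3

/-- the lines of `AG(2,3)`: `inl (m, b)` is the line `y = m x + b`, and `inr c` is the line `x = c` -/
abbrev Ln := (ZMod 3 × ZMod 3) ⊕ ZMod 3

/-- incidence in `AG(2,3)` -/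
def Inc : Pt → Ln → Prop
  | p, Sum.inl l => p.2 = l.1 * p.1 + l.2
  | p, Sum.inr c => p.1 = c

instance (p : Pt) (l : Ln) : Decidable (Inc p l) := by
  rcases l with l | c
  · exact inferInstanceAs (Decidable (p.2 = l.1 * p.1 + l.2))
  · exact inferInstanceAs (Decidable (p.1 = c))

variable {K : Type} [Field K]

/-- two vectors are linearly independent -/
def Ind2 (a b : Fin 3 → K) : Prop := ∀ x y : K, x • a + y • b = 0 → x = 0 ∧ y = 0

/-- three vectors are linearly independent -/
def Ind3 (a b c : Fin 3 → K) : Prop :=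
  ∀ x y z : K, x • a + y • b + z • c = 0 → x = 0 ∧ y = 0 ∧ z = 0

lemma ind2_of_ne {P Q : ℙ K (Fin 3 → K)} (h : P ≠ Q) : Ind2 P.rep Q.rep := by
  have h1 := Projectivization.linearIndependent_pair_iff_ne.2 h
  rw [LinearIndependent.pair_iff] at h1
  exact h1

lemma orth_rep {P l : ℙ K (Fin 3 → K)} (h : P ∈ l) : P.rep ⬝ᵥ l.rep = 0 := by
  rw [ofField.mem_iff] at h
  rw [← Projectivization.mk_rep P, ← Projectivization.mk_rep l,
    Projectivization.orthogonal_mk] at h
  exact h

lemma dep_of_orth {a b c n : Fin 3 → K} (hn : n ≠ 0) (ha : a ⬝ᵥ n = 0) (hb : b ⬝ᵥ n = 0)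
    (hc : c ⬝ᵥ n = 0) : ∃ x y z : K, (x ≠ 0 ∨ y ≠ 0 ∨ z ≠ 0) ∧ x • a + y • b + z • c = 0 := by
  have h1 : (!![a 0, a 1, a 2; b 0, b 1, b 2; c 0, c 1, c 2] : Matrix (Fin 3) (Fin 3) K).det = 0 := by
    rw [← Matrix.exists_mulVec_eq_zero_iff]
    refine ⟨n, hn, ?_⟩
    simp only [dotProduct, Fin.sum_univ_three] at ha hb hc
    ext i
    fin_cases i <;> simp [Matrix.mulVec, dotProduct, Fin.sum_univ_three] <;> assumption
  rw [← Matrix.exists_vecMul_eq_zero_iff] at h1
  obtain ⟨v, hv, h⟩ := h1
  refine ⟨v 0, v 1, v 2, ?_, ?_⟩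
  · by_contra hcon
    push Not at hcon
    apply hv
    ext i
    fin_cases i
    · exact hcon.1
    · exact hcon.2.1
    · exact hcon.2.2
  · have e0 := congrFun h 0
    have e1 := congrFun h 1
    have e2 := congrFun h 2
    simp [Matrix.vecMul, dotProduct, Fin.sum_univ_three] at e0 e1 e2
    ext i
    fin_cases i
    · simpa using e0
    · simpa using e1
    · simpa using e2

lemma comb {P Q R l : ℙ K (Fin 3 → K)} (hP : P ∈ l) (hQ : Q ∈ l) (hR : R ∈ l) (h : P ≠ Q) :
    ∃ x y : K, R.rep = x • P.rep + y • Q.rep := by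
  obtain ⟨x, y, z, hne, h0⟩ := dep_of_orth (Projectivization.rep_nonzero l) (orth_rep hP)
    (orth_rep hQ) (orth_rep hR)
  have hz : z ≠ 0 := by
    rintro rfl
    rw [zero_smul, add_zero] at h0
    obtain ⟨hx, hy⟩ := ind2_of_ne h x y h0
    rcases hne with h | h | h
    · exact h hx
    · exact h hy
    · exact h rfl
  refine ⟨-z⁻¹ * x, -z⁻¹ * y, ?_⟩
  have h1 : z • R.rep = -(x • P.rep) - y • Q.rep := by
    rw [eq_sub_iff_add_eq, eq_neg_iff_add_eq_zero, ← h0]
    abel
  calc R.rep = z⁻¹ • (z • R.rep) := by rw [smul_smul, inv_mul_cancel₀ hz, one_smul]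
    _ = _ := by
      rw [h1]
      module

/-- the elimination: vectors in the position of eight points of the affine plane of order three -/
lemma elim (a b c u20 u02 u22 u11 u21 : Fin 3 → K) (hI : Ind3 a b c)
    (h20 : ∃ x y : K, x ≠ 0 ∧ y ≠ 0 ∧ u20 = x • a + y • b)
    (h02 : ∃ x y : K, x ≠ 0 ∧ y ≠ 0 ∧ u02 = x • a + y • c)
    (h22 : ∃ x y : K, y ≠ 0 ∧ u22 = x • b + y • c)
    (h22b : ∀ y : K, u22 ≠ y • c)
    (h11 : ∃ x y : K, u11 = x • a + y • u22) (h11b : ∃ x y : K, u11 = x • u20 + y • u02)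
    (h21 : ∃ x y : K, u21 = x • u20 + y • u22) (h21b : ∃ x y : K, u21 = x • b + y • u02)
    (h21n : u21 ≠ 0)
    (hc : ∃ x y : K, u21 = x • c + y • u11) :
    ∃ t : K, t ^ 2 + t + 1 = 0 := by
  obtain ⟨α, β, hα, hβ, rfl⟩ := h20
  obtain ⟨α', γ, hα', hγ, rfl⟩ := h02
  obtain ⟨δ, ε, hε, rfl⟩ := h22
  have hδ : δ ≠ 0 := by
    rintro rfl
    exact h22b ε (by rw [zero_smul, zero_add])
  obtain ⟨x, y, rfl⟩ := h11
  obtain ⟨z, w, e1⟩ := h11b
  obtain ⟨p, r, rfl⟩ := h21
  obtain ⟨p', r', e2⟩ := h21b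
  obtain ⟨s, s', e3⟩ := hc
  have k1 := hI (x - z * α - w * α') (y * δ - z * β) (y * ε - w * γ) (by
    have : x • a + y • (δ • b + ε • c) - (z • (α • a + β • b) + w • (α' • a + γ • c)) = 0 := by
      rw [e1, sub_self]
    rw [← this]
    module)
  have k2 := hI (p * α - r' * α') (p * β + r * δ - p') (r * ε - r' * γ) (by
    have : p • (α • a + β • b) + r • (δ • b + ε • c) - (p' • b + r' • (α' • a + γ • c)) = 0 := by
      rw [e2, sub_self]
    rw [← this]
    module)
  have k3 := hI (p * α - s' * x) (p * β + r * δ - s' * y * δ) (r * ε - s - s' * y * ε) (by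
    have : p • (α • a + β • b) + r • (δ • b + ε • c) - (s • c + s' • (x • a + y • (δ • b + ε • c)))
        = 0 := by
      rw [e3, sub_self]
    rw [← this]
    module)
  obtain ⟨a1, a2, a3⟩ := k1
  obtain ⟨b1, b2, b3⟩ := k2
  obtain ⟨c1, c2, c3⟩ := k3
  have hp : p ≠ 0 := by
    rintro rfl
    have h1 : r' = 0 := by
      have : r' * α' = 0 := by linear_combination -b1
      exact (mul_eq_zero.1 this).resolve_right hα'
    have h2 : r = 0 := by
      have : r * ε = 0 := by rw [h1] at b3; linear_combination b3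
      exact (mul_eq_zero.1 this).resolve_right hε
    apply h21n
    rw [h2]; simp
  have hr : r ≠ 0 := by
    rintro rfl
    have h1 : r' = 0 := by
      have : r' * γ = 0 := by linear_combination -b3
      exact (mul_eq_zero.1 this).resolve_right hγ
    have : p * α = 0 := by rw [h1] at b1; linear_combination b1
    rcases mul_eq_zero.1 this with h | h
    · exact hp h
    · exact hα h
  -- normalise: `t = p β / (r δ)`
  refine ⟨p * β / (r * δ), ?_⟩
  have hrδ : r * δ ≠ 0 := mul_ne_zero hr hδ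
  have hr' : r' * α' = p * α := by linear_combination -b1
  have hs' : s' ≠ 0 := by
    rintro rfl
    have : p * α = 0 := by linear_combination c1
    rcases mul_eq_zero.1 this with h | h
    · exact hp h
    · exact hα h
  have hy : y ≠ 0 := by
    rintro rfl
    have h1 : z = 0 := by
      have : z * β = 0 := by linear_combination -a2
      exact (mul_eq_zero.1 this).resolve_right hβ
    have h2 : w = 0 := by
      have : w * γ = 0 := by linear_combination -a3
      exact (mul_eq_zero.1 this).resolve_right hγ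
    have h3 : x = 0 := by rw [h1, h2] at a1; linear_combination a1
    have : p * α = 0 := by rw [h3] at c1; linear_combination c1
    rcases mul_eq_zero.1 this with h | h
    · exact hp h
    · exact hα h
  have key : (p * β) ^ 2 + (p * β) * (r * δ) + (r * δ) ^ 2 = 0 := by
    have d1 : w * r = y * r' := by
      have : ε * (w * r - y * r') = 0 := by linear_combination w * b3 - r' * a3
      linear_combination (mul_eq_zero.1 this).resolve_left hε
    have d2 : w * r * α' = y * p * α := by
      rw [d1]; linear_combination y * hr'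
    have d3 : p * β * r = s' * y * (δ * r + p * β) := by
      have : α * (p * β * r - s' * y * (δ * r + p * β)) = 0 := by
        linear_combination (β * r) * c1 + s' * β * r * a1 + s' * β * d2 - s' * α * r * a2
      linear_combination (mul_eq_zero.1 this).resolve_left hα
    linear_combination (-δ) * d3 + (δ * r + p * β) * c2
  field_simp
  linear_combination key

lemma comb' {P Q R l : ℙ K (Fin 3 → K)} (hP : P ∈ l) (hQ : Q ∈ l) (hR : R ∈ l) (h : P ≠ Q)
    (h1 : R ≠ P) (h2 : R ≠ Q) :
    ∃ x y : K, x ≠ 0 ∧ y ≠ 0 ∧ R.rep = x • P.rep + y • Q.rep := by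
  obtain ⟨x, y, e⟩ := comb hP hQ hR h
  refine ⟨x, y, ?_, ?_, e⟩
  · rintro rfl
    have := ind2_of_ne h2 1 (-y) (by rw [e]; module)
    exact one_ne_zero this.1
  · rintro rfl
    have := ind2_of_ne h1 1 (-x) (by rw [e]; module)
    exact one_ne_zero this.1

/-- If the affine plane of order three embeds (points and lines injectively, incidences preserved)
in the projective plane over `K`, then `t ^ 2 + t + 1` has a root in `K`. -/
theorem necessary (f : Pt → ℙ K (Fin 3 → K)) (g : Ln → ℙ K (Fin 3 → K))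
    (hf : Function.Injective f) (hg : Function.Injective g)
    (h : ∀ p l, Inc p l → f p ∈ g l) : ∃ t : K, t ^ 2 + t + 1 = 0 := by
  have hne : ∀ p q : Pt, p ≠ q → f p ≠ f q := fun p q hpq e => hpq (hf e)
  refine elim (f (0, 0)).rep (f (1, 0)).rep (f (0, 1)).rep (f (2, 0)).rep (f (0, 2)).rep
    (f (2, 2)).rep (f (1, 1)).rep (f (2, 1)).rep ?_ ?_ ?_ ?_ ?_ ?_ ?_ ?_ ?_ ?_ ?_
  · intro x y z hxyz
    have hz : z = 0 := by
      by_contra hz
      have h1 := orth_rep (h (0, 0) (Sum.inl (0, 0)) (by decide))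
      have h2 := orth_rep (h (1, 0) (Sum.inl (0, 0)) (by decide))
      have h3 : (f (0, 1)).rep ⬝ᵥ (g (Sum.inl (0, 0))).rep = 0 := by
        have h4 : (x • (f (0, 0)).rep + y • (f (1, 0)).rep + z • (f (0, 1)).rep) ⬝ᵥ
            (g (Sum.inl (0, 0))).rep = 0 := by rw [hxyz, zero_dotProduct]
        rw [add_dotProduct, add_dotProduct, smul_dotProduct, smul_dotProduct, smul_dotProduct, h1,
          h2, smul_zero, smul_zero, zero_add, zero_add, smul_eq_mul] at h4
        exact (mul_eq_zero.1 h4).resolve_left hz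
      have h5 : f (0, 1) ∈ g (Sum.inl (0, 0)) := by
        rw [ofField.mem_iff, ← Projectivization.mk_rep (f (0, 1)),
          ← Projectivization.mk_rep (g (Sum.inl (0, 0))), Projectivization.orthogonal_mk]
        exact h3
      rcases Nondegenerate.eq_or_eq (h (0, 0) (Sum.inl (0, 0)) (by decide)) h5
        (h (0, 0) (Sum.inr 0) (by decide)) (h (0, 1) (Sum.inr 0) (by decide)) with h6 | h6
      · exact hne _ _ (by decide) h6
      · exact absurd (hg h6) (by decide)
    subst hz
    rw [zero_smul, add_zero] at hxyz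
    obtain ⟨hx, hy⟩ := ind2_of_ne (hne (0, 0) (1, 0) (by decide)) x y hxyz
    exact ⟨hx, hy, rfl⟩
  · exact comb' (h _ (Sum.inl (0, 0)) (by decide)) (h _ (Sum.inl (0, 0)) (by decide))
      (h _ (Sum.inl (0, 0)) (by decide)) (hne _ _ (by decide)) (hne _ _ (by decide))
      (hne _ _ (by decide))
  · exact comb' (h _ (Sum.inr 0) (by decide)) (h _ (Sum.inr 0) (by decide))
      (h _ (Sum.inr 0) (by decide)) (hne _ _ (by decide)) (hne _ _ (by decide))
      (hne _ _ (by decide))
  · obtain ⟨x, y, -, hy, e⟩ := comb' (h (1, 0) (Sum.inl (2, 1)) (by decide))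
      (h (0, 1) (Sum.inl (2, 1)) (by decide)) (h (2, 2) (Sum.inl (2, 1)) (by decide))
      (hne _ _ (by decide)) (hne _ _ (by decide)) (hne _ _ (by decide))
    exact ⟨x, y, hy, e⟩
  · intro y e
    have := ind2_of_ne (hne (2, 2) (0, 1) (by decide)) 1 (-y) (by rw [e]; module)
    exact one_ne_zero this.1
  · exact comb (h (0, 0) (Sum.inl (1, 0)) (by decide)) (h (2, 2) (Sum.inl (1, 0)) (by decide))
      (h (1, 1) (Sum.inl (1, 0)) (by decide)) (hne _ _ (by decide))
  · exact comb (h (2, 0) (Sum.inl (2, 2)) (by decide)) (h (0, 2) (Sum.inl (2, 2)) (by decide))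
      (h (1, 1) (Sum.inl (2, 2)) (by decide)) (hne _ _ (by decide))
  · exact comb (h (2, 0) (Sum.inr 2) (by decide)) (h (2, 2) (Sum.inr 2) (by decide))
      (h (2, 1) (Sum.inr 2) (by decide)) (hne _ _ (by decide))
  · exact comb (h (1, 0) (Sum.inl (1, 2)) (by decide)) (h (0, 2) (Sum.inl (1, 2)) (by decide))
      (h (2, 1) (Sum.inl (1, 2)) (by decide)) (hne _ _ (by decide))
  · exact Projectivization.rep_nonzero _
  · exact comb (h (0, 1) (Sum.inl (0, 1)) (by decide)) (h (1, 1) (Sum.inl (0, 1)) (by decide))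
      (h (2, 1) (Sum.inl (0, 1)) (by decide)) (hne _ _ (by decide))

/-- powers of `ω` -/
def wp (ω : K) (k : ZMod 3) : K := ω ^ k.val

/-- coordinates of the points of the Hesse configuration -/
def fvec (ω : K) (p : Pt) : Fin 3 → K :=
  if p.1 = 0 then ![0, 1, -wp ω p.2] else if p.1 = 1 then ![-wp ω p.2, 0, 1] else
    ![1, -wp ω p.2, 0]

/-- coordinates of the lines of the Hesse configuration -/
def gvec (ω : K) : Ln → Fin 3 → K
  | Sum.inl l => ![1, wp ω (l.1 - l.2), wp ω (l.1 + l.2)]
  | Sum.inr c => if c = 0 then ![1, 0, 0] else if c = 1 then ![0, 1, 0] else ![0, 0, 1]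

lemma fvec_ne (ω : K) (p : Pt) : fvec ω p ≠ 0 := by
  intro h
  unfold fvec at h
  split_ifs at h
  · have := congrFun h 1; simp at this
  · have := congrFun h 2; simp at this
  · have := congrFun h 0; simp at this

lemma gvec_ne (ω : K) (l : Ln) : gvec ω l ≠ 0 := by
  intro h
  rcases l with l | c
  · have := congrFun h 0; simp [gvec] at this
  · simp only [gvec] at h
    split_ifs at h
    · have := congrFun h 0; simp at this
    · have := congrFun h 1; simp at this
    · have := congrFun h 2; simp at this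

lemma wp_add {ω : K} (h3 : ω ^ 3 = 1) (a b : ZMod 3) : wp ω (a + b) = wp ω a * wp ω b := by
  unfold wp
  rw [ZMod.val_add, ← pow_add]
  conv_rhs => rw [← Nat.div_add_mod (a.val + b.val) 3, pow_add, pow_mul, h3, one_pow, one_mul]

lemma wp_zero (ω : K) : wp ω 0 = 1 := by
  simp [wp]

lemma fvec_zero (ω : K) (k : ZMod 3) : fvec ω (0, k) = ![0, 1, -wp ω k] := by
  simp [fvec]

lemma fvec_one (ω : K) (k : ZMod 3) : fvec ω (1, k) = ![-wp ω k, 0, 1] := by
  simp [fvec]

lemma fvec_two (ω : K) (k : ZMod 3) : fvec ω (2, k) = ![1, -wp ω k, 0] := by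
  have h1 : (2 : ZMod 3) ≠ 0 := by decide
  have h2 : (2 : ZMod 3) ≠ 1 := by decide
  simp [fvec, h1, h2]

lemma gvec_zero (ω : K) : gvec ω (Sum.inr 0) = ![1, 0, 0] := by simp [gvec]
lemma gvec_one (ω : K) : gvec ω (Sum.inr 1) = ![0, 1, 0] := by simp [gvec]
lemma gvec_two (ω : K) : gvec ω (Sum.inr 2) = ![0, 0, 1] := by
  have h1 : (2 : ZMod 3) ≠ 0 := by decide
  have h2 : (2 : ZMod 3) ≠ 1 := by decide
  simp [gvec, h1, h2]

lemma three (r : ZMod 3) : r = 0 ∨ r = 1 ∨ r = 2 := by
  revert r; decide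

lemma inc_vec {ω : K} (hω : ω ^ 2 + ω + 1 = 0) (p : Pt) (l : Ln) (h : Inc p l) :
    fvec ω p ⬝ᵥ gvec ω l = 0 := by
  have h3 : ω ^ 3 = 1 := by linear_combination (ω - 1) * hω
  obtain ⟨r, k⟩ := p
  rcases l with ⟨m, b⟩ | c
  · have hk : k = m * r + b := h
    subst hk
    rcases three r with rfl | rfl | rfl
    · rw [fvec_zero, gvec]
      have e : wp ω (m - b) = wp ω (m * 0 + b) * wp ω (m + b) := by
        rw [← wp_add h3]
        congr 1
        revert m b; decide
      simp [dotProduct, Fin.sum_univ_three, e]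
    · rw [fvec_one, gvec]
      simp [dotProduct, Fin.sum_univ_three]
    · rw [fvec_two, gvec]
      have e : wp ω (m * 2 + b) * wp ω (m - b) = 1 := by
        rw [← wp_add h3, ← wp_zero ω]
        congr 1
        revert m b; decide
      simp [dotProduct, Fin.sum_univ_three, e]
  · have hk : r = c := h
    subst hk
    rcases three r with rfl | rfl | rfl
    · rw [fvec_zero, gvec_zero]; simp [dotProduct, Fin.sum_univ_three]
    · rw [fvec_one, gvec_one]; simp [dotProduct, Fin.sum_univ_three]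
    · rw [fvec_two, gvec_two]; simp [dotProduct, Fin.sum_univ_three]

lemma wp_inj {ω : K} (hω : ω ^ 2 + ω + 1 = 0) (h3 : (3 : K) ≠ 0) (a b : ZMod 3)
    (h : wp ω a = wp ω b) : a = b := by
  have h1 : ω ≠ 1 := by
    rintro rfl
    apply h3
    linear_combination hω
  have h0 : ω ≠ 0 := by
    rintro rfl
    simp at hω
  have e0 : wp ω 0 = 1 := wp_zero ω
  have e1 : wp ω 1 = ω := by simp [wp, ZMod.val_one]
  have e2 : wp ω 2 = ω ^ 2 := by
    unfold wp
    congr 1
  have k1 : ω ^ 2 ≠ 1 := by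
    intro h
    have : ω = 1 ∨ ω = -1 := sq_eq_one_iff_of_ne_zero_aux h
    rcases this with h' | h'
    · exact h1 h'
    · rw [h'] at hω
      apply one_ne_zero (α := K)
      linear_combination hω
  have k2 : ω ^ 2 ≠ ω := by
    intro h
    have : ω * (ω - 1) = 0 := by linear_combination h
    rcases mul_eq_zero.1 this with h' | h'
    · exact h0 h'
    · exact h1 (by linear_combination h')
  rcases three a with rfl | rfl | rfl <;> rcases three b with rfl | rfl | rfl
  · rfl
  · rw [e0, e1] at h; exact absurd h.symm h1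
  · rw [e0, e2] at h; exact absurd h.symm k1
  · rw [e0, e1] at h; exact absurd h h1
  · rfl
  · rw [e1, e2] at h; exact absurd h.symm k2
  · rw [e0, e2] at h; exact absurd h k1
  · rw [e1, e2] at h; exact absurd h k2
  · rfl
where
  sq_eq_one_iff_of_ne_zero_aux {ω : K} (h : ω ^ 2 = 1) : ω = 1 ∨ ω = -1 := sq_eq_one_iff_of_side h
  sq_eq_one_iff_of_side {ω : K} (h : ω ^ 2 = 1) : ω = 1 ∨ ω = -1 := by
    have : (ω - 1) * (ω + 1) = 0 := by linear_combination h
    rcases mul_eq_zero.1 this with h' | h'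
    · left; linear_combination h'
    · right; linear_combination h'

lemma f_inj {ω : K} (hω : ω ^ 2 + ω + 1 = 0) (h3 : (3 : K) ≠ 0) :
    Function.Injective (fun p : Pt => Projectivization.mk K (fvec ω p) (fvec_ne ω p)) := by
  rintro ⟨r, k⟩ ⟨r', k'⟩ h
  rw [Projectivization.mk_eq_mk_iff'] at h
  obtain ⟨a, ha⟩ := h
  have e0 := congrFun ha 0
  have e1 := congrFun ha 1
  have e2 := congrFun ha 2
  have hw : ∀ k : ZMod 3, wp ω k ≠ 0 := by
    intro k
    have h0 : ω ≠ 0 := by
      rintro rfl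
      simp at hω
    exact pow_ne_zero _ h0
  rcases three r with rfl | rfl | rfl <;> rcases three r' with rfl | rfl | rfl <;>
    simp only [fvec_zero, fvec_one, fvec_two] at e0 e1 e2 <;> simp at e0 e1 e2
  · rw [e1, one_mul] at e2
    rw [wp_inj hω h3 _ _ e2]
  · exact absurd e2 (hw _)
  · exact absurd e0 (hw _)
  · rw [e2, one_mul] at e0
    rw [wp_inj hω h3 _ _ e0]
  · exact absurd e1 (hw _)
  · rw [e0, one_mul] at e1
    rw [wp_inj hω h3 _ _ e1]

lemma g_inj {ω : K} (hω : ω ^ 2 + ω + 1 = 0) (h3 : (3 : K) ≠ 0) :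
    Function.Injective (fun l : Ln => Projectivization.mk K (gvec ω l) (gvec_ne ω l)) := by
  have hw : ∀ k : ZMod 3, wp ω k ≠ 0 := by
    intro k
    have h0 : ω ≠ 0 := by
      rintro rfl
      simp at hω
    exact pow_ne_zero _ h0
  rintro l l' h
  rw [Projectivization.mk_eq_mk_iff'] at h
  obtain ⟨a, ha⟩ := h
  have e0 := congrFun ha 0
  have e1 := congrFun ha 1
  have e2 := congrFun ha 2
  rcases l with ⟨m, b⟩ | c
  · rcases l' with ⟨m', b'⟩ | c'
    · simp only [gvec] at e0 e1 e2
      simp at e0 e1 e2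
      rw [e0, one_mul] at e1 e2
      have k1 := wp_inj hω h3 _ _ e1
      have k2 := wp_inj hω h3 _ _ e2
      have : m = m' ∧ b = b' := by
        clear * - k1 k2
        revert m b m' b'; decide
      rw [this.1, this.2]
    · exfalso
      rcases three c' with rfl | rfl | rfl <;>
        simp only [gvec_zero, gvec_one, gvec_two] at e0 e1 e2 <;> simp [gvec] at e0 e1 e2
      · exact hw _ e1.symm
  · rcases l' with ⟨m', b'⟩ | c'
    · exfalso
      rcases three c with rfl | rfl | rfl <;>
        simp only [gvec_zero, gvec_one, gvec_two] at e0 e1 e2 <;> simp [gvec, hw] at e0 e1 e2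
      · exact one_ne_zero (e0.symm.trans e1)
      · rw [e0, zero_mul] at e1; exact zero_ne_one e1
      · rw [e0, zero_mul] at e2; exact zero_ne_one e2
    · rcases three c with rfl | rfl | rfl <;> rcases three c' with rfl | rfl | rfl <;>
        simp only [gvec_zero, gvec_one, gvec_two] at e0 e1 e2 <;> simp at e0 e1 e2 ⊢

/-- If `t ^ 2 + t + 1` has a root in the field `K` of characteristic different from three, then the
affine plane of order three embeds in the projective plane over `K`. -/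
theorem sufficient {ω : K} (hω : ω ^ 2 + ω + 1 = 0) (h3 : (3 : K) ≠ 0) :
    ∃ (f : Pt → ℙ K (Fin 3 → K)) (g : Ln → ℙ K (Fin 3 → K)), Function.Injective f ∧
      Function.Injective g ∧ ∀ p l, Inc p l → f p ∈ g l := by
  refine ⟨_, _, f_inj hω h3, g_inj hω h3, ?_⟩
  intro p l h
  rw [ofField.mem_iff, Projectivization.orthogonal_mk]
  exact inc_vec hω p l h

/-- `x ^ 2 + x + 1` has no root modulo a prime congruent to two modulo three. -/
lemma no_root {p : ℕ} (hp : p.Prime) (h : p % 3 = 2) : ¬ ∃ t : ZMod p, t ^ 2 + t + 1 = 0 := by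
  have : Fact p.Prime := ⟨hp⟩
  rintro ⟨t, ht⟩
  have h3 : t ^ 3 = 1 := by linear_combination (t - 1) * ht
  have h0 : t ≠ 0 := by
    rintro rfl
    simp at ht
  have h1 : t ^ (p - 1) = 1 := ZMod.pow_card_sub_one_eq_one h0
  have h2 : t = 1 := by
    have e : p - 1 = 3 * ((p - 1) / 3) + 1 := by omega
    rw [e, pow_add, pow_mul, h3, one_pow, one_mul, pow_one] at h1
    exact h1
  rw [h2] at ht
  have h4 : ((3 : ℕ) : ZMod p) = 0 := by
    push_cast
    linear_combination ht
  rw [ZMod.natCast_eq_zero_iff] at h4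
  have h5 := (Nat.prime_dvd_prime_iff_eq hp Nat.prime_three).1 h4
  omega

/-- `x ^ 2 + x + 1` has a root modulo a prime congruent to one modulo three. -/
lemma root {p : ℕ} (hp : p.Prime) (h : p % 3 = 1) : ∃ t : ZMod p, t ^ 2 + t + 1 = 0 := by
  have : Fact p.Prime := ⟨hp⟩
  have : Fact (Nat.Prime 3) := ⟨Nat.prime_three⟩
  have hcard : Fintype.card (ZMod p)ˣ = p - 1 := ZMod.card_units p
  have hdvd : 3 ∣ Fintype.card (ZMod p)ˣ := by
    rw [hcard]; omega
  obtain ⟨u, hu⟩ := exists_prime_orderOf_dvd_card 3 hdvd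
  refine ⟨(u : ZMod p), ?_⟩
  have h3 : (u : ZMod p) ^ 3 = 1 := by
    have : u ^ 3 = 1 := by rw [← hu]; exact pow_orderOf_eq_one u
    have h := congrArg Units.val this
    simpa using h
  have h1 : (u : ZMod p) ≠ 1 := by
    intro h1
    have : u = 1 := Units.ext h1
    rw [this, orderOf_one] at hu
    omega
  have h2 : ((u : ZMod p) - 1) * ((u : ZMod p) ^ 2 + u + 1) = 0 := by linear_combination h3
  exact (mul_eq_zero.1 h2).resolve_left (sub_ne_zero.2 h1)

end Pool.Agent.R158.Hesse
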