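import Mathlib

/-!
# A positive semidefinite Toeplitz matrix dominates a rank one atom
-/

open Polynomial Matrix
open scoped ComplexOrder

namespace Pool.Agent.R158.ToepAtom

variable {N : ℕ}

/-- the coefficient vector of a polynomial, cut at degree `N` -/
noncomputable def toVec (N : ℕ) : ℂ[X] →ₗ[ℂ] (Fin (N + 1) → ℂ) where
  toFun f := fun i => f.coeff i
  map_add' f g := by ext i; simp
  map_smul' c f := by ext i; simp

@[simp] lemma toVec_apply (f : ℂ[X]) (i : Fin (N + 1)) : toVec N f i = f.coeff i := rfl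

/-- the Toeplitz matrix of a sequence -/
def toepM (N : ℕ) (a : ℤ → ℂ) : Matrix (Fin (N + 1)) (Fin (N + 1)) ℂ :=
  Matrix.of fun j k => a ((j : ℤ) - (k : ℤ))

lemma form_eq (a : ℤ → ℂ) (f g : ℂ[X]) :
    star (toVec N f) ⬝ᵥ (toepM N a *ᵥ toVec N g)
      = ∑ j ∈ Finset.range (N + 1), ∑ k ∈ Finset.range (N + 1),
          star (f.coeff j) * (a ((j : ℤ) - (k : ℤ)) * g.coeff k) := by
  simp only [dotProduct, mulVec, toepM, Matrix.of_apply, Pi.star_apply, toVec_apply]
  rw [Finset.sum_range]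
  refine Finset.sum_congr rfl fun i _ => ?_
  rw [Finset.mul_sum, Finset.sum_range]

lemma shift_form (a : ℤ → ℂ) (f g : ℂ[X]) (hf : f.coeff N = 0) (hg : g.coeff N = 0) :
    star (toVec N (X * f)) ⬝ᵥ (toepM N a *ᵥ toVec N (X * g))
      = star (toVec N f) ⬝ᵥ (toepM N a *ᵥ toVec N g) := by
  rw [form_eq, form_eq]
  conv_lhs => rw [Finset.sum_range_succ']
  conv_rhs => rw [Finset.sum_range_succ]
  simp only [coeff_X_mul, hf, star_zero, zero_mul, Finset.sum_const_zero, add_zero,
    Polynomial.coeff_X_mul_zero]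
  refine Finset.sum_congr rfl fun j _ => ?_
  conv_lhs => rw [Finset.sum_range_succ']
  conv_rhs => rw [Finset.sum_range_succ]
  simp only [hg, mul_zero, add_zero, coeff_X_mul, Polynomial.coeff_X_mul_zero]
  refine Finset.sum_congr rfl fun k _ => ?_
  have : ((j + 1 : ℕ) : ℤ) - ((k + 1 : ℕ) : ℤ) = (j : ℤ) - (k : ℤ) := by push_cast; ring
  rw [this]

/-- the kernel of the matrix, as a space of polynomials of degree at most `N` -/
noncomputable def K (N : ℕ) (a : ℤ → ℂ) : Submodule ℂ ℂ[X] :=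
  degreeLT ℂ (N + 1) ⊓ LinearMap.ker ((toepM N a).mulVecLin ∘ₗ toVec N)

lemma mem_K {a : ℤ → ℂ} {f : ℂ[X]} :
    f ∈ K N a ↔ f.degree < (N + 1 : ℕ) ∧ toepM N a *ᵥ toVec N f = 0 := by
  simp [K, mem_degreeLT]

lemma toVec_surj (x : Fin (N + 1) → ℂ) : ∃ f : ℂ[X], f.degree < (N + 1 : ℕ) ∧ toVec N f = x := by
  refine ⟨∑ i : Fin (N + 1), C (x i) * X ^ (i : ℕ), ?_, ?_⟩
  · rw [← mem_degreeLT]
    refine Submodule.sum_mem _ fun i _ => ?_
    rw [mem_degreeLT]
    exact lt_of_le_of_lt (degree_C_mul_X_pow_le _ _) (by exact_mod_cast i.2)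
  · ext j
    rw [toVec_apply, finsetSum_coeff, Finset.sum_eq_single j]
    · simp
    · intro i _ hij
      rw [coeff_C_mul_X_pow, if_neg]
      intro h; exact hij (Fin.ext h.symm)
    · intro h; exact absurd (Finset.mem_univ _) h

lemma toVec_inj {f : ℂ[X]} (hf : f.degree < (N + 1 : ℕ)) (h : toVec N f = 0) : f = 0 := by
  ext i
  by_cases hi : i < N + 1
  · have := congrFun h ⟨i, hi⟩
    simpa using this
  · rw [coeff_eq_zero_of_degree_lt, coeff_zero]
    exact lt_of_lt_of_le hf (by exact_mod_cast not_lt.1 hi)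

lemma X_mul_mem {a : ℤ → ℂ} (hT : (toepM N a).PosSemidef) {f : ℂ[X]} (hf : f ∈ K N a)
    (hd : f.degree < (N : ℕ)) : X * f ∈ K N a := by
  rw [mem_K] at hf ⊢
  refine ⟨?_, ?_⟩
  · by_cases h0 : f = 0
    · simp [h0]
    rw [degree_mul, degree_X, degree_eq_natDegree h0]
    rw [degree_eq_natDegree h0] at hd
    have : f.natDegree < N := by exact_mod_cast hd
    have h2 : 1 + f.natDegree < N + 1 := by omega
    exact_mod_cast h2
  · rw [← hT.dotProduct_mulVec_zero_iff, shift_form, hf.2, dotProduct_zero]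
    · exact coeff_eq_zero_of_degree_lt hd
    · exact coeff_eq_zero_of_degree_lt hd

lemma X_pow_mul_mem {a : ℤ → ℂ} (hT : (toepM N a).PosSemidef) {f : ℂ[X]} (hf : f ∈ K N a)
    (i : ℕ) (hd : f.natDegree + i ≤ N) : X ^ i * f ∈ K N a := by
  induction i with
  | zero => simpa using hf
  | succ i ih =>
    rw [pow_succ', mul_assoc]
    refine X_mul_mem hT (ih (by omega)) ?_
    by_cases h0 : f = 0
    · simp [h0]
    rw [degree_mul, degree_X_pow, degree_eq_natDegree h0]
    have : i + f.natDegree < N := by omega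
    exact_mod_cast this

lemma mul_mem {a : ℤ → ℂ} (hT : (toepM N a).PosSemidef) {f : ℂ[X]} (hf : f ∈ K N a)
    (k : ℂ[X]) (hd : f.natDegree + k.natDegree ≤ N) : f * k ∈ K N a := by
  rw [k.as_sum_range_C_mul_X_pow, Finset.mul_sum]
  refine Submodule.sum_mem _ fun i hi => ?_
  have hi' : i ≤ k.natDegree := by
    have := Finset.mem_range.1 hi
    omega
  have h1 : f * (C (k.coeff i) * X ^ i) = k.coeff i • (X ^ i * f) := by
    rw [Polynomial.smul_eq_C_mul]; ring
  rw [h1]
  exact Submodule.smul_mem _ _ (X_pow_mul_mem hT hf i (by omega))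

lemma herm_form {n : Type*} [Fintype n] {T : Matrix n n ℂ} (hT : T.IsHermitian) (x y : n → ℂ) :
    star (star x ⬝ᵥ (T *ᵥ y)) = star y ⬝ᵥ (T *ᵥ x) := by
  rw [star_dotProduct, star_star, star_mulVec, hT.eq, ← dotProduct_mulVec]

/-- All kernel polynomials share a unimodular zero. -/
lemma exists_common_root {a : ℤ → ℂ} (hT : (toepM N a).PosSemidef) (hne : toepM N a ≠ 0) :
    ∃ ζ : ℂ, ‖ζ‖ = 1 ∧ ∀ f ∈ K N a, f.eval ζ = 0 := by
  classical
  by_cases hK : ∃ f ∈ K N a, f ≠ 0
  swap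
  · push Not at hK
    refine ⟨1, by simp, fun f hf => by simp [hK f hf]⟩
  -- minimal degree element
  have hex : ∃ d : ℕ, ∃ f ∈ K N a, f ≠ 0 ∧ f.natDegree = d := by
    obtain ⟨f, hf, hf0⟩ := hK
    exact ⟨_, f, hf, hf0, rfl⟩
  obtain ⟨f, hf, hf0, hfd⟩ := Nat.find_spec hex
  have hmin : ∀ g ∈ K N a, g ≠ 0 → f.natDegree ≤ g.natDegree := by
    intro g hg hg0
    rw [hfd]
    exact Nat.find_min' hex ⟨g, hg, hg0, rfl⟩
  have hfN : f.natDegree ≤ N := by
    have := (mem_K.1 hf).1
    rw [degree_eq_natDegree hf0] at this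
    have h2 : f.natDegree < N + 1 := by exact_mod_cast this
    omega
  -- degree positive
  have hpos : 0 < f.natDegree := by
    rcases Nat.eq_zero_or_pos f.natDegree with h | h
    swap
    · exact h
    exfalso
    apply hne
    -- constant polynomial in the kernel
    obtain ⟨c, hc⟩ : ∃ c, f = C c := ⟨f.coeff 0, eq_C_of_natDegree_eq_zero h⟩
    have hc0 : c ≠ 0 := by
      rintro rfl
      exact hf0 (by simp [hc])
    have h1 := (mem_K.1 hf).2
    have h2 : ∀ j : Fin (N + 1), a (j : ℤ) = 0 := by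
      intro j
      have h3 := congrFun h1 j
      simp only [mulVec, dotProduct, toepM, Matrix.of_apply, toVec_apply, hc, Pi.zero_apply] at h3
      rw [Fin.sum_univ_succ] at h3
      simp [coeff_C, hc0] at h3
      exact h3
    have hH := hT.isHermitian
    ext j k
    simp only [toepM, Matrix.of_apply, Matrix.zero_apply]
    rcases le_total k j with hkj | hkj
    · have h4 := h2 ⟨j - k, by omega⟩
      have h5 : ((⟨(j : ℕ) - (k : ℕ), by omega⟩ : Fin (N + 1)) : ℤ) = (j : ℤ) - (k : ℤ) := by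
        simp only
        have : (k : ℕ) ≤ (j : ℕ) := hkj
        omega
      rw [← h5]
      exact h4
    · have h4 := h2 ⟨k - j, by omega⟩
      have h5 : ((⟨(k : ℕ) - (j : ℕ), by omega⟩ : Fin (N + 1)) : ℤ) = (k : ℤ) - (j : ℤ) := by
        simp only
        have : (j : ℕ) ≤ (k : ℕ) := hkj
        omega
      have h6 := hH.apply j k
      simp only [toepM, Matrix.of_apply] at h6
      rw [← h6, ← h5, h4, star_zero]
  have hdeg : 0 < f.degree := natDegree_pos_iff_degree_pos.1 hpos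
  obtain ⟨ζ, hζ⟩ := IsAlgClosed.exists_root f hdeg.ne'
  obtain ⟨g, hg⟩ := dvd_iff_isRoot.2 hζ
  have hg0 : g ≠ 0 := by
    rintro rfl
    exact hf0 (by simp [hg])
  have hgd : f.natDegree = 1 + g.natDegree := by
    rw [hg, natDegree_mul (X_sub_C_ne_zero ζ) hg0, natDegree_X_sub_C]
  have hgK : g ∉ K N a := by
    intro h
    have := hmin g h hg0
    omega
  have hgdeg : g.degree < (N : ℕ) := by
    rw [degree_eq_natDegree hg0]
    have : g.natDegree < N := by omega
    exact_mod_cast this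
  have hgc : g.coeff N = 0 := coeff_eq_zero_of_degree_lt hgdeg
  have hBne : star (toVec N g) ⬝ᵥ (toepM N a *ᵥ toVec N g) ≠ 0 := by
    intro h
    rw [hT.dotProduct_mulVec_zero_iff] at h
    refine hgK (mem_K.2 ⟨?_, h⟩)
    exact lt_trans hgdeg (by exact_mod_cast Nat.lt_succ_self N)
  -- T (X g) = ζ T g
  have hTX : toepM N a *ᵥ toVec N (X * g) = ζ • (toepM N a *ᵥ toVec N g) := by
    have h1 : X * g = f + ζ • g := by
      rw [hg, Polynomial.smul_eq_C_mul]; ring
    rw [h1, map_add, map_smul, mulVec_add, (mem_K.1 hf).2, zero_add, mulVec_smul]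
  set B := star (toVec N g) ⬝ᵥ (toepM N a *ᵥ toVec N g) with hB
  have hBstar : star B = B := by
    exact herm_form hT.isHermitian _ _
  have h3 : star (toVec N (X * g)) ⬝ᵥ (toepM N a *ᵥ toVec N g) = star ζ * B := by
    rw [← herm_form hT.isHermitian, hTX, dotProduct_smul, smul_eq_mul, star_mul', hBstar]
  have h5 : B = ζ * (star ζ * B) := by
    rw [← h3, hB, ← shift_form a g g hgc hgc, hTX, dotProduct_smul, smul_eq_mul]
  have hζ1 : ‖ζ‖ = 1 := by
    have h6 : ζ * star ζ = 1 := by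
      have : (ζ * star ζ - 1) * B = 0 := by linear_combination -h5
      rcases mul_eq_zero.1 this with h | h
      · exact sub_eq_zero.1 h
      · exact absurd h hBne
    have h7 : (‖ζ‖ : ℂ) ^ 2 = 1 := by
      rw [← h6]
      exact (Complex.mul_conj' ζ).symm
    have h8 : ‖ζ‖ ^ 2 = 1 := by exact_mod_cast h7
    nlinarith [norm_nonneg ζ]
  refine ⟨ζ, hζ1, fun h hh => ?_⟩
  -- divisibility
  by_cases hh0 : h = 0
  · simp [hh0]
  have hdm := EuclideanDomain.div_add_mod h f
  have hhN : h.natDegree ≤ N := by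
    have := (mem_K.1 hh).1
    rw [degree_eq_natDegree hh0] at this
    have h2 : h.natDegree < N + 1 := by exact_mod_cast this
    omega
  have hfq : f * (h / f) ∈ K N a := by
    refine mul_mem hT hf _ ?_
    have h1 : (h / f).natDegree = h.natDegree - f.natDegree := by
      have h4 : f.degree + (h / f).degree = h.degree := by
        refine degree_add_div hf0 ?_
        rw [degree_eq_natDegree hf0, degree_eq_natDegree hh0]
        exact_mod_cast hmin h hh hh0
      have h5 : h / f ≠ 0 := by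
        intro h6
        rw [h6, degree_zero, WithBot.add_bot] at h4
        exact hh0 (degree_eq_bot.1 h4.symm)
      rw [degree_eq_natDegree hf0, degree_eq_natDegree hh0, degree_eq_natDegree h5] at h4
      have h7 : f.natDegree + (h / f).natDegree = h.natDegree := by exact_mod_cast h4
      omega
    have h2 := hmin h hh hh0
    rw [h1]
    omega
  have hr : h % f ∈ K N a := by
    have : h % f = h - f * (h / f) := by linear_combination hdm
    rw [this]
    exact Submodule.sub_mem _ hh hfq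
  have hr0 : h % f = 0 := by
    by_contra hne'
    have h1 := hmin _ hr hne'
    have h2 := natDegree_mod_lt h (q := f) (by omega)
    omega
  rw [← hdm, hr0, add_zero, eval_mul]
  rw [IsRoot.def.1 hζ, zero_mul]

lemma star_dot_self {n : Type*} [Fintype n] (y : n → ℂ) :
    star y ⬝ᵥ y = ((∑ i, ‖y i‖ ^ 2 : ℝ) : ℂ) := by
  simp only [dotProduct, Pi.star_apply]
  push_cast
  refine Finset.sum_congr rfl fun i _ => ?_
  exact Complex.conj_mul' (y i)

lemma rank_one_form {n : Type*} [Fintype n] (v x : n → ℂ) :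
    star x ⬝ᵥ (vecMulVec v (star v) *ᵥ x) = ((‖star v ⬝ᵥ x‖ ^ 2 : ℝ) : ℂ) := by
  have h1 : vecMulVec v (star v) *ᵥ x = (star v ⬝ᵥ x) • v := by
    ext i
    simp only [mulVec, vecMulVec_apply, dotProduct, Pi.smul_apply, smul_eq_mul]
    rw [Finset.sum_mul]
    refine Finset.sum_congr rfl fun j _ => ?_
    ring
  rw [h1, dotProduct_smul, smul_eq_mul]
  have h2 : star x ⬝ᵥ v = star (star v ⬝ᵥ x) := by
    rw [star_dotProduct]
  rw [h2]
  push_cast
  exact Complex.mul_conj' _

/-- A positive semidefinite matrix dominates a multiple of each rank one matrix whose vector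
is orthogonal to the kernel. -/
lemma exists_dominated {n : Type*} [Fintype n] [DecidableEq n] {T : Matrix n n ℂ}
    (hT : T.PosSemidef) (v : n → ℂ) (hv : ∀ x, T *ᵥ x = 0 → star v ⬝ᵥ x = 0) :
    ∃ s : ℝ, 0 < s ∧ (T - (s : ℂ) • vecMulVec v (star v)).PosSemidef := by
  obtain ⟨B, hB⟩ : ∃ B : Matrix n n ℂ, T = Bᴴ * B := by
    open scoped MatrixOrder in
    exact CStarAlgebra.nonneg_iff_eq_star_mul_self.1 hT.nonneg
  let φ : (n → ℂ) →ₗ[ℂ] ℂ :=
    { toFun := fun x => star v ⬝ᵥ x
      map_add' := fun x y => dotProduct_add _ _ _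
      map_smul' := fun c x => dotProduct_smul _ _ _ }
  have hφ : φ ∈ LinearMap.range (B.mulVecLin).dualMap := by
    rw [LinearMap.range_dualMap_eq_dualAnnihilator_ker, Submodule.mem_dualAnnihilator]
    intro x hx
    have hx' : B *ᵥ x = 0 := by simpa using hx
    refine hv x ?_
    rw [hB, ← mulVec_mulVec, hx', mulVec_zero]
  obtain ⟨g, hg⟩ := hφ
  have hgx : ∀ x, star v ⬝ᵥ x = g (B *ᵥ x) := by
    intro x
    have := LinearMap.congr_fun hg x
    simpa [φ] using this.symm
  set C : ℝ := ∑ i, ‖g (Pi.single i 1)‖ ^ 2 with hC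
  have hC0 : 0 ≤ C := Finset.sum_nonneg fun i _ => by positivity
  have hbound : ∀ y : n → ℂ, ‖g y‖ ^ 2 ≤ C * ∑ i, ‖y i‖ ^ 2 := by
    intro y
    have h1 : g y = ∑ i, y i * g (Pi.single i 1) := by
      conv_lhs => rw [LinearMap.pi_apply_eq_sum_univ g y]
      refine Finset.sum_congr rfl fun i _ => ?_
      rw [smul_eq_mul]
      congr 2
      ext j
      simp [Pi.single_apply, eq_comm]
    have h2 : ‖g y‖ ≤ ∑ i, ‖g (Pi.single i 1)‖ * ‖y i‖ := by
      rw [h1]
      refine (norm_sum_le _ _).trans (le_of_eq ?_)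
      refine Finset.sum_congr rfl fun i _ => ?_
      rw [norm_mul, mul_comm]
    calc ‖g y‖ ^ 2 ≤ (∑ i, ‖g (Pi.single i 1)‖ * ‖y i‖) ^ 2 := by
          gcongr
      _ ≤ _ := Finset.sum_mul_sq_le_sq_mul_sq _ _ _
  refine ⟨1 / (C + 1), by positivity, ?_⟩
  refine Matrix.PosSemidef.of_dotProduct_mulVec_nonneg ?_ fun x => ?_
  · have h1 : (vecMulVec v (star v)).IsHermitian := by
      ext i j
      simp [vecMulVec_apply, mul_comm]
    have h2 : ((((1 / (C + 1) : ℝ)) : ℂ) • vecMulVec v (star v)).IsHermitian := by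
      rw [Matrix.IsHermitian, conjTranspose_smul, h1.eq]
      congr 1
      exact Complex.conj_ofReal _
    exact hT.isHermitian.sub h2
  · rw [sub_mulVec, dotProduct_sub, smul_mulVec, dotProduct_smul, rank_one_form]
    have h3 : star x ⬝ᵥ (T *ᵥ x) = ((∑ i, ‖(B *ᵥ x) i‖ ^ 2 : ℝ) : ℂ) := by
      rw [← star_dot_self, hB, ← mulVec_mulVec, star_mulVec, dotProduct_mulVec]
    rw [h3, hgx, smul_eq_mul, ← Complex.ofReal_mul, ← Complex.ofReal_sub]
    rw [Complex.zero_le_real]
    have h4 := hbound (B *ᵥ x)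
    have h5 : 1 / (C + 1) * ‖g (B *ᵥ x)‖ ^ 2 ≤ ∑ i, ‖(B *ᵥ x) i‖ ^ 2 := by
      rw [div_mul_eq_mul_div, one_mul, div_le_iff₀ (by positivity)]
      have h6 : 0 ≤ ∑ i, ‖(B *ᵥ x) i‖ ^ 2 := Finset.sum_nonneg fun i _ => by positivity
      nlinarith
    linarith

/-- A nonzero positive semidefinite Toeplitz matrix dominates a multiple of the Toeplitz
matrix of a point mass. -/
theorem exists_atom {a : ℤ → ℂ} (hT : (toepM N a).PosSemidef) (hne : toepM N a ≠ 0) :
    ∃ ζ : ℂ, ‖ζ‖ = 1 ∧ ∃ s : ℝ, 0 < s ∧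
      (toepM N (fun n => a n - (s : ℂ) * ζ ^ (-n))).PosSemidef := by
  obtain ⟨ζ, hζ, hroot⟩ := exists_common_root hT hne
  have hζ0 : ζ ≠ 0 := by
    rintro rfl
    simp at hζ
  have hconj : star ζ = ζ⁻¹ := by
    rw [Complex.inv_def]
    simp [Complex.normSq_eq_norm_sq, hζ]
  obtain ⟨s, hs, hP⟩ := exists_dominated hT (fun i : Fin (N + 1) => ζ⁻¹ ^ (i : ℕ)) (by
    intro x hx
    obtain ⟨f, hf, rfl⟩ := toVec_surj x
    have h1 := hroot f (mem_K.2 ⟨hf, hx⟩)
    rw [eval_eq_sum_range' (n := N + 1)] at h1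
    · rw [dotProduct, ← h1, Finset.sum_range]
      refine Finset.sum_congr rfl fun i _ => ?_
      simp only [Pi.star_apply, toVec_apply, star_pow]
      rw [← hconj, star_star, mul_comm]
    · by_cases h0 : f = 0
      · simp [h0]
      rw [degree_eq_natDegree h0] at hf
      exact_mod_cast hf)
  refine ⟨ζ, hζ, s, hs, ?_⟩
  convert hP using 1
  ext j k
  simp only [toepM, Matrix.of_apply, Matrix.sub_apply, Matrix.smul_apply, vecMulVec_apply,
    Pi.star_apply, star_pow, smul_eq_mul]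
  rw [← hconj, star_star, hconj]
  congr 2
  rw [neg_sub, zpow_sub₀ hζ0, zpow_natCast, zpow_natCast, inv_pow, mul_comm, div_eq_mul_inv]

end Pool.Agent.R158.ToepAtom
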