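import Mathlib
import Pool.Agent.R158.ToepAtom

/-!
# Operator norms of Hermitian matrices through quadratic forms
-/

open Matrix
open scoped ComplexOrder

namespace Pool.Agent.R158.MMBasic

lemma norm_le_of_form {E : Type*} [NormedAddCommGroup E] [InnerProductSpace ℂ E]
    (L : E →L[ℂ] E) (hsym : ∀ x y, inner ℂ (L x) y = inner ℂ x (L y)) (M : ℝ) (hM : 0 ≤ M)
    (h : ∀ x, |(inner ℂ (L x) x).re| ≤ M * ‖x‖ ^ 2) : ‖L‖ ≤ M := by
  refine L.opNorm_le_bound hM fun x => ?_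
  by_cases hx : x = 0
  · simp [hx]
  by_cases hLx : L x = 0
  · rw [hLx, norm_zero]; positivity
  have hx' : 0 < ‖x‖ := norm_pos_iff.2 hx
  have hL' : 0 < ‖L x‖ := norm_pos_iff.2 hLx
  set t : ℝ := ‖x‖ / ‖L x‖ with ht
  have htpos : 0 < t := div_pos hx' hL'
  set y : E := (t : ℂ) • L x with hy
  have hny : ‖y‖ = ‖x‖ := by
    rw [hy, norm_smul, Complex.norm_real, Real.norm_eq_abs, abs_of_pos htpos, ht]
    field_simp
  have h1 := h (x + y)
  have h2 := h (x - y)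
  have h3 : (inner ℂ (L x) y).re = t * ‖L x‖ ^ 2 := by
    rw [hy, inner_smul_right, inner_self_eq_norm_sq_to_K]
    have : (t : ℂ) * ((‖L x‖ : ℂ)) ^ 2 = ((t * ‖L x‖ ^ 2 : ℝ) : ℂ) := by push_cast; ring
    have h4 : ((‖L x‖ : ℝ) : ℂ) = (‖L x‖ : ℂ) := rfl
    change ((t : ℂ) * ((‖L x‖ : ℂ)) ^ 2).re = _
    rw [this, Complex.ofReal_re]
  have h4 : (inner ℂ (L y) x).re = (inner ℂ (L x) y).re := by
    rw [hsym y x, ← inner_conj_symm]
    exact Complex.conj_re _
  have h5 : (inner ℂ (L (x + y)) (x + y)).re - (inner ℂ (L (x - y)) (x - y)).re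
      = 4 * (inner ℂ (L x) y).re := by
    simp only [map_add, map_sub, inner_add_left, inner_add_right, inner_sub_left, inner_sub_right,
      Complex.add_re, Complex.sub_re]
    rw [h4]; ring
  have h6 : ‖x + y‖ ^ 2 + ‖x - y‖ ^ 2 = 4 * ‖x‖ ^ 2 := by
    have := parallelogram_law_with_norm ℂ x y
    rw [hny] at this
    nlinarith
  have h7 : 4 * (t * ‖L x‖ ^ 2) ≤ M * (4 * ‖x‖ ^ 2) := by
    rw [← h3, ← h5, ← h6]
    have e1 := le_abs_self (inner ℂ (L (x + y)) (x + y)).re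
    have e2 := neg_abs_le (inner ℂ (L (x - y)) (x - y)).re
    nlinarith
  have h8 : t * ‖L x‖ ^ 2 = ‖x‖ * ‖L x‖ := by
    rw [ht]; field_simp
  rw [h8] at h7
  have : ‖x‖ * ‖L x‖ ≤ ‖x‖ * (M * ‖x‖) := by nlinarith
  exact le_of_mul_le_mul_left this hx'

variable {n : Type*} [Fintype n] [DecidableEq n]

/-- the operator norm of a matrix on Euclidean space -/
noncomputable def opNorm (A : Matrix n n ℂ) : ℝ := ‖Matrix.toEuclideanCLM (n := n) (𝕜 := ℂ) A‖

lemma inner_eq (A : Matrix n n ℂ) (x : EuclideanSpace ℂ n) :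
    inner ℂ x (Matrix.toEuclideanCLM (n := n) (𝕜 := ℂ) A x)
      = star (WithLp.ofLp x) ⬝ᵥ (A *ᵥ (WithLp.ofLp x)) := by
  rw [EuclideanSpace.inner_eq_star_dotProduct, dotProduct_comm]
  rfl

lemma sym_of_herm {A : Matrix n n ℂ} (hA : A.IsHermitian) (x y : EuclideanSpace ℂ n) :
    inner ℂ (Matrix.toEuclideanCLM (n := n) (𝕜 := ℂ) A x) y
      = inner ℂ x (Matrix.toEuclideanCLM (n := n) (𝕜 := ℂ) A y) := by
  rw [EuclideanSpace.inner_eq_star_dotProduct, EuclideanSpace.inner_eq_star_dotProduct]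
  change (WithLp.ofLp y) ⬝ᵥ star (A *ᵥ (WithLp.ofLp x)) = (A *ᵥ (WithLp.ofLp y)) ⬝ᵥ star (WithLp.ofLp x)
  rw [star_mulVec, hA.eq, dotProduct_comm, ← dotProduct_mulVec, dotProduct_comm]

lemma norm_sq_eq (x : EuclideanSpace ℂ n) :
    star (WithLp.ofLp x) ⬝ᵥ (WithLp.ofLp x) = ((‖x‖ ^ 2 : ℝ) : ℂ) := by
  rw [ToepAtom.star_dot_self, EuclideanSpace.norm_sq_eq]

lemma posSemidef_add {A : Matrix n n ℂ} (hA : A.IsHermitian) :
    ((opNorm A : ℂ) • (1 : Matrix n n ℂ) + A).PosSemidef := by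
  refine Matrix.PosSemidef.of_dotProduct_mulVec_nonneg ?_ fun x => ?_
  · have : ((opNorm A : ℂ) • (1 : Matrix n n ℂ)).IsHermitian := by
      rw [Matrix.IsHermitian, conjTranspose_smul, conjTranspose_one]
      congr 1
      exact Complex.conj_ofReal _
    exact this.add hA
  · rw [add_mulVec, dotProduct_add, smul_mulVec, one_mulVec, dotProduct_smul, smul_eq_mul]
    have h1 := norm_sq_eq (WithLp.toLp 2 x)
    have h2 := inner_eq A (WithLp.toLp 2 x)
    simp only at h1 h2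
    rw [h1, ← h2]
    set z := inner ℂ (WithLp.toLp 2 x) (Matrix.toEuclideanCLM (n := n) (𝕜 := ℂ) A (WithLp.toLp 2 x))
      with hz
    have h3 : z = ((z.re : ℝ) : ℂ) := by
      have : (starRingEnd ℂ) z = z := by
        rw [hz, inner_conj_symm, sym_of_herm hA]
      exact (Complex.conj_eq_iff_re.1 this).symm
    rw [h3, ← Complex.ofReal_mul, ← Complex.ofReal_add, Complex.zero_le_real]
    have h4 : |z.re| ≤ opNorm A * ‖WithLp.toLp 2 x‖ ^ 2 := by
      calc |z.re| ≤ ‖z‖ := Complex.abs_re_le_norm z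
        _ ≤ ‖WithLp.toLp 2 x‖ * ‖Matrix.toEuclideanCLM (n := n) (𝕜 := ℂ) A (WithLp.toLp 2 x)‖ :=
            norm_inner_le_norm _ _
        _ ≤ ‖WithLp.toLp 2 x‖ * (opNorm A * ‖WithLp.toLp 2 x‖) := by
            gcongr
            exact (Matrix.toEuclideanCLM (n := n) (𝕜 := ℂ) A).le_opNorm _
        _ = _ := by ring
    have := neg_abs_le z.re
    linarith

lemma opNorm_neg (A : Matrix n n ℂ) : opNorm (-A) = opNorm A := by
  unfold opNorm
  rw [map_neg, norm_neg]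

lemma posSemidef_sub {A : Matrix n n ℂ} (hA : A.IsHermitian) :
    ((opNorm A : ℂ) • (1 : Matrix n n ℂ) - A).PosSemidef := by
  have := posSemidef_add hA.neg
  rwa [opNorm_neg, ← sub_eq_add_neg] at this

lemma opNorm_le {A : Matrix n n ℂ} (hA : A.IsHermitian) {M : ℝ} (hM : 0 ≤ M)
    (h1 : ((M : ℂ) • (1 : Matrix n n ℂ) + A).PosSemidef)
    (h2 : ((M : ℂ) • (1 : Matrix n n ℂ) - A).PosSemidef) : opNorm A ≤ M := by
  refine norm_le_of_form _ (sym_of_herm hA) M hM fun x => ?_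
  have e1 := h1.dotProduct_mulVec_nonneg (WithLp.ofLp x)
  have e2 := h2.dotProduct_mulVec_nonneg (WithLp.ofLp x)
  rw [add_mulVec, dotProduct_add, smul_mulVec, one_mulVec, dotProduct_smul, smul_eq_mul,
    norm_sq_eq, ← inner_eq, ← sym_of_herm hA] at e1
  rw [sub_mulVec, dotProduct_sub, smul_mulVec, one_mulVec, dotProduct_smul, smul_eq_mul,
    norm_sq_eq, ← inner_eq, ← sym_of_herm hA] at e2
  set z := inner ℂ (Matrix.toEuclideanCLM (n := n) (𝕜 := ℂ) A x) x with hz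
  rw [← Complex.ofReal_mul] at e1 e2
  have e3 := (Complex.le_def.1 e1).1
  have e4 := (Complex.le_def.1 e2).1
  simp only [Complex.zero_re, Complex.add_re, Complex.sub_re, Complex.ofReal_re] at e3 e4
  rw [abs_le]
  constructor <;> linarith

lemma opNorm_nonneg (A : Matrix n n ℂ) : 0 ≤ opNorm A := norm_nonneg _

lemma opNorm_pos {A : Matrix n n ℂ} (hA : A ≠ 0) : 0 < opNorm A := by
  unfold opNorm
  rw [norm_pos_iff]
  simpa using hA

lemma norm_entry_le (A : Matrix n n ℂ) (i j : n) : ‖A i j‖ ≤ opNorm A := by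
  have h1 := (Matrix.toEuclideanCLM (n := n) (𝕜 := ℂ) A).le_opNorm (EuclideanSpace.single j 1)
  rw [EuclideanSpace.norm_single, norm_one, mul_one] at h1
  refine le_trans ?_ h1
  have h2 : A i j = (Matrix.toEuclideanCLM (n := n) (𝕜 := ℂ) A (EuclideanSpace.single j 1)) i := by
    simp
  rw [h2]
  exact PiLp.norm_apply_le _ i

lemma opNorm_smul_one [Nonempty n] (κ : ℂ) : opNorm (κ • (1 : Matrix n n ℂ)) = ‖κ‖ := by
  unfold opNorm
  rw [map_smul, map_one, norm_smul, norm_one, mul_one]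

end Pool.Agent.R158.MMBasic
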