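import Mathlib
import Pool.Agent.R158.MMBasic

/-!
# Trigonometric polynomials on the circle and the key perturbation
-/

open MeasureTheory AddCircle Matrix
open scoped ComplexOrder ENNReal

namespace Pool.Agent.R158.MMCircle

open ToepAtom MMBasic

/-- normalised Lebesgue measure on the circle `ℝ / ℤ` -/
noncomputable abbrev μ : Measure UnitAddCircle := haarAddCircle

/-- trigonometric polynomials of degree at most `N` -/
noncomputable def Lam (N : ℕ) : Submodule ℂ C(UnitAddCircle, ℂ) :=
  Submodule.span ℂ {g | ∃ n : ℤ, |n| ≤ N ∧ g = fourier n}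

lemma fourier_mem {N : ℕ} {n : ℤ} (hn : |n| ≤ N) : (fourier n : C(UnitAddCircle, ℂ)) ∈ Lam N :=
  Submodule.subset_span ⟨n, hn, rfl⟩

lemma Lam_mono {a b : ℕ} (h : a ≤ b) : Lam a ≤ Lam b := by
  refine Submodule.span_mono ?_
  rintro g ⟨n, hn, rfl⟩
  exact ⟨n, hn.trans (by exact_mod_cast h), rfl⟩

lemma one_mem (N : ℕ) : (1 : C(UnitAddCircle, ℂ)) ∈ Lam N := by
  have : (1 : C(UnitAddCircle, ℂ)) = fourier 0 := by
    ext x; simp
  rw [this]
  exact fourier_mem (by simp)

lemma mul_mem {a b : ℕ} {p q : C(UnitAddCircle, ℂ)} (hp : p ∈ Lam a) (hq : q ∈ Lam b) :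
    p * q ∈ Lam (a + b) := by
  have h1 : p * q ∈ Lam a * Lam b := Submodule.mul_mem_mul hp hq
  refine (?_ : Lam a * Lam b ≤ Lam (a + b)) h1
  unfold Lam
  rw [Submodule.span_mul_span, Submodule.span_le]
  rintro _ ⟨_, ⟨m, hm, rfl⟩, _, ⟨n, hn, rfl⟩, rfl⟩
  have h2 : (fourier m : C(UnitAddCircle, ℂ)) * fourier n = fourier (m + n) := by
    ext x
    rw [ContinuousMap.mul_apply, fourier_add]
  change (fourier m : C(UnitAddCircle, ℂ)) * fourier n ∈ _
  rw [h2]
  refine fourier_mem ?_
  have := abs_add_le m n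
  push_cast
  linarith

lemma volume_eq : (volume : Measure UnitAddCircle) = μ := by
  rw [AddCircle.volume_eq_smul_haarAddCircle]
  simp

lemma singleton_null (y : UnitAddCircle) : μ {y} = 0 := by
  rw [← volume_eq]
  by_contra hne
  obtain ⟨ε, hε, hε'⟩ : ∃ ε : ℝ, 0 < ε ∧ ENNReal.ofReal ε < volume ({y} : Set UnitAddCircle) := by
    have hpos : 0 < volume ({y} : Set UnitAddCircle) := pos_iff_ne_zero.2 hne
    obtain ⟨r, hr0, hr⟩ := ENNReal.lt_iff_exists_real_btwn.1 hpos
    refine ⟨r, ?_, hr.2⟩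
    exact ENNReal.ofReal_pos.1 hr.1
  have h1 : volume ({y} : Set UnitAddCircle) ≤ volume (Metric.closedBall y (ε / 2)) :=
    measure_mono (by
      rw [Set.singleton_subset_iff]
      exact Metric.mem_closedBall_self (by positivity))
  rw [AddCircle.volume_closedBall] at h1
  have h2 : ENNReal.ofReal (min 1 (2 * (ε / 2))) ≤ ENNReal.ofReal ε := by
    apply ENNReal.ofReal_le_ofReal
    exact (min_le_right _ _).trans (by linarith)
  exact absurd (lt_of_lt_of_le hε' (h1.trans h2)) (lt_irrefl _)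

lemma finite_null {S : Set UnitAddCircle} (hS : S.Finite) : μ S = 0 := by
  have : S = ⋃ y ∈ S, {y} := by simp
  rw [this, measure_biUnion_null_iff hS.countable]
  exact fun y _ => singleton_null y

/-- A functional identity on trigonometric polynomials. -/
lemma integral_identity {N : ℕ} {f g : UnitAddCircle → ℂ} (hf : Integrable f μ)
    (hg : Integrable g μ) (s : ℂ) (z : UnitAddCircle)
    (h : ∀ n : ℤ, |n| ≤ N → fourierCoeff f n = fourierCoeff g n - s * fourier (-n) z)
    {p : C(UnitAddCircle, ℂ)} (hp : p ∈ Lam N) :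
    ∫ y, f y * p y ∂μ = ∫ y, g y * p y ∂μ - s * p z := by
  have hint : ∀ (u : UnitAddCircle → ℂ) (hu : Integrable u μ) (q : C(UnitAddCircle, ℂ)),
      Integrable (fun y => u y * q y) μ := by
    intro u hu q
    exact hu.mul_bdd (c := ‖q‖) q.continuous.aestronglyMeasurable
      (Filter.Eventually.of_forall fun y => q.norm_coe_le_norm y)
  induction hp using Submodule.span_induction with
  | mem x hx =>
    obtain ⟨n, hn, rfl⟩ := hx
    have h1 := h (-n) (by rwa [abs_neg])
    unfold fourierCoeff at h1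
    simp only [neg_neg, smul_eq_mul] at h1
    simp only [mul_comm (f _), mul_comm (g _)]
    exact h1
  | zero => simp
  | add p q _ _ hp hq =>
    simp only [ContinuousMap.add_apply, mul_add]
    rw [integral_add (hint f hf p) (hint f hf q), integral_add (hint g hg p) (hint g hg q), hp, hq]
    ring
  | smul c p _ hp =>
    simp only [ContinuousMap.smul_apply, smul_eq_mul]
    simp only [mul_left_comm _ c]
    rw [integral_const_mul, integral_const_mul, hp]
    ring

/-- essential supremum norm -/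
noncomputable def supNorm (f : UnitAddCircle → ℂ) : ℝ := (eLpNorm f ⊤ μ).toReal

/-- the least sup norm of a bounded function with prescribed Fourier coefficients -/
noncomputable def minNorm (N : ℕ) (a : ℤ → ℂ) : ℝ :=
  sInf {r | ∃ f : UnitAddCircle → ℂ, MemLp f ⊤ μ ∧
    (∀ n : ℤ, |n| ≤ (N : ℤ) → fourierCoeff f n = a n) ∧ supNorm f = r}

lemma supNorm_nonneg (f : UnitAddCircle → ℂ) : 0 ≤ supNorm f := ENNReal.toReal_nonneg

lemma ae_le_supNorm {f : UnitAddCircle → ℂ} (hf : MemLp f ⊤ μ) : ∀ᵐ y ∂μ, ‖f y‖ ≤ supNorm f := by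
  have h1 := ae_le_eLpNormEssSup (f := f) (μ := μ)
  filter_upwards [h1] with y hy
  have h2 : eLpNorm f ⊤ μ ≠ ⊤ := hf.2.ne
  have h3 : ‖f y‖ₑ ≤ eLpNorm f ⊤ μ := by
    rw [eLpNorm_exponent_top]; exact hy
  have h4 := (ENNReal.toReal_le_toReal (by simp) h2).2 h3
  rw [toReal_enorm] at h4
  exact h4

lemma supNorm_le {f : UnitAddCircle → ℂ} {C : ℝ} (hC : 0 ≤ C) (h : ∀ᵐ y ∂μ, ‖f y‖ ≤ C) :
    supNorm f ≤ C := by
  unfold supNorm
  have h1 : eLpNorm f ⊤ μ ≤ ENNReal.ofReal C := by
    rw [eLpNorm_exponent_top]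
    exact eLpNormEssSup_le_of_ae_bound h
  exact ENNReal.toReal_le_of_le_ofReal hC h1

/-- the trigonometric polynomial with given coefficients -/
noncomputable def trig (N : ℕ) (a : ℤ → ℂ) : UnitAddCircle → ℂ :=
  ∑ n ∈ Finset.Icc (-(N : ℤ)) N, a n • ⇑(fourier n : C(UnitAddCircle, ℂ))

lemma trig_bound (N : ℕ) (a : ℤ → ℂ) (y : UnitAddCircle) :
    ‖trig N a y‖ ≤ ∑ n ∈ Finset.Icc (-(N : ℤ)) N, ‖a n‖ := by
  unfold trig
  rw [Finset.sum_apply]
  refine (norm_sum_le _ _).trans (Finset.sum_le_sum fun n _ => ?_)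
  rw [Pi.smul_apply, norm_smul]
  have : ‖(fourier n : C(UnitAddCircle, ℂ)) y‖ ≤ 1 := by
    rw [fourier_apply, Circle.norm_coe]
  calc ‖a n‖ * ‖(fourier n : C(UnitAddCircle, ℂ)) y‖ ≤ ‖a n‖ * 1 := by gcongr
    _ = ‖a n‖ := mul_one _

lemma trig_continuous (N : ℕ) (a : ℤ → ℂ) : Continuous (trig N a) := by
  have h : trig N a = fun y => ∑ n ∈ Finset.Icc (-(N : ℤ)) N,
      a n * (fourier n : C(UnitAddCircle, ℂ)) y := by
    ext y
    simp [trig, Finset.sum_apply]
  rw [h]
  refine continuous_finsetSum _ fun n _ => ?_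
  exact continuous_const.mul (fourier n : C(UnitAddCircle, ℂ)).continuous

lemma trig_memLp (N : ℕ) (a : ℤ → ℂ) : MemLp (trig N a) ⊤ μ :=
  memLp_top_of_bound (trig_continuous N a).aestronglyMeasurable _
    (Filter.Eventually.of_forall (trig_bound N a))

lemma trig_coeff (N : ℕ) (a : ℤ → ℂ) {n : ℤ} (hn : |n| ≤ (N : ℤ)) :
    fourierCoeff (trig N a) n = a n := by
  unfold trig
  rw [fourierCoeff.sum]
  · rw [Finset.sum_apply, Finset.sum_eq_single n]
    · rw [fourierCoeff.const_smul, fourierCoeff_fourier]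
      simp
    · intro m _ hm
      rw [fourierCoeff.const_smul, fourierCoeff_fourier]
      simp [hm.symm]
    · intro h
      exfalso
      apply h
      rw [Finset.mem_Icc]
      exact abs_le.1 hn
  · intro m _
    have : MemLp (a m • ⇑(fourier m : C(UnitAddCircle, ℂ))) ⊤ μ := by
      refine MemLp.const_smul ?_ _
      refine memLp_top_of_bound (fourier m : C(UnitAddCircle, ℂ)).continuous.aestronglyMeasurable 1 ?_
      refine Filter.Eventually.of_forall fun y => ?_
      rw [fourier_apply, Circle.norm_coe]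
    exact this.integrable le_top

lemma minNorm_set_nonempty (N : ℕ) (a : ℤ → ℂ) :
    {r | ∃ f : UnitAddCircle → ℂ, MemLp f ⊤ μ ∧
      (∀ n : ℤ, |n| ≤ (N : ℤ) → fourierCoeff f n = a n) ∧ supNorm f = r}.Nonempty :=
  ⟨_, trig N a, trig_memLp N a, fun _ hn => trig_coeff N a hn, rfl⟩

lemma minNorm_le (N : ℕ) (a : ℤ → ℂ) {f : UnitAddCircle → ℂ} (hf : MemLp f ⊤ μ)
    (h : ∀ n : ℤ, |n| ≤ (N : ℤ) → fourierCoeff f n = a n) : minNorm N a ≤ supNorm f := by
  refine csInf_le ⟨0, ?_⟩ ⟨f, hf, h, rfl⟩
  rintro _ ⟨g, _, _, rfl⟩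
  exact supNorm_nonneg g

lemma minNorm_nonneg (N : ℕ) (a : ℤ → ℂ) : 0 ≤ minNorm N a := by
  refine Real.sInf_nonneg ?_
  rintro _ ⟨g, _, _, rfl⟩
  exact supNorm_nonneg g

/-- the ratio is bounded -/
lemma minNorm_le_opNorm (N : ℕ) (a : ℤ → ℂ) :
    minNorm N a ≤ (2 * N + 1) * opNorm (toepM N a) := by
  have h1 := minNorm_le N a (trig_memLp N a) (fun _ hn => trig_coeff N a hn)
  refine h1.trans ?_
  have h2 : supNorm (trig N a) ≤ ∑ n ∈ Finset.Icc (-(N : ℤ)) N, ‖a n‖ :=
    supNorm_le (Finset.sum_nonneg fun _ _ => norm_nonneg _)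
      (Filter.Eventually.of_forall (trig_bound N a))
  refine h2.trans ?_
  have h3 : ∀ n ∈ Finset.Icc (-(N : ℤ)) N, ‖a n‖ ≤ opNorm (toepM N a) := by
    intro n hn
    rw [Finset.mem_Icc] at hn
    rcases le_total 0 n with h0 | h0
    · have := norm_entry_le (toepM N a) ⟨n.toNat, by omega⟩ ⟨0, by omega⟩
      simp only [toepM, Matrix.of_apply] at this
      have e : ((n.toNat : ℕ) : ℤ) - ((0 : ℕ) : ℤ) = n := by omega
      rw [e] at this
      exact this
    · have := norm_entry_le (toepM N a) ⟨0, by omega⟩ ⟨(-n).toNat, by omega⟩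
      simp only [toepM, Matrix.of_apply] at this
      have e : ((0 : ℕ) : ℤ) - (((-n).toNat : ℕ) : ℤ) = n := by omega
      rw [e] at this
      exact this
  refine (Finset.sum_le_card_nsmul _ _ _ h3).trans ?_
  rw [Int.card_Icc, nsmul_eq_mul]
  have : ((N : ℤ) + 1 - -(N : ℤ)).toNat = 2 * N + 1 := by omega
  rw [this]
  push_cast
  exact le_rfl

lemma exists_point {ζ : ℂ} (hζ : ‖ζ‖ = 1) :
    ∃ z : UnitAddCircle, ∀ n : ℤ, (fourier n : C(UnitAddCircle, ℂ)) z = ζ ^ n := by
  refine ⟨((Complex.arg ζ / (2 * Real.pi) : ℝ) : UnitAddCircle), fun n => ?_⟩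
  rw [fourier_coe_apply]
  have h1 : ζ = Complex.exp (Complex.arg ζ * Complex.I) := by
    have := Complex.norm_mul_exp_arg_mul_I ζ
    rw [hζ, Complex.ofReal_one, one_mul] at this
    exact this.symm
  conv_rhs => rw [h1]
  rw [← Complex.exp_int_mul]
  congr 1
  push_cast
  have : (Real.pi : ℂ) ≠ 0 := by exact_mod_cast Real.pi_ne_zero
  field_simp

lemma rank_one_toep (N : ℕ) {ζ : ℂ} (hζ : ‖ζ‖ = 1) :
    (toepM N (fun n => ζ ^ (-n))).PosSemidef := by
  have hζ0 : ζ ≠ 0 := by
    rintro rfl
    simp at hζ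
  have hconj : star ζ = ζ⁻¹ := by
    rw [Complex.inv_def]
    simp [Complex.normSq_eq_norm_sq, hζ]
  have h := Matrix.posSemidef_vecMulVec_self_star (fun i : Fin (N + 1) => ζ⁻¹ ^ (i : ℕ))
  convert h using 1
  ext j k
  simp only [toepM, Matrix.of_apply, vecMulVec_apply, Pi.star_apply, star_pow]
  rw [← hconj, star_star, hconj]
  rw [neg_sub, zpow_sub₀ hζ0, zpow_natCast, zpow_natCast, inv_pow, mul_comm, div_eq_mul_inv]

/-- the real step function attached to a real function -/
noncomputable def stepOf (c : ℝ) (r : UnitAddCircle → ℝ) (y : UnitAddCircle) : ℝ :=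
  if 0 ≤ r y then c else -c

/-- Key perturbation: a lower bound for the least sup norm after removing an atom. -/
lemma key {N n : ℕ} (hn : n + 1 ≤ N) {c : ℝ} (hc : 0 < c) {ψ : UnitAddCircle → ℂ}
    (hψm : MemLp ψ ⊤ μ)
    {r : UnitAddCircle → ℝ} {P : C(UnitAddCircle, ℂ)} (hP : P ∈ Lam n)
    (hPr : ∀ y, P y = (r y : ℂ)) (hnull : {y | r y = 0}.Finite)
    (hψ : ∀ᵐ y ∂μ, ψ y = (stepOf c r y : ℂ))
    {ζ : ℂ} (hζ : ‖ζ‖ = 1) {s : ℝ} (hs : 0 < s) :
    c < minNorm N (fun k => fourierCoeff ψ k - (s : ℂ) * ζ ^ (-k)) := by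
  obtain ⟨z, hz⟩ := exists_point hζ
  have hz1 : (fourier 1 : C(UnitAddCircle, ℂ)) z = ζ := by simpa using hz 1
  have hζc : star ζ * ζ = 1 := by
    have := Complex.conj_mul' ζ
    rw [hζ] at this
    simpa using this
  have hζc' : ζ * star ζ = 1 := by rw [mul_comm]; exact hζc
  -- the nonnegative trigonometric polynomial vanishing at `z`
  set rq : UnitAddCircle → ℝ := fun y => 1 - (star ζ * (fourier 1 : C(UnitAddCircle, ℂ)) y).re
    with hrq
  set Q : C(UnitAddCircle, ℂ) := 1 - (1 / 2 : ℂ) • (star ζ • fourier 1 + ζ • fourier (-1)) with hQ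
  have hQmem : Q ∈ Lam 1 := by
    refine Submodule.sub_mem _ (one_mem 1) (Submodule.smul_mem _ _ (Submodule.add_mem _ ?_ ?_))
    · exact Submodule.smul_mem _ _ (fourier_mem (by simp))
    · exact Submodule.smul_mem _ _ (fourier_mem (by simp))
  have hQr : ∀ y, Q y = (rq y : ℂ) := by
    intro y
    simp only [hQ, hrq, ContinuousMap.sub_apply, ContinuousMap.one_apply, ContinuousMap.smul_apply,
      ContinuousMap.add_apply, smul_eq_mul]
    rw [fourier_neg]
    set w := star ζ * (fourier 1 : C(UnitAddCircle, ℂ)) y with hw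
    have h1 : ζ * (starRingEnd ℂ) ((fourier 1 : C(UnitAddCircle, ℂ)) y) = (starRingEnd ℂ) w := by
      rw [hw, map_mul]
      congr 1
      exact (Complex.conj_conj ζ).symm
    rw [h1, Complex.add_conj]
    push_cast
    ring
  have hnorm1 : ∀ y, ‖star ζ * (fourier 1 : C(UnitAddCircle, ℂ)) y‖ = 1 := by
    intro y
    rw [norm_mul, norm_star, hζ, fourier_apply, Circle.norm_coe, one_mul]
  have hrq0 : ∀ y, 0 ≤ rq y := by
    intro y
    have := Complex.re_le_norm (star ζ * (fourier 1 : C(UnitAddCircle, ℂ)) y)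
    rw [hnorm1 y] at this
    simp only [hrq]
    linarith
  have hrqz : rq z = 0 := by
    simp only [hrq]
    rw [hz1, hζc, Complex.one_re, sub_self]
  have hrqz' : ∀ y, rq y = 0 → y = z := by
    intro y hy
    simp only [hrq] at hy
    set w := star ζ * (fourier 1 : C(UnitAddCircle, ℂ)) y with hw
    have h1 : w.re = 1 := by linarith
    have h2 : w = 1 := by
      have h3 : w.re ^ 2 + w.im ^ 2 = 1 := by
        have := Complex.sq_norm w
        rw [hnorm1 y, Complex.normSq_apply] at this
        nlinarith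
      have h4 : w.im = 0 := by
        rw [h1] at h3
        nlinarith
      exact Complex.ext (by simp [h1]) (by simp [h4])
    have h5 : (fourier 1 : C(UnitAddCircle, ℂ)) y = (fourier 1 : C(UnitAddCircle, ℂ)) z := by
      rw [hz1]
      calc (fourier 1 : C(UnitAddCircle, ℂ)) y = (ζ * star ζ) * (fourier 1 : C(UnitAddCircle, ℂ)) y := by
            rw [hζc', one_mul]
        _ = ζ * w := by rw [hw]; ring
        _ = ζ := by rw [h2, mul_one]
    rw [fourier_one, fourier_one] at h5
    exact AddCircle.injective_toCircle one_ne_zero (Circle.ext h5)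
  set R : UnitAddCircle → ℝ := fun y => r y * rq y with hR
  have hPQmem : P * Q ∈ Lam N := Lam_mono hn (mul_mem hP hQmem)
  have hPQ : ∀ y, (P * Q) y = (R y : ℂ) := by
    intro y
    rw [ContinuousMap.mul_apply, hPr, hQr, ← Complex.ofReal_mul]
  have hRcont : Continuous R := by
    have : R = fun y => ((P * Q) y).re := by
      ext y
      rw [hPQ, Complex.ofReal_re]
    rw [this]
    exact Complex.continuous_re.comp (P * Q).continuous
  have hrcont : Continuous r := by
    have : r = fun y => (P y).re := by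
      ext y
      rw [hPr, Complex.ofReal_re]
    rw [this]
    exact Complex.continuous_re.comp P.continuous
  have hRnull : μ {y | R y = 0} = 0 := by
    refine finite_null ((hnull.union (Set.finite_singleton z)).subset ?_)
    intro y hy
    rcases mul_eq_zero.1 hy with h | h
    · exact Or.inl h
    · exact Or.inr (hrqz' y h)
  -- choose `t`
  obtain ⟨t, ht, htE⟩ : ∃ t : ℝ, 0 < t ∧ μ {y | |R y| < t} < ENNReal.ofReal (s / (2 * c)) := by
    set E : ℕ → Set UnitAddCircle := fun k => {y | |R y| < 1 / ((k : ℝ) + 1)} with hE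
    have hmeas : ∀ k, MeasurableSet (E k) := fun k =>
      (isOpen_lt (hRcont.abs) continuous_const).measurableSet
    have hanti : Antitone E := by
      intro a b hab y hy
      simp only [hE, Set.mem_ofPred_eq] at hy ⊢
      refine lt_of_lt_of_le hy ?_
      have : (a : ℝ) ≤ b := by exact_mod_cast hab
      gcongr
    have hlim := tendsto_measure_iInter_atTop (μ := μ) (fun k => (hmeas k).nullMeasurableSet) hanti
      ⟨0, measure_ne_top _ _⟩
    have hinter : ⋂ k, E k = {y | R y = 0} := by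
      ext y
      simp only [hE, Set.mem_iInter, Set.mem_ofPred_eq]
      constructor
      · intro h
        by_contra hne
        have hpos : 0 < |R y| := abs_pos.2 hne
        obtain ⟨k, hk⟩ := exists_nat_one_div_lt hpos
        exact absurd (h k) (not_lt.2 hk.le)
      · intro h k
        rw [h, abs_zero]
        positivity
    rw [hinter, hRnull] at hlim
    have hpos : (0 : ℝ≥0∞) < ENNReal.ofReal (s / (2 * c)) := ENNReal.ofReal_pos.2 (by positivity)
    obtain ⟨k, hk⟩ := (hlim.eventually (gt_mem_nhds hpos)).exists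
    exact ⟨1 / ((k : ℝ) + 1), by positivity, hk⟩
  set E : Set UnitAddCircle := {y | |R y| < t} with hE
  have hEmeas : MeasurableSet E := (isOpen_lt (hRcont.abs) continuous_const).measurableSet
  set m : ℝ := (μ E).toReal with hm
  have hm' : 2 * c * m < s := by
    have h1 : m < s / (2 * c) := by
      rw [hm]
      exact (ENNReal.lt_ofReal_iff_toReal_lt (measure_ne_top _ _)).1 htE
    rw [lt_div_iff₀ (by positivity)] at h1
    linarith
  set rt : UnitAddCircle → ℝ := fun y => R y - t with hrt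
  set Pt : C(UnitAddCircle, ℂ) := P * Q - (t : ℂ) • 1 with hPt
  have hPtmem : Pt ∈ Lam N := Submodule.sub_mem _ hPQmem (Submodule.smul_mem _ _ (one_mem N))
  have hPtr : ∀ y, Pt y = (rt y : ℂ) := by
    intro y
    rw [hPt, ContinuousMap.sub_apply, hPQ, ContinuousMap.smul_apply, ContinuousMap.one_apply]
    simp [hrt]
  have hrtcont : Continuous rt := hRcont.sub continuous_const
  have hPtz : Pt z = -(t : ℂ) := by
    rw [hPtr]
    simp [hrt, hR, hrqz]
  -- pointwise bound
  have hpt : ∀ y, c * |rt y| ≤ stepOf c r y * rt y + E.indicator (fun _ => 2 * c * t) y := by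
    intro y
    unfold stepOf
    by_cases h0 : 0 ≤ r y
    · rw [if_pos h0]
      have hR0 : 0 ≤ R y := mul_nonneg h0 (hrq0 y)
      by_cases h1 : R y < t
      · have hyE : y ∈ E := by
          simp only [hE, Set.mem_ofPred_eq]
          rwa [abs_of_nonneg hR0]
        rw [Set.indicator_of_mem hyE]
        simp only [hrt]
        rw [abs_of_neg (by linarith)]
        nlinarith
      · have hyE : y ∉ E := by
          simp only [hE, Set.mem_ofPred_eq, abs_of_nonneg hR0]
          exact h1
        rw [Set.indicator_of_notMem hyE, add_zero]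
        simp only [hrt]
        rw [abs_of_nonneg (by linarith)]
    · rw [if_neg h0]
      push Not at h0
      have hR0 : R y ≤ 0 := mul_nonpos_of_nonpos_of_nonneg h0.le (hrq0 y)
      have h2 : 0 ≤ E.indicator (fun _ => 2 * c * t) y :=
        Set.indicator_nonneg (fun _ _ => by positivity) y
      simp only [hrt]
      rw [abs_of_neg (by linarith)]
      nlinarith
  have hstepm : Measurable (stepOf c r) := by
    unfold stepOf
    exact Measurable.ite (measurableSet_le measurable_const hrcont.measurable) measurable_const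
      measurable_const
  have hrtint : Integrable rt μ := by
    have := hrtcont.continuousOn.integrableOn_compact (μ := μ) isCompact_univ
    rwa [integrableOn_univ] at this
  have hstepint : Integrable (fun y => stepOf c r y * rt y) μ := by
    refine hrtint.bdd_mul (c := c) hstepm.aestronglyMeasurable (Filter.Eventually.of_forall fun y => ?_)
    unfold stepOf
    split_ifs
    · rw [Real.norm_eq_abs, abs_of_pos hc]
    · rw [norm_neg, Real.norm_eq_abs, abs_of_pos hc]
  set I : ℝ := ∫ y, |rt y| ∂μ with hI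
  set J : ℝ := ∫ y, stepOf c r y * rt y ∂μ with hJ
  have hIJ : c * I ≤ J + 2 * c * t * m := by
    have h1 : ∫ y, c * |rt y| ∂μ ≤ ∫ y, (stepOf c r y * rt y + E.indicator (fun _ => 2 * c * t) y) ∂μ := by
      refine integral_mono (hrtint.abs.const_mul c) (hstepint.add ?_) hpt
      exact (integrable_const _).indicator hEmeas
    rw [integral_const_mul, integral_add hstepint ((integrable_const _).indicator hEmeas),
      integral_indicator_const _ hEmeas] at h1
    rw [smul_eq_mul] at h1
    have h2 : μ.real E = m := rfl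
    rw [h2] at h1
    linarith
  have hI0 : 0 ≤ I := integral_nonneg fun y => abs_nonneg _
  have hK : c * I < J + s * t := by nlinarith
  have hψint : Integrable ψ μ := hψm.integrable le_top
  have hψPt : ∫ y, ψ y * Pt y ∂μ = (J : ℂ) := by
    rw [hJ, ← integral_complex_ofReal]
    refine integral_congr_ae ?_
    filter_upwards [hψ] with y hy
    rw [hy, hPtr]
    push_cast
    rfl
  have hlower : ∀ f : UnitAddCircle → ℂ, MemLp f ⊤ μ →
      (∀ k : ℤ, |k| ≤ (N : ℤ) → fourierCoeff f k = fourierCoeff ψ k - (s : ℂ) * ζ ^ (-k)) →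
      J + s * t ≤ supNorm f * I := by
    intro f hf hfc
    have h1 := integral_identity (hf.integrable le_top) hψint (s : ℂ) z
      (fun k hk => by rw [hfc k hk, hz]) hPtmem
    rw [hψPt, hPtz] at h1
    have h2 : ∫ y, f y * Pt y ∂μ = ((J + s * t : ℝ) : ℂ) := by
      rw [h1]; push_cast; ring
    have h3 : ‖∫ y, f y * Pt y ∂μ‖ ≤ ∫ y, supNorm f * |rt y| ∂μ := by
      refine norm_integral_le_of_norm_le (hrtint.abs.const_mul _) ?_
      filter_upwards [ae_le_supNorm hf] with y hy
      rw [norm_mul, hPtr, Complex.norm_real, Real.norm_eq_abs]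
      gcongr
    rw [h2, Complex.norm_real, Real.norm_eq_abs, integral_const_mul] at h3
    exact (le_abs_self _).trans h3
  have hIpos : 0 < I := by
    rcases hI0.eq_or_lt with h | h
    · exfalso
      have h1 := hlower (trig N (fun k => fourierCoeff ψ k - (s : ℂ) * ζ ^ (-k)))
        (trig_memLp N _) (fun k hk => trig_coeff N _ hk)
      rw [← h] at h1 hK
      linarith
    · exact h
  have hfin : (J + s * t) / I ≤ minNorm N (fun k => fourierCoeff ψ k - (s : ℂ) * ζ ^ (-k)) := by
    refine le_csInf (minNorm_set_nonempty N _) ?_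
    rintro _ ⟨f, hf, hfc, rfl⟩
    rw [div_le_iff₀ hIpos]
    exact hlower f hf hfc
  refine lt_of_lt_of_le ?_ hfin
  rw [lt_div_iff₀ hIpos]
  exact hK

end Pool.Agent.R158.MMCircle
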