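import Mathlib
import Pool.Agent.R158.MMCircle

/-!
# Alternating step functions and the strict improvement
-/

open MeasureTheory AddCircle Matrix
open scoped ComplexOrder ENNReal

namespace Pool.Agent.R158.MMStep

open ToepAtom MMBasic MMCircle

/-- the trigonometric polynomial `2 sin (π (x - a)) sin (π (x - b))` -/
noncomputable def G (a b : ℝ) : C(UnitAddCircle, ℂ) :=
  (Real.cos (Real.pi * (a - b)) : ℂ) • 1 - (1 / 2 : ℂ) •
    (Complex.exp (-(Real.pi * (a + b) : ℝ) * Complex.I) • fourier 1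
      + Complex.exp ((Real.pi * (a + b) : ℝ) * Complex.I) • fourier (-1))

lemma G_mem (a b : ℝ) : G a b ∈ Lam 1 := by
  refine Submodule.sub_mem _ (Submodule.smul_mem _ _ (one_mem 1))
    (Submodule.smul_mem _ _ (Submodule.add_mem _ ?_ ?_))
  · exact Submodule.smul_mem _ _ (fourier_mem (by simp))
  · exact Submodule.smul_mem _ _ (fourier_mem (by simp))

lemma G_coe (a b x : ℝ) :
    G a b (x : UnitAddCircle)
      = ((2 * Real.sin (Real.pi * (x - a)) * Real.sin (Real.pi * (x - b)) : ℝ) : ℂ) := by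
  have h1 : 2 * Real.sin (Real.pi * (x - a)) * Real.sin (Real.pi * (x - b))
      = Real.cos (Real.pi * (a - b)) - Real.cos (2 * Real.pi * x - Real.pi * (a + b)) := by
    have e1 : Real.pi * (a - b) = Real.pi * (x - b) - Real.pi * (x - a) := by ring
    have e2 : 2 * Real.pi * x - Real.pi * (a + b) = Real.pi * (x - b) + Real.pi * (x - a) := by ring
    rw [e1, e2, Real.cos_sub, Real.cos_add]
    ring
  rw [h1]
  unfold G
  simp only [ContinuousMap.sub_apply, ContinuousMap.one_apply, ContinuousMap.smul_apply,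
    ContinuousMap.add_apply, smul_eq_mul, mul_one]
  rw [fourier_coe_apply, fourier_coe_apply, ← Complex.exp_add, ← Complex.exp_add]
  rw [Complex.ofReal_sub]
  congr 1
  rw [Complex.ofReal_cos, Complex.cos]
  push_cast
  rw [div_eq_mul_inv]
  rw [show -((Real.pi : ℂ) * (a + b)) * Complex.I + 2 * Real.pi * Complex.I * 1 * x / 1
      = (2 * Real.pi * x - Real.pi * (a + b)) * Complex.I by ring,
    show ((Real.pi : ℂ) * (a + b)) * Complex.I + 2 * Real.pi * Complex.I * -1 * x / 1
      = -(2 * Real.pi * x - Real.pi * (a + b)) * Complex.I by ring]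
  ring

/-- the product of the `G`'s -/
noncomputable def PG (θ : ℕ → ℝ) (n : ℕ) : C(UnitAddCircle, ℂ) :=
  ∏ i ∈ Finset.range n, G (θ (2 * i)) (θ (2 * i + 1))

lemma PG_mem (θ : ℕ → ℝ) (n : ℕ) : PG θ n ∈ Lam n := by
  induction n with
  | zero => simpa [PG] using MMCircle.one_mem 0
  | succ n ih =>
    unfold PG at ih ⊢
    rw [Finset.prod_range_succ]
    exact mul_mem ih (G_mem _ _)

/-- the real product -/
noncomputable def rG (θ : ℕ → ℝ) (n : ℕ) (x : ℝ) : ℝ :=
  ∏ i ∈ Finset.range n,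
    (2 * Real.sin (Real.pi * (x - θ (2 * i))) * Real.sin (Real.pi * (x - θ (2 * i + 1))))

lemma PG_coe (θ : ℕ → ℝ) (n : ℕ) (x : ℝ) : PG θ n (x : UnitAddCircle) = (rG θ n x : ℂ) := by
  unfold PG rG
  rw [ContinuousMap.prod_apply, Complex.ofReal_prod]
  exact Finset.prod_congr rfl fun i _ => G_coe _ _ _

lemma mono {θ : ℕ → ℝ} {m : ℕ} (h : ∀ j < m, θ j < θ (j + 1)) {i j : ℕ} (hij : i ≤ j)
    (hj : j ≤ m) : θ i ≤ θ j := by
  induction j, hij using Nat.le_induction with
  | base => exact le_rfl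
  | succ j hij ih => exact (ih (by omega)).trans (h j (by omega)).le

lemma sin_nonneg' {u : ℝ} (h0 : 0 ≤ u) (h1 : u ≤ 1) : 0 ≤ Real.sin (Real.pi * u) :=
  Real.sin_nonneg_of_nonneg_of_le_pi (by positivity) (by nlinarith [Real.pi_pos])

lemma sin_nonpos' {u : ℝ} (h0 : u ≤ 0) (h1 : -1 ≤ u) : Real.sin (Real.pi * u) ≤ 0 := by
  have := sin_nonneg' (u := -u) (by linarith) (by linarith)
  rw [mul_neg, Real.sin_neg] at this
  linarith

lemma rG_sign {θ : ℕ → ℝ} {n : ℕ} (h : ∀ j < 2 * n, θ j < θ (j + 1)) (hT : θ (2 * n) = θ 0 + 1)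
    {j : ℕ} (hj : j < 2 * n) {x : ℝ} (hx : x ∈ Set.Ico (θ j) (θ (j + 1))) :
    0 ≤ (-1 : ℝ) ^ (j + 1) * rG θ n x := by
  have hpos : ∀ i ≤ j, 0 ≤ Real.sin (Real.pi * (x - θ i)) := by
    intro i hi
    have h1 := mono h hi (by omega)
    have h2 := mono h (show j + 1 ≤ 2 * n by omega) le_rfl
    have h3 := mono h (Nat.zero_le i) (by omega)
    exact sin_nonneg' (by linarith [hx.1]) (by linarith [hx.2])
  have hneg : ∀ i, j < i → i < 2 * n → Real.sin (Real.pi * (x - θ i)) ≤ 0 := by
    intro i hi hi2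
    have h1 := mono h (show j + 1 ≤ i from hi) (by omega)
    have h2 := mono h (show i ≤ 2 * n by omega) le_rfl
    have h3 := mono h (Nat.zero_le j) (by omega)
    exact sin_nonpos' (by linarith [hx.2]) (by linarith [hx.1])
  have hfac : ∀ i ∈ Finset.range n, 2 * i ≠ j →
      0 ≤ 2 * Real.sin (Real.pi * (x - θ (2 * i))) * Real.sin (Real.pi * (x - θ (2 * i + 1))) := by
    intro i hi hij
    rw [Finset.mem_range] at hi
    rcases lt_or_gt_of_ne hij with h1 | h1
    · have e1 := hpos (2 * i) (by omega)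
      have e2 := hpos (2 * i + 1) (by omega)
      positivity
    · have e1 := hneg (2 * i) h1 (by omega)
      have e2 := hneg (2 * i + 1) (by omega) (by omega)
      nlinarith [mul_nonneg_of_nonpos_of_nonpos e1 e2]
  unfold rG
  rcases Nat.even_or_odd' j with ⟨k, hk | hk⟩
  · have hkn : k ∈ Finset.range n := by
      rw [Finset.mem_range]; omega
    rw [← Finset.mul_prod_erase _ _ hkn]
    have h1 : 0 ≤ ∏ i ∈ (Finset.range n).erase k, (2 * Real.sin (Real.pi * (x - θ (2 * i)))
        * Real.sin (Real.pi * (x - θ (2 * i + 1)))) := by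
      refine Finset.prod_nonneg fun i hi => ?_
      rw [Finset.mem_erase] at hi
      exact hfac i hi.2 (by omega)
    have h2 : 2 * Real.sin (Real.pi * (x - θ (2 * k))) * Real.sin (Real.pi * (x - θ (2 * k + 1))) ≤ 0 := by
      have e1 := hpos (2 * k) (by omega)
      have e2 := hneg (2 * k + 1) (by omega) (by omega)
      nlinarith [mul_nonneg e1 (neg_nonneg.2 e2)]
    have h3 : (-1 : ℝ) ^ (j + 1) = -1 := by
      rw [hk]
      exact Odd.neg_one_pow ⟨k, rfl⟩
    rw [h3]
    nlinarith [mul_nonneg (neg_nonneg.2 h2) h1]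
  · have h1 : 0 ≤ ∏ i ∈ Finset.range n, (2 * Real.sin (Real.pi * (x - θ (2 * i)))
        * Real.sin (Real.pi * (x - θ (2 * i + 1)))) := by
      refine Finset.prod_nonneg fun i hi => ?_
      exact hfac i hi (by omega)
    have h3 : (-1 : ℝ) ^ (j + 1) = 1 := by
      rw [hk]
      exact Even.neg_one_pow ⟨k + 1, by ring⟩
    rw [h3, one_mul]
    exact h1

lemma exists_arc {θ : ℕ → ℝ} {x : ℝ} (hx : θ 0 ≤ x) :
    ∀ m, x < θ m → ∃ j < m, x ∈ Set.Ico (θ j) (θ (j + 1)) := by
  intro m
  induction m with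
  | zero => intro h; exact absurd hx (not_le.2 h)
  | succ m ih =>
    intro h
    by_cases hm : x < θ m
    · obtain ⟨j, hj, hj'⟩ := ih hm
      exact ⟨j, by omega, hj'⟩
    · exact ⟨m, by omega, ⟨not_lt.1 hm, h⟩⟩

/-- Data attached to an alternating step function of positive order. -/
lemma exists_data {n : ℕ} {c : ℝ} {ψ : UnitAddCircle → ℂ}
    {θ : ℕ → ℝ} {ε : ℝ} (hε : ε = 1 ∨ ε = -1) (h : ∀ j < 2 * n, θ j < θ (j + 1))
    (hT : θ (2 * n) = θ 0 + 1)
    (hψ : ∀ j < 2 * n, ∀ᵐ y ∂μ, y ∈ (fun x : ℝ => (x : UnitAddCircle)) '' Set.Ico (θ j) (θ (j + 1))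
      → ψ y = ((ε * (-1) ^ j * c : ℝ) : ℂ)) :
    ∃ (P : C(UnitAddCircle, ℂ)) (r : UnitAddCircle → ℝ), P ∈ Lam n ∧ (∀ y, P y = (r y : ℂ)) ∧
      {y | r y = 0}.Finite ∧ ∀ᵐ y ∂μ, ψ y = (stepOf c r y : ℂ) := by
  set P : C(UnitAddCircle, ℂ) := (-ε : ℂ) • PG θ n with hP
  set r : UnitAddCircle → ℝ := fun y => (P y).re with hr
  have hcoe : ∀ x : ℝ, r (x : UnitAddCircle) = -ε * rG θ n x := by
    intro x
    simp only [hr, hP, ContinuousMap.smul_apply, PG_coe, smul_eq_mul]
    rw [← Complex.ofReal_neg, ← Complex.ofReal_mul, Complex.ofReal_re]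
  have hε0 : ε ≠ 0 := by rcases hε with h | h <;> rw [h] <;> norm_num
  have hzero : {y | r y = 0} ⊆ (fun i => ((θ i : ℝ) : UnitAddCircle)) '' 
      ((Finset.range (2 * n) : Finset ℕ) : Set ℕ) := by
    intro y hy
    obtain ⟨x, rfl⟩ := QuotientAddGroup.mk_surjective y
    have h1 : r (x : UnitAddCircle) = 0 := hy
    rw [hcoe] at h1
    have h2 : rG θ n x = 0 := by
      rcases mul_eq_zero.1 h1 with h3 | h3
      · exact absurd (neg_eq_zero.1 h3) hε0
      · exact h3
    unfold rG at h2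
    rw [Finset.prod_eq_zero_iff] at h2
    obtain ⟨i, hi, hi2⟩ := h2
    rw [Finset.mem_range] at hi
    have key : ∀ k, Real.sin (Real.pi * (x - θ k)) = 0 →
        (QuotientAddGroup.mk x : UnitAddCircle) = ((θ k : ℝ) : UnitAddCircle) := by
      intro k hk
      obtain ⟨l, hl⟩ := Real.sin_eq_zero_iff.1 hk
      have h4 : x = θ k + l * 1 := by
        have h5 : Real.pi * (x - θ k - l) = 0 := by linarith
        rcases mul_eq_zero.1 h5 with h6 | h6
        · exact absurd h6 Real.pi_ne_zero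
        · linarith
      change ((x : ℝ) : UnitAddCircle) = _
      rw [h4]
      have h7 : (((θ k + (l : ℝ) * 1 : ℝ)) : UnitAddCircle) = ((θ k + l • (1 : ℝ) : ℝ) : UnitAddCircle) := by
        congr 1
        simp
      rw [h7]
      rw [AddCircle.coe_add, AddCircle.coe_zsmul, AddCircle.coe_period]
      simp
    rcases mul_eq_zero.1 hi2 with h3 | h3
    · rcases mul_eq_zero.1 h3 with h4 | h4
      · norm_num at h4
      · refine ⟨2 * i, ?_, (key _ h4).symm⟩
        simp; omega
    · refine ⟨2 * i + 1, ?_, (key _ h3).symm⟩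
      simp; omega
  refine ⟨P, r, Submodule.smul_mem _ _ (PG_mem θ n), ?_, ?_, ?_⟩
  · intro y
    obtain ⟨x, rfl⟩ := QuotientAddGroup.mk_surjective y
    rw [hcoe, hP, ContinuousMap.smul_apply, PG_coe, smul_eq_mul]
    push_cast
    ring
  · exact Set.Finite.subset ((Finset.range (2 * n)).finite_toSet.image _) hzero
  · have hfin : {y | r y = 0}.Finite := by
      refine Set.Finite.subset ((Finset.range (2 * n)).finite_toSet.image
        (fun i => ((θ i : ℝ) : UnitAddCircle))) ?_
      exact hzero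
    have hne : ∀ᵐ y ∂μ, r y ≠ 0 := by
      rw [ae_iff]
      simp only [ne_eq, not_not]
      exact finite_null hfin
    have hall : ∀ᵐ y ∂μ, ∀ j, j < 2 * n →
        y ∈ (fun x : ℝ => (x : UnitAddCircle)) '' Set.Ico (θ j) (θ (j + 1))
          → ψ y = ((ε * (-1) ^ j * c : ℝ) : ℂ) := by
      rw [ae_all_iff]
      intro j
      by_cases hj : j < 2 * n
      · filter_upwards [hψ j hj] with y hy _ using hy
      · exact Filter.Eventually.of_forall fun y h' => absurd h' hj
    filter_upwards [hne, hall] with y hy1 hy2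
    obtain ⟨x, hx, rfl⟩ : ∃ x ∈ Set.Ico (θ 0) (θ 0 + 1), (x : UnitAddCircle) = y := by
      have := AddCircle.coe_image_Ico_eq (1 : ℝ) (θ 0)
      have hy : y ∈ ((fun x : ℝ => (x : UnitAddCircle)) '' Set.Ico (θ 0) (θ 0 + 1)) := by
        rw [this]; exact Set.mem_univ y
      exact hy
    obtain ⟨j, hj, hxj⟩ := exists_arc hx.1 (2 * n) (by rw [hT]; exact hx.2)
    rw [hy2 j hj ⟨x, hxj, rfl⟩]
    have h1 := rG_sign h hT hj hxj
    rw [hcoe] at hy1
    have h2 : rG θ n x ≠ 0 := right_ne_zero_of_mul hy1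
    have h3 : ∀ k : ℕ, (-1 : ℝ) ^ k = 1 ∨ (-1 : ℝ) ^ k = -1 := fun k => neg_one_pow_eq_or ℝ k
    congr 1
    unfold stepOf
    rw [hcoe]
    rw [pow_succ] at h1
    rcases h3 j with h4 | h4 <;> rw [h4] at h1 ⊢
    · have h5 : rG θ n x < 0 := lt_of_le_of_ne (by linarith) h2
      rcases hε with h6 | h6 <;> rw [h6]
      · rw [if_pos (by linarith)]; ring
      · rw [if_neg (by linarith)]; ring
    · have h5 : 0 < rG θ n x := lt_of_le_of_ne (by linarith) (Ne.symm h2)
      rcases hε with h6 | h6 <;> rw [h6]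
      · rw [if_neg (by linarith)]; ring
      · rw [if_pos (by linarith)]; ring

/-- the sign change of a step function -/
lemma stepOf_neg {c : ℝ} {r : UnitAddCircle → ℝ} {y : UnitAddCircle} (h : r y ≠ 0) :
    stepOf c (fun y => -r y) y = -stepOf c r y := by
  unfold stepOf
  rcases lt_or_gt_of_ne h with h1 | h1
  · rw [if_pos (by linarith), if_neg (by linarith)]; ring
  · rw [if_neg (by linarith), if_pos h1.le]

lemma stepOf_memLp {c : ℝ} (hc : 0 < c) {r : UnitAddCircle → ℝ} (hr : Measurable r)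
    {ψ : UnitAddCircle → ℂ} (hψ : ∀ᵐ y ∂μ, ψ y = (stepOf c r y : ℂ)) : MemLp ψ ⊤ μ := by
  have hstepm : Measurable (stepOf c r) := by
    unfold stepOf
    exact Measurable.ite (measurableSet_le measurable_const hr) measurable_const
      measurable_const
  have h1 : AEStronglyMeasurable ψ μ :=
    ⟨fun y => (stepOf c r y : ℂ), (Complex.measurable_ofReal.comp hstepm).stronglyMeasurable, hψ⟩
  refine memLp_top_of_bound h1 c ?_
  filter_upwards [hψ] with y hy
  rw [hy, Complex.norm_real, Real.norm_eq_abs]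
  unfold stepOf
  split_ifs
  · rw [abs_of_pos hc]
  · rw [abs_neg, abs_of_pos hc]

lemma coeff_conj {ψ : UnitAddCircle → ℂ} {g : UnitAddCircle → ℝ}
    (hψ : ∀ᵐ y ∂μ, ψ y = (g y : ℂ)) (n : ℤ) :
    fourierCoeff ψ (-n) = star (fourierCoeff ψ n) := by
  unfold fourierCoeff
  change _ = (starRingEnd ℂ) _
  rw [← integral_conj]
  refine integral_congr_ae ?_
  filter_upwards [hψ] with y hy
  simp only [smul_eq_mul]
  rw [hy, map_mul, Complex.conj_ofReal, ← fourier_neg, neg_neg]

lemma herm_of_real {N : ℕ} {ψ : UnitAddCircle → ℂ} {g : UnitAddCircle → ℝ}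
    (hψ : ∀ᵐ y ∂μ, ψ y = (g y : ℂ)) : (toepM N (fourierCoeff ψ)).IsHermitian := by
  ext j k
  simp only [conjTranspose_apply, toepM, Matrix.of_apply]
  rw [← coeff_conj hψ]
  congr 1
  ring

lemma toep_add_one (N : ℕ) (a : ℤ → ℂ) (M : ℂ) :
    toepM N (fun n => a n + if n = 0 then M else 0) = M • (1 : Matrix (Fin (N + 1)) (Fin (N + 1)) ℂ)
      + toepM N a := by
  ext j k
  simp only [toepM, Matrix.of_apply, Matrix.add_apply, Matrix.smul_apply, Matrix.one_apply,
    smul_eq_mul]
  rw [add_comm]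
  congr 1
  by_cases h : j = k
  · subst h; simp
  · rw [if_neg h, if_neg]
    · simp
    · intro h2
      apply h
      ext
      omega

/-- The strict improvement, first form. -/
lemma improve_aux {N n : ℕ} (hn : n + 1 ≤ N) {c : ℝ} (hc : 0 < c) {ψ : UnitAddCircle → ℂ}
    {r : UnitAddCircle → ℝ} {P : C(UnitAddCircle, ℂ)} (hP : P ∈ Lam n)
    (hPr : ∀ y, P y = (r y : ℂ)) (hnull : {y | r y = 0}.Finite)
    (hψ : ∀ᵐ y ∂μ, ψ y = (stepOf c r y : ℂ))
    (hne : (opNorm (toepM N (fourierCoeff ψ)) : ℂ) • (1 : Matrix (Fin (N + 1)) (Fin (N + 1)) ℂ)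
      + toepM N (fourierCoeff ψ) ≠ 0) :
    ∃ a : ℤ → ℂ, (toepM N a).IsHermitian ∧ opNorm (toepM N a) ≤ opNorm (toepM N (fourierCoeff ψ)) ∧
      c < minNorm N a := by
  have hrcont : Continuous r := by
    have : r = fun y => (P y).re := by
      ext y
      rw [hPr, Complex.ofReal_re]
    rw [this]
    exact Complex.continuous_re.comp P.continuous
  have hψm := stepOf_memLp hc hrcont.measurable hψ
  have hH := herm_of_real (N := N) hψ
  set M := opNorm (toepM N (fourierCoeff ψ)) with hM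
  rw [← toep_add_one] at hne
  have hPSD := posSemidef_add hH
  rw [← hM, ← toep_add_one] at hPSD
  obtain ⟨ζ, hζ, s, hs, hps⟩ := exists_atom hPSD hne
  have hR1 := rank_one_toep N hζ
  have hdec : toepM N (fun k => fourierCoeff ψ k - (s : ℂ) * ζ ^ (-k))
      = toepM N (fourierCoeff ψ) - (s : ℂ) • toepM N (fun k => ζ ^ (-k)) := by
    ext j k
    simp [toepM]
  have hR1s : ((s : ℂ) • toepM N (fun k => ζ ^ (-k))).PosSemidef :=
    hR1.smul (by rw [Complex.zero_le_real]; exact hs.le)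
  have hH' : (toepM N (fun k => fourierCoeff ψ k - (s : ℂ) * ζ ^ (-k))).IsHermitian := by
    rw [hdec]
    exact hH.sub hR1s.isHermitian
  refine ⟨fun k => fourierCoeff ψ k - (s : ℂ) * ζ ^ (-k), hH', ?_, ?_⟩
  · refine opNorm_le hH' (opNorm_nonneg _) ?_ ?_
    · convert hps using 1
      rw [← toep_add_one]
      congr 1
      ext k
      ring
    · rw [hdec]
      have h1 := (posSemidef_sub hH).add hR1s
      convert h1 using 1
      abel
  · exact key hn hc hψm hP hPr hnull hψ hζ hs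

/-- The strict improvement. -/
lemma improve {N n : ℕ} (hn : n + 1 ≤ N) {c : ℝ} (hc : 0 < c) {ψ : UnitAddCircle → ℂ}
    {r : UnitAddCircle → ℝ} {P : C(UnitAddCircle, ℂ)} (hP : P ∈ Lam n)
    (hPr : ∀ y, P y = (r y : ℂ)) (hnull : {y | r y = 0}.Finite)
    (hψ : ∀ᵐ y ∂μ, ψ y = (stepOf c r y : ℂ)) :
    ∃ a : ℤ → ℂ, (toepM N a).IsHermitian ∧ opNorm (toepM N a) ≤ opNorm (toepM N (fourierCoeff ψ)) ∧
      c < minNorm N a := by
  by_cases hne : (opNorm (toepM N (fourierCoeff ψ)) : ℂ)
      • (1 : Matrix (Fin (N + 1)) (Fin (N + 1)) ℂ) + toepM N (fourierCoeff ψ) = 0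
  swap
  · exact improve_aux hn hc hP hPr hnull hψ hne
  have hrcont : Continuous r := by
    have : r = fun y => (P y).re := by
      ext y
      rw [hPr, Complex.ofReal_re]
    rw [this]
    exact Complex.continuous_re.comp P.continuous
  have hψm := stepOf_memLp hc hrcont.measurable hψ
  set M := opNorm (toepM N (fourierCoeff ψ)) with hM
  have hA : toepM N (fourierCoeff ψ) = -((M : ℂ) • (1 : Matrix (Fin (N + 1)) (Fin (N + 1)) ℂ)) := by
    rw [eq_neg_iff_add_eq_zero]
    exact (add_comm _ _).trans hne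
  have hM0 : M ≠ 0 := by
    intro h0
    rw [h0, Complex.ofReal_zero, zero_smul, neg_zero] at hA
    -- all coefficients vanish
    have hcoef : ∀ n : ℤ, |n| ≤ (N : ℤ) → fourierCoeff ψ n = 0 := by
      intro n hn
      have hn' := abs_le.1 hn
      rcases le_total 0 n with h1 | h1
      · have h2 := congrFun (congrFun hA ⟨n.toNat, by omega⟩) ⟨0, by omega⟩
        simp only [toepM, Matrix.of_apply, Matrix.zero_apply] at h2
        have e : ((n.toNat : ℕ) : ℤ) - ((0 : ℕ) : ℤ) = n := by omega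
        rw [e] at h2
        exact h2
      · have h2 := congrFun (congrFun hA ⟨0, by omega⟩) ⟨(-n).toNat, by omega⟩
        simp only [toepM, Matrix.of_apply, Matrix.zero_apply] at h2
        have e : ((0 : ℕ) : ℤ) - (((-n).toNat : ℕ) : ℤ) = n := by omega
        rw [e] at h2
        exact h2
    set s : ℝ := c / (2 * N + 1) with hs
    have hspos : 0 < s := by positivity
    have h1 := key hn hc hψm hP hPr hnull hψ (ζ := 1) (by simp) hspos
    set a : ℤ → ℂ := fun k => fourierCoeff ψ k - (s : ℂ) * 1 ^ (-k) with ha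
    have h2 := minNorm_le N a (trig_memLp N a) (fun _ hk => trig_coeff N a hk)
    have h3 : supNorm (trig N a) ≤ ∑ n ∈ Finset.Icc (-(N : ℤ)) N, ‖a n‖ :=
      supNorm_le (Finset.sum_nonneg fun _ _ => norm_nonneg _)
        (Filter.Eventually.of_forall (trig_bound N a))
    have h4 : ∑ n ∈ Finset.Icc (-(N : ℤ)) N, ‖a n‖ = c := by
      have h5 : ∀ n ∈ Finset.Icc (-(N : ℤ)) N, ‖a n‖ = s := by
        intro n hn
        rw [Finset.mem_Icc] at hn
        rw [ha]
        simp only [hcoef n (abs_le.2 hn), _root_.one_zpow, mul_one, zero_sub, norm_neg, Complex.norm_real,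
          Real.norm_eq_abs, abs_of_pos hspos]
      rw [Finset.sum_congr rfl h5, Finset.sum_const, Int.card_Icc, nsmul_eq_mul]
      have : ((N : ℤ) + 1 - -(N : ℤ)).toNat = 2 * N + 1 := by omega
      rw [this, hs]
      push_cast
      field_simp
    linarith
  -- pass to the negative
  have hneg : ∀ᵐ y ∂μ, (fun y => -ψ y) y = (stepOf c (fun y => -r y) y : ℂ) := by
    have h1 : ∀ᵐ y ∂μ, r y ≠ 0 := by
      rw [ae_iff]
      simp only [ne_eq, not_not]
      exact finite_null hnull
    filter_upwards [hψ, h1] with y hy hy1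
    rw [stepOf_neg hy1, hy]
    push_cast
    rfl
  have hcoefneg : fourierCoeff (fun y => -ψ y) = fun n => -fourierCoeff ψ n := by
    ext n
    have := fourierCoeff.const_mul ψ (-1) n
    simpa using this
  have htoep : toepM N (fourierCoeff (fun y => -ψ y)) = -toepM N (fourierCoeff ψ) := by
    rw [hcoefneg]
    ext j k
    simp [toepM]
  have hnorm : opNorm (toepM N (fourierCoeff (fun y => -ψ y))) = M := by
    rw [htoep, opNorm_neg]
  have h := improve_aux (ψ := fun y => -ψ y) (r := fun y => -r y) (P := -P) hn hc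
    (Submodule.neg_mem _ hP) (fun y => by rw [ContinuousMap.neg_apply, hPr]; push_cast; rfl)
    (by simpa using hnull) hneg (by
      rw [hnorm, htoep, hA, neg_neg]
      intro h0
      have h1 := congrFun (congrFun h0 0) 0
      simp at h1
      exact hM0 h1)
  rw [hnorm] at h
  exact h

end Pool.Agent.R158.MMStep
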