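import Mathlib

set_option autoImplicit false

/-!
# Projective rectangles
-/

namespace Pool.Agent.R158.Rect

variable {P : Type*}

/-- Four distinct points of `S` such that no three of them are on a member of `M`. -/
def HasQuad (S : Set P) (M : Set (Set P)) : Prop :=
  ∃ a ∈ S, ∃ b ∈ S, ∃ c ∈ S, ∃ d ∈ S, a ≠ b ∧ a ≠ c ∧ a ≠ d ∧ b ≠ c ∧ b ≠ d ∧ c ≠ d ∧
    ∀ l ∈ M, ¬ (a ∈ l ∧ b ∈ l ∧ c ∈ l) ∧ ¬ (a ∈ l ∧ b ∈ l ∧ d ∈ l) ∧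
      ¬ (a ∈ l ∧ c ∈ l ∧ d ∈ l) ∧ ¬ (b ∈ l ∧ c ∈ l ∧ d ∈ l)

/-- The set `S` of points and the set `M` of lines (given by their sets of points) form a projective
plane. -/
structure IsProjectivePlane (S : Set P) (M : Set (Set P)) : Prop where
  join : ∀ x ∈ S, ∀ y ∈ S, x ≠ y → ∃! m, m ∈ M ∧ x ∈ m ∧ y ∈ m
  meet : ∀ m ∈ M, ∀ n ∈ M, m ≠ n → ∃! x, x ∈ S ∧ x ∈ m ∧ x ∈ n
  quad : HasQuad S M

/-- A projective rectangle with point set `P`: the lines are given by their sets of points, and `D` is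
the distinguished point. The special lines are the lines through `D`. -/
structure ProjectiveRectangle (P : Type*) where
  lines : Set (Set P)
  D : P
  A1 : ∀ x y : P, x ≠ y → ∃! l : Set P, l ∈ lines ∧ x ∈ l ∧ y ∈ l
  A2 : HasQuad Set.univ lines
  A3 : ∀ l ∈ lines, ∃ x ∈ l, ∃ y ∈ l, ∃ z ∈ l, x ≠ y ∧ x ≠ z ∧ y ≠ z
  A5 : ∀ s ∈ lines, D ∈ s → ∀ l ∈ lines, l ≠ s → ∃! x, x ∈ s ∧ x ∈ l
  A6 : ∀ l₁ ∈ lines, ∀ l₂ ∈ lines, D ∉ l₁ → D ∉ l₂ → l₁ ≠ l₂ → (∃ x, x ∈ l₁ ∧ x ∈ l₂) →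
    ∀ l₃ ∈ lines, ∀ l₄ ∈ lines, l₃ ≠ l₄ → ∀ a b c d : P,
      a ∈ l₁ → a ∈ l₃ → b ∈ l₁ → b ∈ l₄ → c ∈ l₂ → c ∈ l₃ → d ∈ l₂ → d ∈ l₄ →
      a ≠ b → a ≠ c → a ≠ d → b ≠ c → b ≠ d → c ≠ d → ∃ x, x ∈ l₃ ∧ x ∈ l₄

namespace ProjectiveRectangle

variable (R : ProjectiveRectangle P)

/-- The lines of a set `S` of points: the sets `l ∩ S` with at least two points, `l` a line. -/
def subLines (S : Set P) : Set (Set P) := {m | ∃ l ∈ R.lines, m = l ∩ S ∧ m.Nontrivial}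

/-- `S` is a projective subplane. -/
def IsSubplane (S : Set P) : Prop := IsProjectivePlane S (R.subLines S)

/-- `S` is a plane: a projective subplane which is maximal under inclusion. -/
def IsPlane (S : Set P) : Prop := R.IsSubplane S ∧ ∀ T, R.IsSubplane T → S ⊆ T → T = S

/-- The projective rectangle is not a projective plane. -/
def IsNontrivial : Prop := ¬ IsProjectivePlane Set.univ R.lines

variable {R}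

lemma uniq {l m : Set P} (hl : l ∈ R.lines) (hm : m ∈ R.lines) {x y : P} (hxy : x ≠ y)
    (h1 : x ∈ l) (h2 : y ∈ l) (h3 : x ∈ m) (h4 : y ∈ m) : l = m :=
  (R.A1 x y hxy).unique ⟨hl, h1, h2⟩ ⟨hm, h3, h4⟩

lemma uniq_pt {l m : Set P} (hl : l ∈ R.lines) (hm : m ∈ R.lines) (hlm : l ≠ m) {x y : P}
    (h1 : x ∈ l) (h2 : y ∈ l) (h3 : x ∈ m) (h4 : y ∈ m) : x = y := by
  by_contra h
  exact hlm (uniq hl hm h h1 h2 h3 h4)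

/-- a configuration of two ordinary lines meeting in a point -/
structure Cfg (R : ProjectiveRectangle P) (g h : Set P) (p : P) : Prop where
  hg : g ∈ R.lines
  hh : h ∈ R.lines
  Dg : R.D ∉ g
  Dh : R.D ∉ h
  ne : g ≠ h
  pg : p ∈ g
  ph : p ∈ h

/-- the ordinary lines meeting `g` and `h` outside of `p` -/
def Tr (R : ProjectiveRectangle P) (g h : Set P) (p : P) : Set (Set P) :=
  {t | t ∈ R.lines ∧ R.D ∉ t ∧ p ∉ t ∧ (∃ a, a ∈ g ∧ a ∈ t) ∧ ∃ b, b ∈ h ∧ b ∈ t}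

/-- the plane generated by `g` and `h` -/
def Pl (R : ProjectiveRectangle P) (g h : Set P) (p : P) : Set P :=
  {x | x = R.D ∨ x ∈ g ∨ x ∈ h ∨ ∃ t ∈ Tr R g h p, x ∈ t}

section cfg
variable {g h : Set P} {p : P} (C : Cfg R g h p)
include C

lemma Cfg.symm : Cfg R h g p := ⟨C.hh, C.hg, C.Dh, C.Dg, C.ne.symm, C.ph, C.pg⟩

omit C in
lemma Tr_symm : Tr R g h p = Tr R h g p := by
  ext t
  simp only [Tr, Set.mem_ofPred_eq]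
  tauto

omit C in
lemma Pl_symm : Pl R g h p = Pl R h g p := by
  ext t
  simp only [Pl, Set.mem_ofPred_eq, Tr_symm (g := g)]
  tauto

lemma Cfg.eq_p {x : P} (h1 : x ∈ g) (h2 : x ∈ h) : x = p :=
  uniq_pt C.hg C.hh C.ne h1 C.pg h2 C.ph

lemma lem1 {x a' : P} {l : Set P} (hx : x ∈ Pl R g h p) (hxg : x ∉ g) (hxh : x ∉ h)
    (ha' : a' ∈ g) (ha'p : a' ≠ p) (hl : l ∈ R.lines) (hxl : x ∈ l) (hal : a' ∈ l) :
    ∃ b, b ∈ h ∧ b ∈ l := by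
  rcases hx with rfl | h1 | h1 | ⟨t, ht, hxt⟩
  · have hne : h ≠ l := by rintro rfl; exact C.Dh hxl
    obtain ⟨b, ⟨h1, h2⟩, -⟩ := R.A5 l hl hxl h C.hh hne
    exact ⟨b, h2, h1⟩
  · exact absurd h1 hxg
  · exact absurd h1 hxh
  · obtain ⟨ht1, ht2, ht3, ⟨a, hag, hat⟩, b, hbh, hbt⟩ := ht
    by_cases haa : a = a'
    · subst haa
      have hne : x ≠ a := by rintro rfl; exact hxg ha'
      have : l = t := uniq hl ht1 hne hxl hal hxt hat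
      subst this
      exact ⟨b, hbh, hbt⟩
    · have hgt : g ≠ t := by rintro rfl; exact ht3 C.pg
      have hhl : h ≠ l := by rintro rfl; exact hxh hxl
      obtain ⟨z, hz1, hz2⟩ := R.A6 g C.hg t ht1 C.Dg ht2 hgt ⟨a, hag, hat⟩ h C.hh l hl hhl
        p a' b x C.pg C.ph ha' hal hbt hbh hxt hxl (Ne.symm ha'p)
        (by rintro rfl; exact ht3 hbt) (by rintro rfl; exact hxg C.pg)
        (by rintro rfl; exact ha'p (C.eq_p ha' hbh)) (by rintro rfl; exact hxg ha')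
        (by rintro rfl; exact hxh hbh)
      exact ⟨z, hz1, hz2⟩

lemma lem1' {x b' : P} {l : Set P} (hx : x ∈ Pl R g h p) (hxg : x ∉ g) (hxh : x ∉ h)
    (hb' : b' ∈ h) (hb'p : b' ≠ p) (hl : l ∈ R.lines) (hxl : x ∈ l) (hal : b' ∈ l) :
    ∃ b, b ∈ g ∧ b ∈ l := by
  rw [Pl_symm] at hx
  exact lem1 C.symm hx hxh hxg hb' hb'p hl hxl hal

lemma lem2 {t t' : Set P} (ht : t ∈ Tr R g h p) (ht' : t' ∈ Tr R g h p) (hne : t ≠ t') :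
    ∃ z, z ∈ t ∧ z ∈ t' := by
  obtain ⟨ht1, ht2, ht3, ⟨a, hag, hat⟩, b, hbh, hbt⟩ := ht
  obtain ⟨ht1', ht2', ht3', ⟨a', hag', hat'⟩, b', hbh', hbt'⟩ := ht'
  by_cases haa : a = a'
  · subst haa; exact ⟨a, hat, hat'⟩
  by_cases hbb : b = b'
  · subst hbb; exact ⟨b, hbt, hbt'⟩
  exact R.A6 g C.hg h C.hh C.Dg C.Dh C.ne ⟨p, C.pg, C.ph⟩ t ht1 t' ht1' hne a a' b b' hag hat hag'
    hat' hbh hbt hbh' hbt' haa (by rintro rfl; exact ht3 (C.eq_p hag hbh ▸ hat))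
    (by rintro rfl; exact ht3 (C.eq_p hag hbh' ▸ hat))
    (by rintro rfl; exact ht3' (C.eq_p hag' hbh ▸ hat'))
    (by rintro rfl; exact ht3' (C.eq_p hag' hbh' ▸ hat')) hbb

lemma claimA_aux1 {x y : P} {l : Set P} (hl : l ∈ R.lines) (hy : y ∈ Pl R g h p)
    (hxl : x ∈ l) (hyl : y ∈ l) (hxy : x ≠ y) (hpl : p ∉ l) (hxg : x ∈ g) :
    (∃ a, a ∈ g ∧ a ∈ l) ∧ ∃ b, b ∈ h ∧ b ∈ l := by
  refine ⟨⟨x, hxg, hxl⟩, ?_⟩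
  by_cases hyh : y ∈ h
  · exact ⟨y, hyh, hyl⟩
  by_cases hyg : y ∈ g
  · have : l = g := uniq hl C.hg hxy hxl hyl hxg hyg
    exact absurd (this ▸ C.pg) hpl
  · exact lem1 C hy hyg hyh hxg (by rintro rfl; exact hpl hxl) hl hyl hxl

lemma claimA_aux2 {x y : P} {l : Set P} (hl : l ∈ R.lines) (hx : x ∈ Pl R g h p)
    (hy : y ∈ Pl R g h p)
    (hxl : x ∈ l) (hyl : y ∈ l) (hxy : x ≠ y) (hpl : p ∉ l) (hxg : x ∈ g ∨ x ∈ h) :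
    (∃ a, a ∈ g ∧ a ∈ l) ∧ ∃ b, b ∈ h ∧ b ∈ l := by
  rcases hxg with hxg | hxh
  · exact claimA_aux1 C hl hy hxl hyl hxy hpl hxg
  · rw [Pl_symm] at hy
    exact (claimA_aux1 C.symm hl hy hxl hyl hxy hpl hxh).symm

lemma claimA {x y : P} {l : Set P} (hl : l ∈ R.lines) (hx : x ∈ Pl R g h p)
    (hy : y ∈ Pl R g h p) (hxl : x ∈ l) (hyl : y ∈ l) (hxy : x ≠ y) (hpl : p ∉ l) :
    (∃ a, a ∈ g ∧ a ∈ l) ∧ ∃ b, b ∈ h ∧ b ∈ l := by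
  have hgl : g ≠ l := by rintro rfl; exact hpl C.pg
  have hhl : h ≠ l := by rintro rfl; exact hpl C.ph
  by_cases hxgh : x ∈ g ∨ x ∈ h
  · exact claimA_aux2 C hl hx hy hxl hyl hxy hpl hxgh
  by_cases hygh : y ∈ g ∨ y ∈ h
  · exact claimA_aux2 C hl hy hx hyl hxl hxy.symm hpl hygh
  by_cases hD : R.D ∈ l
  · obtain ⟨a, ⟨h1, h2⟩, -⟩ := R.A5 l hl hD g C.hg hgl
    obtain ⟨b, ⟨h3, h4⟩, -⟩ := R.A5 l hl hD h C.hh hhl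
    exact ⟨⟨a, h2, h1⟩, b, h4, h3⟩
  push Not at hxgh hygh
  have hx' := hx
  have hy' := hy
  rcases hx with rfl | h1 | h1 | ⟨t, ht, hxt⟩
  · exact absurd hxl hD
  · exact absurd h1 hxgh.1
  · exact absurd h1 hxgh.2
  rcases hy with rfl | h1 | h1 | ⟨t', ht', hyt⟩
  · exact absurd hyl hD
  · exact absurd h1 hygh.1
  · exact absurd h1 hygh.2
  obtain ⟨ht1, ht2, ht3, ⟨a, hag, hat⟩, b, hbh, hbt⟩ := id ht
  obtain ⟨ht1', ht2', ht3', ⟨a', hag', hat'⟩, b', hbh', hbt'⟩ := id ht'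
  by_cases hxt' : x ∈ t'
  · have : l = t' := uniq hl ht1' hxy hxl hyl hxt' hyt
    subst this
    exact ⟨⟨a', hag', hat'⟩, b', hbh', hbt'⟩
  by_cases hyt' : y ∈ t
  · have : l = t := uniq hl ht1 hxy hxl hyl hxt hyt'
    subst this
    exact ⟨⟨a, hag, hat⟩, b, hbh, hbt⟩
  have htt : t ≠ t' := by rintro rfl; exact hxt' hxt
  obtain ⟨z, hz, hz'⟩ := lem2 C ht ht' htt
  by_cases haa : a = a'
  · have hab : a ≠ b := by rintro rfl; exact ht3 (C.eq_p hag hbh ▸ hat)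
    have hbb : b ≠ b' := by
      rintro rfl
      subst haa
      exact htt (uniq ht1 ht1' hab hat hbt hat' hbt')
    obtain ⟨u, hu1, hu2⟩ := R.A6 t ht1 t' ht1' ht2 ht2' htt ⟨z, hz, hz'⟩ l hl h C.hh hhl.symm
      x b y b' hxt hxl hbt hbh hyt hyl hbt' hbh' (by rintro rfl; exact hxgh.2 hbh) hxy
      (by rintro rfl; exact hxgh.2 hbh') (by rintro rfl; exact hygh.2 hbh) hbb
      (by rintro rfl; exact hygh.2 hbh')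
    exact ⟨lem1' C hx' hxgh.1 hxgh.2 hu2 (by rintro rfl; exact hpl hu1) hl hxl hu1, u, hu2, hu1⟩
  · obtain ⟨u, hu1, hu2⟩ := R.A6 t ht1 t' ht1' ht2 ht2' htt ⟨z, hz, hz'⟩ l hl g C.hg hgl.symm
      x a y a' hxt hxl hat hag hyt hyl hat' hag' (by rintro rfl; exact hxgh.1 hag) hxy
      (by rintro rfl; exact hxgh.1 hag') (by rintro rfl; exact hygh.1 hag) haa
      (by rintro rfl; exact hygh.1 hag')
    exact ⟨⟨u, hu2, hu1⟩, lem1 C hx' hxgh.1 hxgh.2 hu2 (by rintro rfl; exact hpl hu1) hl hxl hu1⟩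

omit C in
lemma ord {s l : Set P} (hs : s ∈ R.lines) (Ds : R.D ∈ s) (hl : l ∈ R.lines) {x y : P}
    (hx : x ∉ s) (hy : y ∈ s) (hyD : y ≠ R.D) (hxl : x ∈ l) (hyl : y ∈ l) : R.D ∉ l := by
  intro h
  exact hx (uniq hl hs hyD hyl h hy Ds ▸ hxl)

omit C in
lemma third {l : Set P} (hl : l ∈ R.lines) (x y : P) : ∃ z ∈ l, z ≠ x ∧ z ≠ y := by
  obtain ⟨a, ha, b, hb, c, hc, hab, hac, hbc⟩ := R.A3 l hl
  by_cases h1 : a ≠ x ∧ a ≠ y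
  · exact ⟨a, ha, h1⟩
  by_cases h2 : b ≠ x ∧ b ≠ y
  · exact ⟨b, hb, h2⟩
  refine ⟨c, hc, ?_, ?_⟩
  · rintro rfl
    rw [not_and_or, not_not, not_not] at h1 h2
    rcases h1 with h1 | h1
    · exact hac h1
    · rcases h2 with h2 | h2
      · exact hbc h2
      · exact hab (h1.trans h2.symm)
  · rintro rfl
    rw [not_and_or, not_not, not_not] at h1 h2
    rcases h1 with h1 | h1
    · rcases h2 with h2 | h2
      · exact hab (h1.trans h2.symm)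
      · exact hbc h2
    · exact hac h1

omit C in
lemma two_others {l : Set P} (hl : l ∈ R.lines) (p : P) :
    ∃ a ∈ l, ∃ b ∈ l, a ≠ p ∧ b ≠ p ∧ a ≠ b := by
  obtain ⟨a, ha, ha1, -⟩ := third hl p p
  obtain ⟨b, hb, hb1, hb2⟩ := third hl p a
  exact ⟨a, ha, b, hb, ha1, hb1, hb2.symm⟩

/-- the main step for claim B -/
lemma claimB_aux {x w a1 a2 : P} {l σw σx : Set P} (hl : l ∈ R.lines) (Dl : R.D ∉ l) (hpl : p ∈ l)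
    (hxl : x ∈ l) (hxp : x ≠ p) (hx : x ∈ Pl R g h p) (hlg : l ≠ g) (hlh : l ≠ h)
    (hwl : w ∈ l) (hwp : w ≠ p) (hwx : w ≠ x) (hσw : σw ∈ R.lines) (hσx : σx ∈ R.lines)
    (hDσw : R.D ∈ σw) (hDσx : R.D ∈ σx) (hwσw : w ∈ σw) (hxσx : x ∈ σx)
    (ha1 : a1 ∈ g) (ha2 : a2 ∈ g) (ha1p : a1 ≠ p) (ha2p : a2 ≠ p) (ha12 : a1 ≠ a2)
    (ha1w : a1 ∉ σw) (ha2x : a2 ∉ σx) : w ∈ Pl R g h p := by
  have hxg : x ∉ g := fun h => hlg (uniq hl C.hg hxp hxl hpl h C.pg)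
  have hxh : x ∉ h := fun h => hlh (uniq hl C.hh hxp hxl hpl h C.ph)
  have hwg : w ∉ g := fun h => hlg (uniq hl C.hg hwp hwl hpl h C.pg)
  have hxa2 : x ≠ a2 := by rintro rfl; exact hxg ha2
  have hwa1 : w ≠ a1 := by rintro rfl; exact hwg ha1
  have hxa1 : x ≠ a1 := by rintro rfl; exact hxg ha1
  have hwa2 : w ≠ a2 := by rintro rfl; exact hwg ha2
  have hxD : x ≠ R.D := by rintro rfl; exact Dl hxl
  have hwD : w ≠ R.D := by rintro rfl; exact Dl hwl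
  obtain ⟨t, ⟨ht, hxt, hat⟩, -⟩ := R.A1 x a2 hxa2
  obtain ⟨k, ⟨hk, hwk, hak⟩, -⟩ := R.A1 w a1 hwa1
  have Dt : R.D ∉ t := ord hσx hDσx ht ha2x hxσx hxD hat hxt
  have Dk : R.D ∉ k := ord hσw hDσw hk ha1w hwσw hwD hak hwk
  have hpt : p ∉ t := fun h => hxg (uniq ht C.hg ha2p hat h ha2 C.pg ▸ hxt)
  have hpk : p ∉ k := fun h => hwg (uniq hk C.hg ha1p hak h ha1 C.pg ▸ hwk)
  have htk : t ≠ k := by
    rintro rfl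
    exact hpt (uniq ht hl hwx hwk hxt hwl hxl ▸ hpl)
  obtain ⟨b, hbh, hbt⟩ := lem1 C hx hxg hxh ha2 ha2p ht hxt hat
  have htTr : t ∈ Tr R g h p := ⟨ht, Dt, hpt, ⟨a2, ha2, hat⟩, b, hbh, hbt⟩
  obtain ⟨z, hzt, hzk⟩ := R.A6 l hl g C.hg Dl C.Dg hlg ⟨p, hpl, C.pg⟩ t ht k hk htk x w a2 a1
    hxl hxt hwl hwk ha2 hat ha1 hak hwx.symm hxa2 hxa1 hwa2 hwa1 ha12.symm
  have hzg : z ∉ g := by
    intro hz
    have h1 : z = a2 := uniq_pt ht C.hg (by rintro rfl; exact hxg hxt) hzt hat hz ha2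
    have h2 : z = a1 := uniq_pt hk C.hg (by rintro rfl; exact hwg hwk) hzk hak hz ha1
    exact ha12 (h2.symm.trans h1)
  have hkh : ∃ b, b ∈ h ∧ b ∈ k := by
    by_cases hzh : z ∈ h
    · exact ⟨z, hzh, hzk⟩
    · exact lem1 C (Or.inr (Or.inr (Or.inr ⟨t, htTr, hzt⟩))) hzg hzh ha1 ha1p hk hzk hak
  exact Or.inr (Or.inr (Or.inr ⟨k, ⟨hk, Dk, hpk, ⟨a1, ha1, hak⟩, hkh⟩, hwk⟩))

lemma claimB {x : P} {l : Set P} (hl : l ∈ R.lines) (Dl : R.D ∉ l) (hpl : p ∈ l)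
    (hxl : x ∈ l) (hxp : x ≠ p) (hx : x ∈ Pl R g h p) : l ⊆ Pl R g h p := by
  intro w hwl
  by_cases hlg : l = g
  · subst hlg; exact Or.inr (Or.inl hwl)
  by_cases hlh : l = h
  · subst hlh; exact Or.inr (Or.inr (Or.inl hwl))
  by_cases hwp : w = p
  · subst hwp; exact Or.inr (Or.inl C.pg)
  by_cases hwx : w = x
  · subst hwx; exact hx
  have hxD : x ≠ R.D := by rintro rfl; exact Dl hxl
  have hwD : w ≠ R.D := by rintro rfl; exact Dl hwl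
  obtain ⟨σw, ⟨hσw, hwσw, hDσw⟩, -⟩ := R.A1 w R.D hwD
  obtain ⟨σx, ⟨hσx, hxσx, hDσx⟩, -⟩ := R.A1 x R.D hxD
  obtain ⟨a, ha, a', ha', hap, ha'p, haa'⟩ := two_others C.hg p
  have hσσ : σw ≠ σx := by
    rintro rfl
    exact Dl (uniq hσw hl hwx hwσw hxσx hwl hxl ▸ hDσw)
  have hgw : g ≠ σw := by rintro rfl; exact C.Dg hDσw
  have hgx : g ≠ σx := by rintro rfl; exact C.Dg hDσx
  have haD : ∀ y ∈ g, y ≠ R.D := by rintro y hy rfl; exact C.Dg hy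
  by_cases h1 : a ∈ σw
  · have h2 : a' ∉ σw := fun h => haa' (uniq_pt C.hg hσw hgw ha ha' h1 h)
    have h3 : a ∉ σx := fun h => hσσ (uniq hσw hσx (haD a ha) h1 hDσw h hDσx)
    exact claimB_aux C hl Dl hpl hxl hxp hx hlg hlh hwl hwp hwx hσw hσx hDσw hDσx hwσw hxσx
      ha' ha ha'p hap haa'.symm h2 h3
  by_cases h2 : a' ∈ σx
  · have h3 : a ∉ σx := fun h => haa' (uniq_pt C.hg hσx hgx ha ha' h h2)
    have h4 : a' ∉ σw := fun h => hσσ (uniq hσw hσx (haD a' ha') h hDσw h2 hDσx)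
    exact claimB_aux C hl Dl hpl hxl hxp hx hlg hlh hwl hwp hwx hσw hσx hDσw hDσx hwσw hxσx
      ha' ha ha'p hap haa'.symm h4 h3
  · exact claimB_aux C hl Dl hpl hxl hxp hx hlg hlh hwl hwp hwx hσw hσx hDσw hDσx hwσw hxσx
      ha ha' hap ha'p haa' h1 h2

lemma mem_Tr {x y : P} {l : Set P} (hl : l ∈ R.lines) (Dl : R.D ∉ l) (hx : x ∈ Pl R g h p)
    (hy : y ∈ Pl R g h p) (hxl : x ∈ l) (hyl : y ∈ l) (hxy : x ≠ y) (hpl : p ∉ l) :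
    l ∈ Tr R g h p :=
  have h1 := claimA C hl hx hy hxl hyl hxy hpl
  ⟨hl, Dl, hpl, h1.1, h1.2⟩

lemma line_sub {x y : P} {l : Set P} (hl : l ∈ R.lines) (Dl : R.D ∉ l) (hx : x ∈ Pl R g h p)
    (hy : y ∈ Pl R g h p) (hxl : x ∈ l) (hyl : y ∈ l) (hxy : x ≠ y) : l ⊆ Pl R g h p := by
  by_cases hpl : p ∈ l
  · by_cases hxp : x = p
    · subst hxp
      exact claimB C hl Dl hpl hyl hxy.symm hy
    · exact claimB C hl Dl hpl hxl hxp hx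
  · intro z hz
    exact Or.inr (Or.inr (Or.inr ⟨l, mem_Tr C hl Dl hx hy hxl hyl hxy hpl, hz⟩))

lemma meet_aux {x : P} {l l' : Set P} (hl : l ∈ R.lines) (Dl : R.D ∉ l) (hpl : p ∈ l)
    (hxl : x ∈ l) (hxp : x ≠ p) (hx : x ∈ Pl R g h p) (hl' : l' ∈ Tr R g h p) :
    ∃ z, z ∈ l ∧ z ∈ l' := by
  obtain ⟨ht1', ht2', ht3', ⟨a, hag, hal'⟩, b, hbh, hbl'⟩ := id hl'
  by_cases hlg : l = g
  · subst hlg; exact ⟨a, hag, hal'⟩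
  by_cases hlh : l = h
  · subst hlh; exact ⟨b, hbh, hbl'⟩
  by_cases hxl' : x ∈ l'
  · exact ⟨x, hxl, hxl'⟩
  have hxg : x ∉ g := fun h => hlg (uniq hl C.hg hxp hxl hpl h C.pg)
  have hxh : x ∉ h := fun h => hlh (uniq hl C.hh hxp hxl hpl h C.ph)
  have hll' : l ≠ l' := by rintro rfl; exact ht3' hpl
  rcases hx with rfl | h1 | h1 | ⟨t, ht, hxt⟩
  · exact absurd hxl Dl
  · exact absurd h1 hxg
  · exact absurd h1 hxh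
  have htt' : t ≠ l' := by rintro rfl; exact hxl' hxt
  obtain ⟨y, hyt, hyl'⟩ := lem2 C ht hl' htt'
  obtain ⟨ht1, ht2, ht3, ⟨a0, ha0g, ha0t⟩, b0, hb0h, hb0t⟩ := id ht
  have hap : p ≠ a := by rintro rfl; exact ht3' hal'
  have hbp : p ≠ b := by rintro rfl; exact ht3' hbl'
  have hyp : p ≠ y := by rintro rfl; exact ht3 hyt
  have hxy : x ≠ y := by rintro rfl; exact hxl' hyl'
  have hgt : g ≠ t := by rintro rfl; exact ht3 C.pg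
  have hht : h ≠ t := by rintro rfl; exact ht3 C.ph
  by_cases hya : y = a
  · subst hya
    have hab : b ≠ y := by
      rintro rfl
      exact hap (C.eq_p hag hbh).symm
    exact R.A6 h C.hh t ht1 C.Dh ht2 hht ⟨b0, hb0h, hb0t⟩ l hl l' ht1' hll' p b x y C.ph hpl hbh hbl'
      hxt hxl hyt hyl' hbp hxp.symm hyp (by rintro rfl; exact hxh hbh) hab hxy
  · exact R.A6 g C.hg t ht1 C.Dg ht2 hgt ⟨a0, ha0g, ha0t⟩ l hl l' ht1' hll' p a x y C.pg hpl hag hal'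
      hxt hxl hyt hyl' hap hxp.symm hyp (by rintro rfl; exact hxg hag) (Ne.symm hya) hxy

lemma claimC {x y x' y' : P} {l l' : Set P} (hl : l ∈ R.lines) (hl' : l' ∈ R.lines) (hll' : l ≠ l')
    (hx : x ∈ Pl R g h p) (hy : y ∈ Pl R g h p) (hxl : x ∈ l) (hyl : y ∈ l) (hxy : x ≠ y)
    (hx' : x' ∈ Pl R g h p) (hy' : y' ∈ Pl R g h p) (hxl' : x' ∈ l') (hyl' : y' ∈ l')
    (hxy' : x' ≠ y') : ∃ z, z ∈ Pl R g h p ∧ z ∈ l ∧ z ∈ l' := by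
  by_cases hD : R.D ∈ l
  · by_cases hD' : R.D ∈ l'
    · exact ⟨R.D, Or.inl rfl, hD, hD'⟩
    · obtain ⟨z, ⟨h1, h2⟩, -⟩ := R.A5 l hl hD l' hl' hll'.symm
      exact ⟨z, line_sub C hl' hD' hx' hy' hxl' hyl' hxy' h2, h1, h2⟩
  · have hsub := line_sub C hl hD hx hy hxl hyl hxy
    by_cases hD' : R.D ∈ l'
    · obtain ⟨z, ⟨h1, h2⟩, -⟩ := R.A5 l' hl' hD' l hl hll'
      exact ⟨z, hsub h2, h2, h1⟩
    · have key : ∃ z, z ∈ l ∧ z ∈ l' := by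
        by_cases hpl : p ∈ l
        · by_cases hpl' : p ∈ l'
          · exact ⟨p, hpl, hpl'⟩
          · have hT := mem_Tr C hl' hD' hx' hy' hxl' hyl' hxy' hpl'
            by_cases hxp : x = p
            · subst hxp
              exact meet_aux C hl hD hpl hyl hxy.symm hy hT
            · exact meet_aux C hl hD hpl hxl hxp hx hT
        · have hT := mem_Tr C hl hD hx hy hxl hyl hxy hpl
          by_cases hpl' : p ∈ l'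
          · by_cases hxp : x' = p
            · subst hxp
              obtain ⟨z, h1, h2⟩ := meet_aux C hl' hD' hpl' hyl' hxy'.symm hy' hT
              exact ⟨z, h2, h1⟩
            · obtain ⟨z, h1, h2⟩ := meet_aux C hl' hD' hpl' hxl' hxp hx' hT
              exact ⟨z, h2, h1⟩
          · exact lem2 C hT (mem_Tr C hl' hD' hx' hy' hxl' hyl' hxy' hpl') hll'
      obtain ⟨z, h1, h2⟩ := key
      exact ⟨z, hsub h1, h1, h2⟩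

lemma isSubplane_Pl : R.IsSubplane (Pl R g h p) := by
  constructor
  · intro x hx y hy hxy
    obtain ⟨l, ⟨hl, hxl, hyl⟩, -⟩ := R.A1 x y hxy
    refine ⟨l ∩ Pl R g h p, ⟨⟨l, hl, rfl, x, ⟨hxl, hx⟩, y, ⟨hyl, hy⟩, hxy⟩, ⟨hxl, hx⟩, hyl, hy⟩, ?_⟩
    rintro m ⟨⟨l', hl', rfl, -⟩, h1, h2⟩
    rw [uniq hl hl' hxy hxl hyl h1.1 h2.1]
  · rintro m ⟨l, hl, rfl, x, hx, y, hy, hxy⟩ m' ⟨l', hl', rfl, x', hx', y', hy', hxy'⟩ hne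
    have hll' : l ≠ l' := by rintro rfl; exact hne rfl
    obtain ⟨z, h1, h2, h3⟩ := claimC C hl hl' hll' hx.2 hy.2 hx.1 hy.1 hxy hx'.2 hy'.2 hx'.1 hy'.1
      hxy'
    refine ⟨z, ⟨h1, ⟨h2, h1⟩, h3, h1⟩, ?_⟩
    rintro w ⟨-, h4, h5⟩
    exact uniq_pt hl hl' hll' h4.1 h2 h5.1 h3
  · obtain ⟨a, ha, a', ha', hap, ha'p, haa'⟩ := two_others C.hg p
    obtain ⟨b, hb, b', hb', hbp, hb'p, hbb'⟩ := two_others C.hh p
    have h1 : ∀ x ∈ g, x ≠ p → ∀ y ∈ h, x ≠ y := by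
      rintro x hx hxp _ hy rfl; exact hxp (C.eq_p hx hy)
    refine ⟨a, Or.inr (Or.inl ha), a', Or.inr (Or.inl ha'), b, Or.inr (Or.inr (Or.inl hb)),
      b', Or.inr (Or.inr (Or.inl hb')), haa', h1 a ha hap b hb, h1 a ha hap b' hb',
      h1 a' ha' ha'p b hb, h1 a' ha' ha'p b' hb', hbb', ?_⟩
    rintro m ⟨l, hl, rfl, -⟩
    refine ⟨?_, ?_, ?_, ?_⟩
    · rintro ⟨h2, h3, h4⟩
      have := uniq hl C.hg haa' h2.1 h3.1 ha ha'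
      subst this
      exact hbp (C.eq_p h4.1 hb)
    · rintro ⟨h2, h3, h4⟩
      have := uniq hl C.hg haa' h2.1 h3.1 ha ha'
      subst this
      exact hb'p (C.eq_p h4.1 hb')
    · rintro ⟨h4, h2, h3⟩
      have := uniq hl C.hh hbb' h2.1 h3.1 hb hb'
      subst this
      exact hap (C.eq_p ha h4.1)
    · rintro ⟨h4, h2, h3⟩
      have := uniq hl C.hh hbb' h2.1 h3.1 hb hb'
      subst this
      exact ha'p (C.eq_p ha' h4.1)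

end cfg

section subplane

variable {S : Set P} (hS : R.IsSubplane S)
include hS

/-- two lines with two points each in a subplane meet in the subplane -/
lemma sub_meet {l l' : Set P} (hl : l ∈ R.lines) (hl' : l' ∈ R.lines) (hll' : l ≠ l')
    (h1 : (l ∩ S).Nontrivial) (h2 : (l' ∩ S).Nontrivial) : ∃ z, z ∈ S ∧ z ∈ l ∧ z ∈ l' := by
  have hne : l ∩ S ≠ l' ∩ S := by
    intro h
    obtain ⟨x, hx, y, hy, hxy⟩ := h1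
    exact hll' (uniq hl hl' hxy hx.1 hy.1 (h ▸ hx).1 (h ▸ hy).1)
  obtain ⟨z, ⟨hz1, hz2, hz3⟩, -⟩ := hS.meet _ ⟨l, hl, rfl, h1⟩ _ ⟨l', hl', rfl, h2⟩ hne
  exact ⟨z, hz1, hz2.1, hz3.1⟩

lemma sub_quad : ∃ a ∈ S, ∃ b ∈ S, ∃ c ∈ S, ∃ d ∈ S, a ≠ b ∧ a ≠ c ∧ a ≠ d ∧ b ≠ c ∧ b ≠ d ∧
    c ≠ d ∧ ∀ l ∈ R.lines, ¬ (a ∈ l ∧ b ∈ l ∧ c ∈ l) ∧ ¬ (a ∈ l ∧ b ∈ l ∧ d ∈ l) ∧
      ¬ (a ∈ l ∧ c ∈ l ∧ d ∈ l) ∧ ¬ (b ∈ l ∧ c ∈ l ∧ d ∈ l) := by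
  obtain ⟨a, ha, b, hb, c, hc, d, hd, hab, hac, had, hbc, hbd, hcd, H⟩ := hS.quad
  refine ⟨a, ha, b, hb, c, hc, d, hd, hab, hac, had, hbc, hbd, hcd, fun l hl => ⟨?_, ?_, ?_, ?_⟩⟩
  · rintro ⟨h1, h2, h3⟩
    exact (H (l ∩ S) ⟨l, hl, rfl, a, ⟨h1, ha⟩, b, ⟨h2, hb⟩, hab⟩).1 ⟨⟨h1, ha⟩, ⟨h2, hb⟩, h3, hc⟩
  · rintro ⟨h1, h2, h3⟩
    exact (H (l ∩ S) ⟨l, hl, rfl, a, ⟨h1, ha⟩, b, ⟨h2, hb⟩, hab⟩).2.1 ⟨⟨h1, ha⟩, ⟨h2, hb⟩, h3, hd⟩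
  · rintro ⟨h1, h2, h3⟩
    exact (H (l ∩ S) ⟨l, hl, rfl, a, ⟨h1, ha⟩, c, ⟨h2, hc⟩, hac⟩).2.2.1 ⟨⟨h1, ha⟩, ⟨h2, hc⟩, h3, hd⟩
  · rintro ⟨h1, h2, h3⟩
    exact (H (l ∩ S) ⟨l, hl, rfl, b, ⟨h1, hb⟩, c, ⟨h2, hc⟩, hbc⟩).2.2.2 ⟨⟨h1, hb⟩, ⟨h2, hc⟩, h3, hd⟩

lemma three_of {l : Set P} (hl : l ∈ R.lines) (hlS : (l ∩ S).Nontrivial) {q a b c : P}
    (hql : q ∉ l) (hq : q ∈ S) (ha : a ∈ S) (hb : b ∈ S) (hc : c ∈ S) (hqa : q ≠ a) (hqb : q ≠ b)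
    (hqc : q ≠ c) (H : ∀ l ∈ R.lines, ¬ (q ∈ l ∧ a ∈ l ∧ b ∈ l) ∧ ¬ (q ∈ l ∧ a ∈ l ∧ c ∈ l) ∧
      ¬ (q ∈ l ∧ b ∈ l ∧ c ∈ l)) :
    ∃ x ∈ l ∩ S, ∃ y ∈ l ∩ S, ∃ z ∈ l ∩ S, x ≠ y ∧ x ≠ z ∧ y ≠ z := by
  have key : ∀ v ∈ S, q ≠ v → ∃ m ∈ R.lines, q ∈ m ∧ v ∈ m ∧ ∃ z ∈ l ∩ S, z ∈ m := by
    intro v hv hqv
    obtain ⟨m, ⟨hm, hqm, hvm⟩, -⟩ := R.A1 q v hqv
    have hlm : l ≠ m := by rintro rfl; exact hql hqm
    obtain ⟨z, hz, hz1, hz2⟩ := sub_meet hS hl hm hlm hlS ⟨q, ⟨hqm, hq⟩, v, ⟨hvm, hv⟩, hqv⟩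
    exact ⟨m, hm, hqm, hvm, z, ⟨hz1, hz⟩, hz2⟩
  obtain ⟨m1, hm1, hq1, ha1, x, hx, hx1⟩ := key a ha hqa
  obtain ⟨m2, hm2, hq2, hb2, y, hy, hy2⟩ := key b hb hqb
  obtain ⟨m3, hm3, hq3, hc3, z, hz, hz3⟩ := key c hc hqc
  refine ⟨x, hx, y, hy, z, hz, ?_, ?_, ?_⟩
  · rintro rfl
    have hqx : q ≠ x := by rintro rfl; exact hql hx.1
    have := uniq hm1 hm2 hqx hq1 hx1 hq2 hy2
    subst this
    exact (H m1 hm1).1 ⟨hq1, ha1, hb2⟩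
  · rintro rfl
    have hqx : q ≠ x := by rintro rfl; exact hql hx.1
    have := uniq hm1 hm3 hqx hq1 hx1 hq3 hz3
    subst this
    exact (H m1 hm1).2.1 ⟨hq1, ha1, hc3⟩
  · rintro rfl
    have hqx : q ≠ y := by rintro rfl; exact hql hy.1
    have := uniq hm2 hm3 hqx hq2 hy2 hq3 hz3
    subst this
    exact (H m2 hm2).2.2 ⟨hq2, hb2, hc3⟩

lemma sub_three {l : Set P} (hl : l ∈ R.lines) (hlS : (l ∩ S).Nontrivial) :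
    ∃ x ∈ l ∩ S, ∃ y ∈ l ∩ S, ∃ z ∈ l ∩ S, x ≠ y ∧ x ≠ z ∧ y ≠ z := by
  obtain ⟨a, ha, b, hb, c, hc, d, hd, hab, hac, had, hbc, hbd, hcd, H⟩ := sub_quad hS
  by_cases h1 : a ∈ l
  · by_cases h2 : b ∈ l
    · have h3 : c ∉ l := fun h3 => (H l hl).1 ⟨h1, h2, h3⟩
      refine three_of hS hl hlS h3 hc ha hb hd hac.symm hbc.symm hcd fun m hm => ?_
      have := H m hm
      tauto
    · refine three_of hS hl hlS h2 hb ha hc hd hab.symm hbc hbd fun m hm => ?_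
      have := H m hm
      tauto
  · refine three_of hS hl hlS h1 ha hb hc hd hab hac had fun m hm => ?_
    have := H m hm
    tauto

lemma sub_two {l : Set P} (hl : l ∈ R.lines) (hlS : (l ∩ S).Nontrivial) (p : P) :
    ∃ a ∈ l ∩ S, ∃ b ∈ l ∩ S, a ≠ p ∧ b ≠ p ∧ a ≠ b := by
  obtain ⟨x, hx, y, hy, z, hz, hxy, hxz, hyz⟩ := sub_three hS hl hlS
  by_cases h1 : x = p
  · subst h1
    exact ⟨y, hy, z, hz, hxy.symm, hxz.symm, hyz⟩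
  · by_cases h2 : y = p
    · subst h2
      exact ⟨x, hx, z, hz, h1, hyz.symm, hxz⟩
    · exact ⟨x, hx, y, hy, h1, h2, hxy⟩

/-- the plane generated by two lines contains each subplane having them as lines -/
lemma sub_subset {g h : Set P} {p : P} (C : Cfg R g h p) (hgS : (g ∩ S).Nontrivial)
    (hhS : (h ∩ S).Nontrivial) : S ⊆ Pl R g h p := by
  intro x hx
  by_cases hxg : x ∈ g
  · exact Or.inr (Or.inl hxg)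
  by_cases hxh : x ∈ h
  · exact Or.inr (Or.inr (Or.inl hxh))
  by_cases hxD : x = R.D
  · exact Or.inl hxD
  obtain ⟨p', hp'S, hp'g, hp'h⟩ := sub_meet hS C.hg C.hh C.ne hgS hhS
  have hpp : p' = p := C.eq_p hp'g hp'h
  subst hpp
  obtain ⟨a, ha, b, hb, hap, hbp, hab⟩ := sub_two hS C.hg hgS p'
  have key : ∀ v ∈ g ∩ S, v ≠ p' → ∀ m ∈ R.lines, R.D ∉ m → x ∈ m → v ∈ m → x ∈ Pl R g h p' := by
    intro v hv hvp m hm hDm hxm hvm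
    have hxv : x ≠ v := by rintro rfl; exact hxg hv.1
    have hmg : m ≠ g := by rintro rfl; exact hxg hxm
    have hmh : m ≠ h := by rintro rfl; exact hxh hxm
    obtain ⟨z, hz, hzm, hzh⟩ := sub_meet hS hm C.hh hmh ⟨x, ⟨hxm, hx⟩, v, ⟨hvm, hv.2⟩, hxv⟩ hhS
    refine Or.inr (Or.inr (Or.inr ⟨m, ⟨hm, hDm, ?_, ⟨v, hv.1, hvm⟩, z, hzh, hzm⟩, hxm⟩))
    intro hpm
    exact hmg (uniq hm C.hg hvp hvm hpm hv.1 C.pg)
  have hxa : x ≠ a := by rintro rfl; exact hxg ha.1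
  have hxb : x ≠ b := by rintro rfl; exact hxg hb.1
  obtain ⟨m, ⟨hm, hxm, ham⟩, -⟩ := R.A1 x a hxa
  obtain ⟨n, ⟨hn, hxn, hbn⟩, -⟩ := R.A1 x b hxb
  by_cases hDm : R.D ∈ m
  · have hDn : R.D ∉ n := by
      intro hDn
      have := uniq hm hn hxD hxm hDm hxn hDn
      subst this
      have := uniq hm C.hg hab ham hbn ha.1 hb.1
      subst this
      exact hxg hxm
    exact key b hb hbp n hn hDn hxn hbn
  · exact key a ha hap m hm hDm hxm ham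

/-- each subplane has two ordinary lines meeting in an ordinary point -/
lemma sub_cfg : ∃ g h p, Cfg R g h p ∧ (g ∩ S).Nontrivial ∧ (h ∩ S).Nontrivial := by
  have key : ∀ q ∈ S, ∀ a ∈ S, ∀ b ∈ S, ∀ c ∈ S, q ≠ R.D → q ≠ a → q ≠ b → q ≠ c →
      (∀ l ∈ R.lines, ¬ (q ∈ l ∧ a ∈ l ∧ b ∈ l) ∧ ¬ (q ∈ l ∧ a ∈ l ∧ c ∈ l) ∧
      ¬ (q ∈ l ∧ b ∈ l ∧ c ∈ l)) →
      ∃ g h p, Cfg R g h p ∧ (g ∩ S).Nontrivial ∧ (h ∩ S).Nontrivial := by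
    intro q hq a ha b hb c hc hqD hqa hqb hqc H
    obtain ⟨m1, ⟨hm1, hq1, ha1⟩, -⟩ := R.A1 q a hqa
    obtain ⟨m2, ⟨hm2, hq2, hb2⟩, -⟩ := R.A1 q b hqb
    obtain ⟨m3, ⟨hm3, hq3, hc3⟩, -⟩ := R.A1 q c hqc
    have h12 : m1 ≠ m2 := by rintro rfl; exact (H m1 hm1).1 ⟨hq1, ha1, hb2⟩
    have h13 : m1 ≠ m3 := by rintro rfl; exact (H m1 hm1).2.1 ⟨hq1, ha1, hc3⟩
    have h23 : m2 ≠ m3 := by rintro rfl; exact (H m2 hm2).2.2 ⟨hq2, hb2, hc3⟩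
    have n1 : (m1 ∩ S).Nontrivial := ⟨q, ⟨hq1, hq⟩, a, ⟨ha1, ha⟩, hqa⟩
    have n2 : (m2 ∩ S).Nontrivial := ⟨q, ⟨hq2, hq⟩, b, ⟨hb2, hb⟩, hqb⟩
    have n3 : (m3 ∩ S).Nontrivial := ⟨q, ⟨hq3, hq⟩, c, ⟨hc3, hc⟩, hqc⟩
    by_cases D1 : R.D ∈ m1
    · have D2 : R.D ∉ m2 := fun D2 => h12 (uniq hm1 hm2 hqD hq1 D1 hq2 D2)
      have D3 : R.D ∉ m3 := fun D3 => h13 (uniq hm1 hm3 hqD hq1 D1 hq3 D3)
      exact ⟨m2, m3, q, ⟨hm2, hm3, D2, D3, h23, hq2, hq3⟩, n2, n3⟩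
    · by_cases D2 : R.D ∈ m2
      · have D3 : R.D ∉ m3 := fun D3 => h23 (uniq hm2 hm3 hqD hq2 D2 hq3 D3)
        exact ⟨m1, m3, q, ⟨hm1, hm3, D1, D3, h13, hq1, hq3⟩, n1, n3⟩
      · exact ⟨m1, m2, q, ⟨hm1, hm2, D1, D2, h12, hq1, hq2⟩, n1, n2⟩
  obtain ⟨a, ha, b, hb, c, hc, d, hd, hab, hac, had, hbc, hbd, hcd, H⟩ := sub_quad hS
  by_cases haD : a = R.D
  · have hbD : b ≠ R.D := by rintro rfl; exact hab haD
    refine key b hb a ha c hc d hd hbD hab.symm hbc hbd fun l hl => ?_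
    have := H l hl
    tauto
  · refine key a ha b hb c hc d hd haD hab hac had fun l hl => ?_
    have := H l hl
    tauto

end subplane

lemma isPlane_Pl {g h : Set P} {p : P} (C : Cfg R g h p) : R.IsPlane (Pl R g h p) := by
  refine ⟨isSubplane_Pl C, fun T hT hST => Set.Subset.antisymm ?_ hST⟩
  obtain ⟨a, ha, a', ha', -, -, haa'⟩ := two_others C.hg p
  obtain ⟨b, hb, b', hb', -, -, hbb'⟩ := two_others C.hh p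
  exact sub_subset hT C ⟨a, ⟨ha, hST (Or.inr (Or.inl ha))⟩, a', ⟨ha', hST (Or.inr (Or.inl ha'))⟩,
    haa'⟩ ⟨b, ⟨hb, hST (Or.inr (Or.inr (Or.inl hb)))⟩, b', ⟨hb', hST (Or.inr (Or.inr (Or.inl hb')))⟩,
    hbb'⟩

lemma plane_eq {π : Set P} (hπ : R.IsPlane π) {g h : Set P} {p : P} (C : Cfg R g h p)
    (hg : (g ∩ π).Nontrivial) (hh : (h ∩ π).Nontrivial) : Pl R g h p = π :=
  hπ.2 _ (isSubplane_Pl C) (sub_subset hπ.1 C hg hh)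

lemma plane_D {π : Set P} (hπ : R.IsPlane π) : R.D ∈ π := by
  obtain ⟨g, h, p, C, hg, hh⟩ := sub_cfg hπ.1
  rw [← plane_eq hπ C hg hh]
  exact Or.inl rfl

lemma plane_line {π : Set P} (hπ : R.IsPlane π) {l : Set P} (hl : l ∈ R.lines) (Dl : R.D ∉ l)
    {x y : P} (hx : x ∈ π) (hy : y ∈ π) (hxl : x ∈ l) (hyl : y ∈ l) (hxy : x ≠ y) : l ⊆ π := by
  obtain ⟨g, h, p, C, hg, hh⟩ := sub_cfg hπ.1
  have := plane_eq hπ C hg hh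
  subst this
  exact line_sub C hl Dl hx hy hxl hyl hxy

lemma plane_unique {π π' : Set P} (hπ : R.IsPlane π) (hπ' : R.IsPlane π') {g h : Set P} {p : P}
    (C : Cfg R g h p) (hg : (g ∩ π).Nontrivial) (hh : (h ∩ π).Nontrivial)
    (hg' : (g ∩ π').Nontrivial) (hh' : (h ∩ π').Nontrivial) : π = π' :=
  (plane_eq hπ C hg hh).symm.trans (plane_eq hπ' C hg' hh')

lemma inter_sub {π π' s : Set P} (hπ : R.IsPlane π) (hπ' : R.IsPlane π') (hne : π ≠ π')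
    (hs : s ∈ R.lines) (Ds : R.D ∈ s) {p1 p2 : P} (p1s : p1 ∈ s) (p2s : p2 ∈ s) (h12 : p1 ≠ p2)
    (p1D : p1 ≠ R.D) (p2D : p2 ≠ R.D) (p1π : p1 ∈ π) (p2π : p2 ∈ π) (p1π' : p1 ∈ π')
    (p2π' : p2 ∈ π') : ∀ x ∈ π, x ∈ π' → x ∈ s := by
  intro x hx hx'
  by_contra hxs
  have hx1 : x ≠ p1 := by rintro rfl; exact hxs p1s
  have hx2 : x ≠ p2 := by rintro rfl; exact hxs p2s
  obtain ⟨g, ⟨hg, hxg, hpg⟩, -⟩ := R.A1 x p1 hx1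
  obtain ⟨h, ⟨hh, hxh, hph⟩, -⟩ := R.A1 x p2 hx2
  have hgh : g ≠ h := by
    rintro rfl
    exact hxs (uniq hg hs h12 hpg hph p1s p2s ▸ hxg)
  have C : Cfg R g h x := ⟨hg, hh, ord hs Ds hg hxs p1s p1D hxg hpg,
    ord hs Ds hh hxs p2s p2D hxh hph, hgh, hxg, hxh⟩
  exact hne (plane_unique hπ hπ' C ⟨x, ⟨hxg, hx⟩, p1, ⟨hpg, p1π⟩, hx1⟩
    ⟨x, ⟨hxh, hx⟩, p2, ⟨hph, p2π⟩, hx2⟩ ⟨x, ⟨hxg, hx'⟩, p1, ⟨hpg, p1π'⟩, hx1⟩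
    ⟨x, ⟨hxh, hx'⟩, p2, ⟨hph, p2π'⟩, hx2⟩)

lemma M_core {π π' s : Set P} (hπ : R.IsPlane π) (hπ' : R.IsPlane π')
    (hI : ∀ x ∈ π, x ∈ π' → x ∈ s) (hs : s ∈ R.lines) (Ds : R.D ∈ s)
    {p1 p2 p3 a r x1 x2 : P} {l1 l2 m σ k : Set P} (p1s : p1 ∈ s) (p2s : p2 ∈ s) (p3s : p3 ∈ s)
    (p1D : p1 ≠ R.D) (p2D : p2 ≠ R.D) (p3D : p3 ≠ R.D) (h12 : p1 ≠ p2)
    (p1π : p1 ∈ π) (p2π : p2 ∈ π) (p1π' : p1 ∈ π') (p2π' : p2 ∈ π')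
    (aπ : a ∈ π) (as : a ∉ s) (rπ' : r ∈ π') (rs : r ∉ s)
    (hl1 : l1 ∈ R.lines) (al1 : a ∈ l1) (p1l1 : p1 ∈ l1) (x1l1 : x1 ∈ l1) (x1a : x1 ≠ a)
    (x1p1 : x1 ≠ p1) (hl2 : l2 ∈ R.lines) (al2 : a ∈ l2) (p2l2 : p2 ∈ l2) (x2l2 : x2 ∈ l2)
    (x2a : x2 ≠ a) (x2p2 : x2 ≠ p2) (hm : m ∈ R.lines) (x1m : x1 ∈ m) (x2m : x2 ∈ m)
    (p3m : p3 ∈ m) (hk : k ∈ R.lines) (Dk : R.D ∉ k) (ak : a ∈ k) (rk : r ∈ k)
    (hσ : σ ∈ R.lines) (Dσ : R.D ∈ σ) (x1σ : x1 ∈ σ) (rσ : r ∉ σ) : p3 ∈ π' := by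
  have Dl1 : R.D ∉ l1 := ord hs Ds hl1 as p1s p1D al1 p1l1
  have Dl2 : R.D ∉ l2 := ord hs Ds hl2 as p2s p2D al2 p2l2
  have ap1 : a ≠ p1 := by rintro rfl; exact as p1s
  have ap2 : a ≠ p2 := by rintro rfl; exact as p2s
  have l1π : l1 ⊆ π := plane_line hπ hl1 Dl1 aπ p1π al1 p1l1 ap1
  have l2π : l2 ⊆ π := plane_line hπ hl2 Dl2 aπ p2π al2 p2l2 ap2
  have x1π : x1 ∈ π := l1π x1l1
  have x2π : x2 ∈ π := l2π x2l2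
  have x1s : x1 ∉ s := fun h => as (uniq hl1 hs x1p1 x1l1 p1l1 h p1s ▸ al1)
  have x2s : x2 ∉ s := fun h => as (uniq hl2 hs x2p2 x2l2 p2l2 h p2s ▸ al2)
  have hl12 : l1 ≠ l2 := by
    rintro rfl
    exact as (uniq hl1 hs h12 p1l1 p2l2 p1s p2s ▸ al1)
  have x12 : x1 ≠ x2 := by
    rintro rfl
    exact x1a (uniq_pt hl1 hl2 hl12 x1l1 al1 x2l2 al2)
  have Dm : R.D ∉ m := ord hs Ds hm x1s p3s p3D x1m p3m
  have mπ : m ⊆ π := plane_line hπ hm Dm x1π x2π x1m x2m x12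
  have rp1 : r ≠ p1 := by rintro rfl; exact rs p1s
  have rp2 : r ≠ p2 := by rintro rfl; exact rs p2s
  obtain ⟨n1, ⟨hn1, rn1, p1n1⟩, -⟩ := R.A1 r p1 rp1
  obtain ⟨n2, ⟨hn2, rn2, p2n2⟩, -⟩ := R.A1 r p2 rp2
  have Dn1 : R.D ∉ n1 := ord hs Ds hn1 rs p1s p1D rn1 p1n1
  have Dn2 : R.D ∉ n2 := ord hs Ds hn2 rs p2s p2D rn2 p2n2
  have n1π' : n1 ⊆ π' := plane_line hπ' hn1 Dn1 rπ' p1π' rn1 p1n1 rp1
  have n2π' : n2 ⊆ π' := plane_line hπ' hn2 Dn2 rπ' p2π' rn2 p2n2 rp2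
  have hn2σ : n2 ≠ σ := by rintro rfl; exact Dn2 Dσ
  obtain ⟨y2, ⟨y2σ, y2n2⟩, -⟩ := R.A5 σ hσ Dσ n2 hn2 hn2σ
  have y2π' : y2 ∈ π' := n2π' y2n2
  have y2D : y2 ≠ R.D := by rintro rfl; exact Dn2 y2n2
  have hσs : σ ≠ s := by rintro rfl; exact x1s x1σ
  have y2s : y2 ∉ s := fun h => hσs (uniq hσ hs y2D y2σ Dσ h Ds)
  have rπ : r ∉ π := fun h => rs (hI r h rπ')
  have aπ' : a ∉ π' := fun h => as (hI a aπ h)
  have x1π' : x1 ∉ π' := fun h => x1s (hI x1 x1π h)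
  have x2π' : x2 ∉ π' := fun h => x2s (hI x2 x2π h)
  have y2π : y2 ∉ π := fun h => y2s (hI y2 h y2π')
  have ry2 : r ≠ y2 := by rintro rfl; exact rσ y2σ
  have x2y2 : x2 ≠ y2 := by rintro rfl; exact x2π' y2π'
  have x1y2 : x1 ≠ y2 := by rintro rfl; exact x1π' y2π'
  have x1D : x1 ≠ R.D := by rintro rfl; exact x1s Ds
  -- the first auxiliary plane
  have hkl2 : k ≠ l2 := by rintro rfl; exact rπ (l2π rk)
  have hkl1 : k ≠ l1 := by rintro rfl; exact rπ (l1π rk)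
  have C2 : Cfg R k l2 a := ⟨hk, hl2, Dk, Dl2, hkl2, ak, al2⟩
  have C1 : Cfg R k l1 a := ⟨hk, hl1, Dk, Dl1, hkl1, ak, al1⟩
  have ra : r ≠ a := by rintro rfl; exact rπ aπ
  have rP2 : r ∈ Pl R k l2 a := Or.inr (Or.inl rk)
  have aP2 : a ∈ Pl R k l2 a := Or.inr (Or.inl ak)
  have p2P2 : p2 ∈ Pl R k l2 a := Or.inr (Or.inr (Or.inl p2l2))
  have x2P2 : x2 ∈ Pl R k l2 a := Or.inr (Or.inr (Or.inl x2l2))
  have y2P2 : y2 ∈ Pl R k l2 a := line_sub C2 hn2 Dn2 rP2 p2P2 rn2 p2n2 rp2 y2n2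
  obtain ⟨q, ⟨hq, x2q, y2q⟩, -⟩ := R.A1 x2 y2 x2y2
  have hqk : q ≠ k := by
    rintro rfl
    have := uniq hq hn2 ry2 rk y2q rn2 y2n2
    subst this
    exact aπ' (n2π' ak)
  obtain ⟨c, cP2, cq, ck⟩ := claimC C2 hq hk hqk x2P2 y2P2 x2q y2q x2y2 rP2 aP2 rk ak ra
  have ca : c ≠ a := by
    rintro rfl
    have := uniq hq hl2 x2a x2q cq x2l2 al2
    subst this
    exact y2π (l2π y2q)
  have cr : c ≠ r := by
    rintro rfl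
    have := uniq hq hn2 ry2 cq y2q rn2 y2n2
    subst this
    exact x2π' (n2π' x2q)
  have cπ : c ∉ π := fun h => rπ (plane_line hπ hk Dk h aπ ck ak ca rk)
  have cπ' : c ∉ π' := fun h => aπ' (plane_line hπ' hk Dk h rπ' ck rk cr ak)
  have cx1 : c ≠ x1 := by rintro rfl; exact cπ x1π
  have cy2 : c ≠ y2 := by rintro rfl; exact cπ' y2π'
  obtain ⟨e, ⟨he, ce, x1e⟩, -⟩ := R.A1 c x1 cx1
  have x2σ : x2 ∉ σ := fun h => Dm (uniq hm hσ x12 x1m x2m x1σ h ▸ Dσ)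
  have De : R.D ∉ e := by
    intro h
    have := uniq he hσ x1D x1e h x1σ Dσ
    subst this
    exact x2σ (uniq hq he cy2 cq y2q ce y2σ ▸ x2q)
  have Dq : R.D ∉ q := fun h => x2σ (uniq hq hσ y2D y2q h y2σ Dσ ▸ x2q)
  -- the second auxiliary plane
  have rP1 : r ∈ Pl R k l1 a := Or.inr (Or.inl rk)
  have cP1 : c ∈ Pl R k l1 a := Or.inr (Or.inl ck)
  have p1P1 : p1 ∈ Pl R k l1 a := Or.inr (Or.inr (Or.inl p1l1))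
  have x1P1 : x1 ∈ Pl R k l1 a := Or.inr (Or.inr (Or.inl x1l1))
  have hen1 : e ≠ n1 := by rintro rfl; exact x1π' (n1π' x1e)
  obtain ⟨y1, -, y1e, y1n1⟩ := claimC C1 he hn1 hen1 cP1 x1P1 ce x1e cx1 rP1 p1P1 rn1 p1n1 rp1
  have y1π' : y1 ∈ π' := n1π' y1n1
  have y1x1 : y1 ≠ x1 := by rintro rfl; exact x1π' y1π'
  have y1x2 : y1 ≠ x2 := by rintro rfl; exact x2π' y1π'
  have y1σ : y1 ∉ σ := fun h => De (uniq he hσ y1x1 y1e x1e h x1σ ▸ Dσ)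
  have y12 : y1 ≠ y2 := by rintro rfl; exact y1σ y2σ
  obtain ⟨f, ⟨hf, y1f, y2f⟩, -⟩ := R.A1 y1 y2 y12
  have Df : R.D ∉ f := fun h => y1σ (uniq hf hσ y2D y2f h y2σ Dσ ▸ y1f)
  have fπ' : f ⊆ π' := plane_line hπ' hf Df y1π' y2π' y1f y2f y12
  have heq : e ≠ q := by
    rintro rfl
    exact cπ (mπ (uniq he hm x12 x1e x2q x1m x2m ▸ ce))
  have hmf : m ≠ f := by rintro rfl; exact x1π' (fπ' x1m)
  obtain ⟨w, wm, wf⟩ := R.A6 e he q hq De Dq heq ⟨c, ce, cq⟩ m hm f hf hmf x1 y1 x2 y2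
    x1e x1m y1e y1f x2q x2m y2q y2f y1x1.symm x12 x1y2 y1x2 y12 x2y2
  have hms : m ≠ s := by rintro rfl; exact x1s x1m
  have : w = p3 := uniq_pt hm hs hms wm p3m (hI w (mπ wm) (fπ' wf)) p3s
  exact this ▸ fπ' wf

lemma lemM {π π' s : Set P} (hπ : R.IsPlane π) (hπ' : R.IsPlane π') (hne : π ≠ π')
    (hs : s ∈ R.lines) (Ds : R.D ∈ s) {p1 p2 : P} (p1s : p1 ∈ s) (p2s : p2 ∈ s) (h12 : p1 ≠ p2)
    (p1D : p1 ≠ R.D) (p2D : p2 ≠ R.D) (p1π : p1 ∈ π) (p2π : p2 ∈ π) (p1π' : p1 ∈ π')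
    (p2π' : p2 ∈ π') : s ∩ π ⊆ π' := by
  rintro p3 ⟨p3s, p3π⟩
  have hI := inter_sub hπ hπ' hne hs Ds p1s p2s h12 p1D p2D p1π p2π p1π' p2π'
  by_cases p3D : p3 = R.D
  · exact p3D ▸ plane_D hπ'
  by_cases h31 : p3 = p1
  · exact h31 ▸ p1π'
  by_cases h32 : p3 = p2
  · exact h32 ▸ p2π'
  obtain ⟨a, aπ, as⟩ : ∃ a ∈ π, a ∉ s := by
    obtain ⟨g, h, p, C, ⟨u, hu, v, hv, huv⟩, -⟩ := sub_cfg hπ.1
    by_cases h1 : u ∈ s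
    · refine ⟨v, hv.2, fun h2 => ?_⟩
      exact C.Dg (uniq C.hg hs huv hu.1 hv.1 h1 h2 ▸ Ds)
    · exact ⟨u, hu.2, h1⟩
  have aD : a ≠ R.D := by rintro rfl; exact as Ds
  obtain ⟨σa, ⟨hσa, aσa, Dσa⟩, -⟩ := R.A1 a R.D aD
  obtain ⟨r, rπ', rs, rσa⟩ : ∃ r ∈ π', r ∉ s ∧ r ∉ σa := by
    obtain ⟨g, h, p, C, ⟨u, hu, v, hv, huv⟩, -⟩ := sub_cfg hπ'.1
    have hgπ' : g ⊆ π' := plane_line hπ' C.hg C.Dg hu.2 hv.2 hu.1 hv.1 huv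
    have hgs : g ≠ s := by rintro rfl; exact C.Dg Ds
    have hgσ : g ≠ σa := by rintro rfl; exact C.Dg Dσa
    obtain ⟨z, ⟨h1, h2⟩, h3⟩ := R.A5 s hs Ds g C.hg hgs
    obtain ⟨z', ⟨h1', h2'⟩, h3'⟩ := R.A5 σa hσa Dσa g C.hg hgσ
    obtain ⟨r, hr, hr1, hr2⟩ := third C.hg z z'
    exact ⟨r, hgπ' hr, fun h => hr1 (h3 r ⟨h, hr⟩), fun h => hr2 (h3' r ⟨h, hr⟩)⟩
  have ar : a ≠ r := by rintro rfl; exact rσa aσa
  have rD : r ≠ R.D := by rintro rfl; exact rs Ds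
  have ap1 : a ≠ p1 := by rintro rfl; exact as p1s
  have ap2 : a ≠ p2 := by rintro rfl; exact as p2s
  obtain ⟨k, ⟨hk, ak, rk⟩, -⟩ := R.A1 a r ar
  have Dk : R.D ∉ k := fun h => rσa (uniq hk hσa aD ak h aσa Dσa ▸ rk)
  obtain ⟨l1, ⟨hl1, al1, p1l1⟩, -⟩ := R.A1 a p1 ap1
  obtain ⟨l2, ⟨hl2, al2, p2l2⟩, -⟩ := R.A1 a p2 ap2
  have Dl1 : R.D ∉ l1 := ord hs Ds hl1 as p1s p1D al1 p1l1
  have l1π : l1 ⊆ π := plane_line hπ hl1 Dl1 aπ p1π al1 p1l1 ap1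
  have hl12 : l1 ≠ l2 := by
    rintro rfl
    exact as (uniq hl1 hs h12 p1l1 p2l2 p1s p2s ▸ al1)
  obtain ⟨x1, x1l1, x1a, x1p1⟩ := third hl1 a p1
  have x1s : x1 ∉ s := fun h => as (uniq hl1 hs x1p1 x1l1 p1l1 h p1s ▸ al1)
  have x1p3 : x1 ≠ p3 := by rintro rfl; exact x1s p3s
  have x1D : x1 ≠ R.D := by rintro rfl; exact x1s Ds
  obtain ⟨m, ⟨hm, x1m, p3m⟩, -⟩ := R.A1 x1 p3 x1p3
  have Dm : R.D ∉ m := ord hs Ds hm x1s p3s p3D x1m p3m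
  have hml2 : m ≠ l2 := by
    rintro rfl
    exact x1s (uniq hm hs h32 p3m p2l2 p3s p2s ▸ x1m)
  obtain ⟨x2, x2π, x2m, x2l2⟩ := sub_meet hπ.1 hm hl2 hml2
    ⟨x1, ⟨x1m, l1π x1l1⟩, p3, ⟨p3m, p3π⟩, x1p3⟩ ⟨a, ⟨al2, aπ⟩, p2, ⟨p2l2, p2π⟩, ap2⟩
  have x2a : x2 ≠ a := by
    rintro rfl
    have := uniq hm hl1 x1a x1m x2m x1l1 al1
    subst this
    exact x1s (uniq hm hs h31 p3m p1l1 p3s p1s ▸ x1m)
  have x2p2 : x2 ≠ p2 := by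
    rintro rfl
    exact x1s (uniq hm hs h32 p3m x2m p3s p2s ▸ x1m)
  have x12 : x1 ≠ x2 := by
    rintro rfl
    exact x1a (uniq_pt hl1 hl2 hl12 x1l1 al1 x2l2 al2)
  have x2s : x2 ∉ s := fun h => as (uniq hl2 hs x2p2 x2l2 p2l2 h p2s ▸ al2)
  have x2D : x2 ≠ R.D := by rintro rfl; exact x2s Ds
  obtain ⟨σ1, ⟨hσ1, x1σ1, Dσ1⟩, -⟩ := R.A1 x1 R.D x1D
  obtain ⟨σ2, ⟨hσ2, x2σ2, Dσ2⟩, -⟩ := R.A1 x2 R.D x2D
  by_cases h : r ∈ σ1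
  · have rσ2 : r ∉ σ2 := by
      intro h'
      have := uniq hσ1 hσ2 rD h Dσ1 h' Dσ2
      subst this
      exact Dm (uniq hm hσ1 x12 x1m x2m x1σ1 x2σ2 ▸ Dσ1)
    exact M_core hπ hπ' hI hs Ds p2s p1s p3s p2D p1D p3D h12.symm p2π p1π p2π' p1π' aπ as rπ' rs
      hl2 al2 p2l2 x2l2 x2a x2p2 hl1 al1 p1l1 x1l1 x1a x1p1 hm x2m x1m p3m hk Dk ak rk hσ2 Dσ2
      x2σ2 rσ2
  · exact M_core hπ hπ' hI hs Ds p1s p2s p3s p1D p2D p3D h12 p1π p2π p1π' p2π' aπ as rπ' rs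
      hl1 al1 p1l1 x1l1 x1a x1p1 hl2 al2 p2l2 x2l2 x2a x2p2 hm x1m x2m p3m hk Dk ak rk hσ1 Dσ1
      x1σ1 h

lemma plane_special {π s : Set P} (hπ : R.IsPlane π) (hs : s ∈ R.lines) (Ds : R.D ∈ s) :
    (s ∩ π).Nontrivial := by
  obtain ⟨g, h, p, C, ⟨u, hu, v, hv, huv⟩, -⟩ := sub_cfg hπ.1
  have hgπ : g ⊆ π := plane_line hπ C.hg C.Dg hu.2 hv.2 hu.1 hv.1 huv
  have hgs : g ≠ s := by rintro rfl; exact C.Dg Ds
  obtain ⟨z, ⟨h1, h2⟩, -⟩ := R.A5 s hs Ds g C.hg hgs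
  exact ⟨R.D, ⟨Ds, plane_D hπ⟩, z, ⟨h1, hgπ h2⟩, by rintro rfl; exact C.Dg h2⟩

lemma exists_out (hR : R.IsNontrivial) {π s : Set P} (hπ : R.IsPlane π) (hs : s ∈ R.lines)
    (Ds : R.D ∈ s) : ∃ r, r ∉ π ∧ r ∉ s := by
  have h1 : ∃ z, z ∉ π := by
    by_contra hcon
    push Not at hcon
    apply hR
    have hu : π = Set.univ := Set.eq_univ_of_forall hcon
    subst hu
    have h2 : R.subLines Set.univ = R.lines := by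
      ext m
      constructor
      · rintro ⟨l, hl, rfl, -⟩
        simpa using hl
      · intro hm
        obtain ⟨x, hx, y, hy, z, hz, hxy, -⟩ := R.A3 m hm
        exact ⟨m, hm, by simp, x, hx, y, hy, hxy⟩
    have h3 : IsProjectivePlane Set.univ (R.subLines Set.univ) := hπ.1
    rwa [h2] at h3
  obtain ⟨z, hz⟩ := h1
  by_cases hzs : z ∈ s
  · obtain ⟨y, hys⟩ : ∃ y, y ∉ s := by
      obtain ⟨g, h, p, C, ⟨u, hu, v, hv, huv⟩, -⟩ := sub_cfg hπ.1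
      by_contra hcon
      push Not at hcon
      exact C.Dg (uniq C.hg hs huv hu.1 hv.1 (hcon u) (hcon v) ▸ Ds)
    by_cases hyπ : y ∈ π
    · have hzD : z ≠ R.D := by rintro rfl; exact hz (plane_D hπ)
      have hyz : y ≠ z := by rintro rfl; exact hys hzs
      obtain ⟨l, ⟨hl, hyl, hzl⟩, -⟩ := R.A1 y z hyz
      have Dl : R.D ∉ l := ord hs Ds hl hys hzs hzD hyl hzl
      obtain ⟨w, hwl, hwy, hwz⟩ := third hl y z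
      refine ⟨w, fun hwπ => ?_, fun hws => ?_⟩
      · exact hz (plane_line hπ hl Dl hwπ hyπ hwl hyl hwy hzl)
      · exact hys (uniq hl hs hwz hwl hzl hws hzs ▸ hyl)
    · exact ⟨y, hyπ, hys⟩
  · exact ⟨z, hz, hzs⟩

theorem main (hR : R.IsNontrivial) {π s : Set P} (hπ : R.IsPlane π) (hs : s ∈ R.lines)
    (Ds : R.D ∈ s) : ∃ π', R.IsPlane π' ∧ π' ≠ π ∧ s ∩ π' = s ∩ π ∧ s ∩ π ∈ R.subLines π' := by
  obtain ⟨r, rπ, rs⟩ := exists_out hR hπ hs Ds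
  obtain ⟨p1, hp1, p2, hp2, p1D, p2D, h12⟩ := sub_two hπ.1 hs (plane_special hπ hs Ds) R.D
  have rp1 : r ≠ p1 := by rintro rfl; exact rs hp1.1
  have rp2 : r ≠ p2 := by rintro rfl; exact rs hp2.1
  obtain ⟨n1, ⟨hn1, rn1, p1n1⟩, -⟩ := R.A1 r p1 rp1
  obtain ⟨n2, ⟨hn2, rn2, p2n2⟩, -⟩ := R.A1 r p2 rp2
  have hn12 : n1 ≠ n2 := by
    rintro rfl
    exact rs (uniq hn1 hs h12 p1n1 p2n2 hp1.1 hp2.1 ▸ rn1)
  have C : Cfg R n1 n2 r := ⟨hn1, hn2, ord hs Ds hn1 rs hp1.1 p1D rn1 p1n1,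
    ord hs Ds hn2 rs hp2.1 p2D rn2 p2n2, hn12, rn1, rn2⟩
  have hπ' := isPlane_Pl C
  have rπ' : r ∈ Pl R n1 n2 r := Or.inr (Or.inl rn1)
  have p1π' : p1 ∈ Pl R n1 n2 r := Or.inr (Or.inl p1n1)
  have p2π' : p2 ∈ Pl R n1 n2 r := Or.inr (Or.inr (Or.inl p2n2))
  have hne : Pl R n1 n2 r ≠ π := fun h => rπ (h ▸ rπ')
  have h1 := lemM hπ hπ' hne.symm hs Ds hp1.1 hp2.1 h12 p1D p2D hp1.2 hp2.2 p1π' p2π'
  have h2 := lemM hπ' hπ hne hs Ds hp1.1 hp2.1 h12 p1D p2D p1π' p2π' hp1.2 hp2.2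
  have heq : s ∩ Pl R n1 n2 r = s ∩ π :=
    Set.Subset.antisymm (fun x hx => ⟨hx.1, h2 hx⟩) (fun x hx => ⟨hx.1, h1 hx⟩)
  exact ⟨Pl R n1 n2 r, hπ', hne, heq, s, hs, heq.symm, plane_special hπ hs Ds⟩

end ProjectiveRectangle

end Pool.Agent.R158.Rect
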